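import Mathlib

/-!
The overlap inequality at a fixed time.
-/

open Finset Set MeasureTheory

namespace Pool.Agent.Helper59.Dbar

/-- Rectangle. -/
def Rec (κ0 a κ : ℝ) : Set (ℝ × ℝ) := Icc (-κ0) κ0 ×ˢ Icc (a - κ) (a + κ)

lemma isCompact_Rec (κ0 a κ : ℝ) : IsCompact (Rec κ0 a κ) := isCompact_Icc.prod isCompact_Icc

lemma measurableSet_Rec (κ0 a κ : ℝ) : MeasurableSet (Rec κ0 a κ) :=
  measurableSet_Icc.prod measurableSet_Icc

lemma vol_Rec {κ0 κ : ℝ} (a : ℝ) (h0 : 0 ≤ κ0) (h : 0 ≤ κ) :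
    (volume : Measure (ℝ × ℝ)).real (Rec κ0 a κ) = 4 * κ0 * κ := by
  unfold Rec
  rw [Measure.volume_eq_prod, measureReal_prod_prod, Real.volume_real_Icc_of_le (by linarith),
    Real.volume_real_Icc_of_le (by linarith)]
  ring

variable {V : Type*} [Fintype V]

open Classical in
lemma overlap_pointwise (f : V → ℝ) (hf0 : ∀ v, 0 ≤ f v) {C1 : ℝ} (hC1 : 0 ≤ C1)
    (hf : ∑ v, f v ^ 2 ≤ C1 ^ 2) (a : V → ℝ) {κ κ0 : ℝ} (hκ : 0 < κ) {M : ℕ} (hM : 1 ≤ M)
    (y : ℝ × ℝ) :
    ∑ v, (Rec κ0 (a v) κ).indicator (fun _ => f v) y ≤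
      ∑ v, (Rec κ0 (a v) (2 * κ)).indicator (fun _ => C1 / Real.sqrt M) y +
      ∑ v ∈ Finset.univ.filter (fun v => #{v' : V | |a v' - a v| ≤ κ} < M),
        (Rec κ0 (a v) κ).indicator (fun _ => C1) y := by
  have hMpos : (0 : ℝ) < M := by exact_mod_cast hM
  have hsM : 0 < Real.sqrt M := Real.sqrt_pos.2 hMpos
  have hfle : ∀ v, f v ≤ C1 := by
    intro v
    have h1 : f v ^ 2 ≤ C1 ^ 2 :=
      (Finset.single_le_sum (f := fun v => f v ^ 2) (fun v _ => sq_nonneg _)
        (Finset.mem_univ v)).trans hf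
    exact (pow_le_pow_iff_left₀ (hf0 v) hC1 two_ne_zero).1 h1
  set B : Finset V := Finset.univ.filter (fun v => #{v' : V | |a v' - a v| ≤ κ} < M) with hB
  set S : Finset V := Finset.univ.filter (fun v => y ∈ Rec κ0 (a v) κ) with hS
  set S2 : Finset V := Finset.univ.filter (fun v => y ∈ Rec κ0 (a v) (2 * κ)) with hS2
  have e1 : ∑ v, (Rec κ0 (a v) κ).indicator (fun _ => f v) y = ∑ v ∈ S, f v := by
    rw [hS, Finset.sum_filter]
    apply Finset.sum_congr rfl
    intro v _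
    rw [Set.indicator_apply]
  have e2 : ∑ v, (Rec κ0 (a v) (2 * κ)).indicator (fun _ => C1 / Real.sqrt M) y =
      #S2 * (C1 / Real.sqrt M) := by
    have : ∑ v, (Rec κ0 (a v) (2 * κ)).indicator (fun _ => C1 / Real.sqrt M) y =
        ∑ v ∈ S2, C1 / Real.sqrt M := by
      rw [hS2, Finset.sum_filter]
      apply Finset.sum_congr rfl
      intro v _
      rw [Set.indicator_apply]
    rw [this, Finset.sum_const, nsmul_eq_mul]
  have e3 : ∑ v ∈ B, (Rec κ0 (a v) κ).indicator (fun _ => C1) y = ∑ v ∈ B.filter (· ∈ S), C1 := by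
    have h1 := Finset.sum_filter (s := B) (· ∈ S) (fun _ => C1)
    rw [h1]
    apply Finset.sum_congr rfl
    intro v _
    rw [Set.indicator_apply]
    simp [hS]
  rw [e1, e2, e3]
  have e4 : ∑ v ∈ S, f v = ∑ v ∈ S.filter (· ∈ B), f v + ∑ v ∈ S.filter (· ∉ B), f v :=
    (Finset.sum_filter_add_sum_filter_not S _ _).symm
  have e5 : S.filter (· ∈ B) = B.filter (· ∈ S) := by
    ext v; simp [and_comm]
  have h6 : ∑ v ∈ S.filter (· ∈ B), f v ≤ ∑ v ∈ B.filter (· ∈ S), C1 := by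
    rw [e5]
    exact Finset.sum_le_sum fun v _ => hfle v
  have h7 : ∑ v ∈ S.filter (· ∉ B), f v ≤ #S2 * (C1 / Real.sqrt M) := by
    rcases (S.filter (· ∉ B)).eq_empty_or_nonempty with h0 | ⟨v0, hv0⟩
    · rw [h0, Finset.sum_empty]; positivity
    · rw [Finset.mem_filter] at hv0
      have hv0S : y ∈ Rec κ0 (a v0) κ := by simpa [hS] using hv0.1
      have hv0B : M ≤ #{v' : V | |a v' - a v0| ≤ κ} := by simpa [hB] using hv0.2
      have hsub : (Finset.univ.filter fun v' : V => |a v' - a v0| ≤ κ) ⊆ S2 := by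
        intro v' hv'
        rw [Finset.mem_filter] at hv'
        rw [hS2, Finset.mem_filter]
        refine ⟨Finset.mem_univ _, ?_⟩
        have h8 := abs_le.1 hv'.2
        unfold Rec at hv0S ⊢
        rw [Set.mem_prod, Set.mem_Icc, Set.mem_Icc] at hv0S ⊢
        exact ⟨hv0S.1, by linarith [hv0S.2.1], by linarith [hv0S.2.2]⟩
      have hM2 : (M : ℝ) ≤ #S2 := by exact_mod_cast hv0B.trans (Finset.card_le_card hsub)
      have hsub2 : S.filter (· ∉ B) ⊆ S2 := by
        intro v hv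
        rw [Finset.mem_filter] at hv
        have hvS : y ∈ Rec κ0 (a v) κ := by simpa [hS] using hv.1
        rw [hS2, Finset.mem_filter]
        refine ⟨Finset.mem_univ _, ?_⟩
        unfold Rec at hvS ⊢
        rw [Set.mem_prod, Set.mem_Icc, Set.mem_Icc] at hvS ⊢
        exact ⟨hvS.1, by linarith [hvS.2.1], by linarith [hvS.2.2]⟩
      have hcard : (#(S.filter (· ∉ B)) : ℝ) ≤ #S2 := by
        exact_mod_cast Finset.card_le_card hsub2
      have hCS : (∑ v ∈ S.filter (· ∉ B), f v) ^ 2 ≤ #S2 * C1 ^ 2 := by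
        have h9 := sq_sum_le_card_mul_sum_sq (s := S.filter (· ∉ B)) (f := f)
        have h10 : ∑ v ∈ S.filter (· ∉ B), f v ^ 2 ≤ C1 ^ 2 :=
          (Finset.sum_le_sum_of_subset_of_nonneg (Finset.subset_univ _)
            (fun _ _ _ => sq_nonneg _)).trans hf
        have h11 : 0 ≤ ∑ v ∈ S.filter (· ∉ B), f v ^ 2 := Finset.sum_nonneg fun _ _ => sq_nonneg _
        calc (∑ v ∈ S.filter (· ∉ B), f v) ^ 2 ≤
              #(S.filter (· ∉ B)) * ∑ v ∈ S.filter (· ∉ B), f v ^ 2 := h9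
          _ ≤ #S2 * C1 ^ 2 := mul_le_mul hcard h10 h11 (Nat.cast_nonneg _)
      set m : ℝ := (#S2 : ℝ) with hm
      have hm0 : 0 < m := lt_of_lt_of_le hMpos hM2
      have h12 : ∑ v ∈ S.filter (· ∉ B), f v ≤ Real.sqrt m * C1 := by
        refine (abs_le_of_sq_le_sq' ?_ (by positivity)).2
        rw [mul_pow, Real.sq_sqrt hm0.le]
        exact hCS
      have h13 : Real.sqrt M ≤ Real.sqrt m := Real.sqrt_le_sqrt hM2
      have h14 : Real.sqrt m * Real.sqrt M ≤ m := by
        have := Real.mul_self_sqrt hm0.le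
        nlinarith [Real.sqrt_nonneg m]
      refine h12.trans ?_
      rw [← mul_div_assoc, le_div_iff₀ hsM]
      nlinarith
  rw [e4]
  linarith

open Classical in
/-- The overlap inequality. -/
lemma overlap (f : V → ℝ × ℝ → ℝ) (hf0 : ∀ v y, 0 ≤ f v y) {C1 : ℝ} (hC1 : 0 ≤ C1)
    {Y : Set (ℝ × ℝ)} (hfc : ∀ v, ContinuousOn (f v) Y)
    (hf : ∀ y ∈ Y, ∑ v, f v y ^ 2 ≤ C1 ^ 2) (a : V → ℝ) {κ κ0 : ℝ} (hκ : 0 < κ) (hκ0 : 0 < κ0)
    (hY : ∀ v, Rec κ0 (a v) κ ⊆ Y) {M : ℕ} (hM : 1 ≤ M) :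
    ∑ v, ∫ y in Rec κ0 (a v) κ, f v y ≤
      C1 * (8 * κ0 * κ * (Fintype.card V / Real.sqrt M) +
        4 * κ0 * κ * #{v : V | #{v' : V | |a v' - a v| ≤ κ} < M}) := by
  have hcont : ∀ v, ContinuousOn (f v) (Rec κ0 (a v) κ) := fun v => (hfc v).mono (hY v)
  have hint : ∀ v, IntegrableOn (f v) (Rec κ0 (a v) κ) := fun v =>
    (hcont v).integrableOn_compact (isCompact_Rec _ _ _)
  have hintc : ∀ (v : V) (κ' c : ℝ), IntegrableOn (fun _ : ℝ × ℝ => c) (Rec κ0 (a v) κ') :=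
    fun v κ' c => continuousOn_const.integrableOn_compact (isCompact_Rec _ _ _)
  have hpt : ∀ y, ∑ v, (Rec κ0 (a v) κ).indicator (f v) y ≤
      ∑ v, (Rec κ0 (a v) (2 * κ)).indicator (fun _ => C1 / Real.sqrt M) y +
      ∑ v ∈ Finset.univ.filter (fun v => #{v' : V | |a v' - a v| ≤ κ} < M),
        (Rec κ0 (a v) κ).indicator (fun _ => C1) y := by
    intro y
    by_cases hy : y ∈ Y
    · have h1 := overlap_pointwise (fun v => f v y) (fun v => hf0 v y) hC1 (hf y hy) a hκ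
        (κ0 := κ0) hM y
      refine le_trans (le_of_eq ?_) h1
      apply Finset.sum_congr rfl
      intro v _
      rw [Set.indicator_apply, Set.indicator_apply]
    · have h0 : ∀ v, (Rec κ0 (a v) κ).indicator (f v) y = 0 := fun v =>
        Set.indicator_of_notMem (fun h => hy (hY v h)) _
      simp only [h0, Finset.sum_const_zero]
      apply add_nonneg
      · apply Finset.sum_nonneg
        intro v _
        exact Set.indicator_nonneg (fun _ _ => by positivity) _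
      · apply Finset.sum_nonneg
        intro v _
        exact Set.indicator_nonneg (fun _ _ => hC1) _
  have hI1 : ∀ v, Integrable ((Rec κ0 (a v) κ).indicator (f v)) := fun v =>
    (integrable_indicator_iff (measurableSet_Rec _ _ _)).2 (hint v)
  have hI2 : ∀ (v : V) (κ' c : ℝ), Integrable ((Rec κ0 (a v) κ').indicator (fun _ => c)) :=
    fun v κ' c => (integrable_indicator_iff (measurableSet_Rec _ _ _)).2 (hintc v κ' c)
  have hval : ∀ (v : V) (κ' c : ℝ), 0 ≤ κ' →
      ∫ y, (Rec κ0 (a v) κ').indicator (fun _ => c) y = 4 * κ0 * κ' * c := by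
    intro v κ' c hκ'
    rw [integral_indicator (measurableSet_Rec _ _ _), setIntegral_const, vol_Rec _ hκ0.le hκ',
      smul_eq_mul]
  have hmono := integral_mono (μ := volume)
    (integrable_finsetSum Finset.univ (fun v _ => hI1 v))
    ((integrable_finsetSum Finset.univ (fun v _ => hI2 v (2 * κ) (C1 / Real.sqrt M))).add
      (integrable_finsetSum (Finset.univ.filter
        (fun v => #{v' : V | |a v' - a v| ≤ κ} < M)) (fun v _ => hI2 v κ C1))) hpt
  have e1 : ∫ y, ∑ v, (Rec κ0 (a v) κ).indicator (f v) y = ∑ v, ∫ y in Rec κ0 (a v) κ, f v y := by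
    rw [integral_finsetSum _ (fun v _ => hI1 v)]
    apply Finset.sum_congr rfl
    intro v _
    rw [integral_indicator (measurableSet_Rec _ _ _)]
  rw [e1] at hmono
  refine hmono.trans (le_of_eq ?_)
  simp only [Pi.add_apply]
  rw [integral_add (integrable_finsetSum Finset.univ (fun v _ => hI2 v (2 * κ) (C1 / Real.sqrt M)))
    (integrable_finsetSum _ (fun v _ => hI2 v κ C1)),
    integral_finsetSum _ (fun v _ => hI2 v (2 * κ) (C1 / Real.sqrt M)),
    integral_finsetSum _ (fun v _ => hI2 v κ C1)]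
  simp only [hval _ _ _ (by positivity : (0 : ℝ) ≤ 2 * κ), hval _ _ _ hκ.le]
  rw [Finset.sum_const, Finset.sum_const, Finset.card_univ, nsmul_eq_mul, nsmul_eq_mul]
  ring

end Pool.Agent.Helper59.Dbar
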