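import Mathlib

/-!
Holomorphic dependence of integrals on a parameter.
-/

open Set MeasureTheory Filter
open scoped Topology ContDiff

namespace Pool.Agent.Helper59.Dbar

lemma exists_closedBall_param {Q : Set (ℝ × ℝ)} (hQ : IsCompact Q) {O : Set (ℂ × ℂ × ℂ)}
    (hO : IsOpen O) {p : ℝ × ℝ → ℂ → ℂ × ℂ × ℂ} (hp : Continuous fun z : (ℝ × ℝ) × ℂ => p z.1 z.2)
    {w0 : ℂ} (h0 : ∀ x ∈ Q, p x w0 ∈ O) :
    ∃ ε > 0, ∀ w ∈ Metric.closedBall w0 ε, ∀ x ∈ Q, p x w ∈ O := by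
  have hopen : IsOpen {z : (ℝ × ℝ) × ℂ | p z.1 z.2 ∈ O} := hO.preimage hp
  have hsub : Q ×ˢ ({w0} : Set ℂ) ⊆ {z : (ℝ × ℝ) × ℂ | p z.1 z.2 ∈ O} := by
    rintro ⟨x, w⟩ ⟨h1, h2⟩
    have h2' : w = w0 := h2
    subst h2'
    exact h0 x h1
  obtain ⟨U, V, hU, hV, hQU, hwV, hUV⟩ := @generalized_tube_lemma (ℝ × ℝ) ℂ _ _ Q hQ
    {w0} isCompact_singleton _ hopen hsub
  have hwV' : w0 ∈ V := hwV (Set.mem_singleton w0)
  obtain ⟨ε, hε, hεV⟩ := Metric.nhds_basis_closedBall.mem_iff.1 (hV.mem_nhds hwV')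
  refine ⟨ε, hε, ?_⟩
  intro w hw x hx
  have h3 : (x, w) ∈ U ×ˢ V := Set.mk_mem_prod (hQU hx) (hεV hw)
  have h4 := hUV h3
  rw [Set.mem_ofPred_eq] at h4
  exact h4

lemma param_diff {Q : Set (ℝ × ℝ)} (hQ : IsCompact Q) {O : Set (ℂ × ℂ × ℂ)} (hO : IsOpen O)
    {H : ℂ × ℂ × ℂ → ℂ} (hC : ContDiffOn ℝ ∞ H O) (hD : DifferentiableOn ℂ H O)
    {p : ℝ × ℝ → ℂ → ℂ × ℂ × ℂ} (hp : Continuous fun z : (ℝ × ℝ) × ℂ => p z.1 z.2)
    {d : ℂ × ℂ × ℂ} (hpd : ∀ x w, HasDerivAt (p x) d w) {κ : ℝ × ℝ → ℂ} (hκ : Continuous κ)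
    {w0 : ℂ} (h0 : ∀ x ∈ Q, p x w0 ∈ O) :
    DifferentiableAt ℂ (fun w => ∫ x in Q, κ x * H (p x w)) w0 := by
  obtain ⟨ε, hε, hεO⟩ := exists_closedBall_param hQ hO hp h0
  set F' : ℂ → ℝ × ℝ → ℂ := fun w x => κ x * fderiv ℝ H (p x w) d with hF'
  have hfd : ContinuousOn (fderiv ℝ H) O := hC.continuousOn_fderiv_of_isOpen hO (by simp)
  -- continuity of the derivative on the compact set
  have hcont : ContinuousOn (fun z : (ℝ × ℝ) × ℂ => F' z.2 z.1) (Q ×ˢ Metric.closedBall w0 ε) := by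
    have h1 : ContinuousOn (fun z : (ℝ × ℝ) × ℂ => fderiv ℝ H (p z.1 z.2))
        (Q ×ˢ Metric.closedBall w0 ε) :=
      hfd.comp hp.continuousOn fun z hz => hεO z.2 hz.2 z.1 hz.1
    exact (hκ.comp continuous_fst).continuousOn.mul (h1.clm_apply continuousOn_const)
  obtain ⟨C, hCb⟩ := (hQ.prod (isCompact_closedBall w0 ε)).exists_bound_of_continuousOn hcont
  have hFc : ∀ w ∈ Metric.closedBall w0 ε, ContinuousOn (fun x => κ x * H (p x w)) Q := by
    intro w hw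
    have hpw : Continuous fun x : ℝ × ℝ => p x w :=
      hp.comp (continuous_id.prodMk continuous_const)
    exact hκ.continuousOn.mul (hC.continuousOn.comp hpw.continuousOn fun x hx => hεO w hw x hx)
  have hF'c : ContinuousOn (F' w0) Q := by
    have hpw : Continuous fun x : ℝ × ℝ => p x w0 :=
      hp.comp (continuous_id.prodMk continuous_const)
    exact hκ.continuousOn.mul ((hfd.comp hpw.continuousOn
      fun x hx => h0 x hx).clm_apply continuousOn_const)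
  have hmain := hasDerivAt_integral_of_dominated_loc_of_deriv_le (μ := volume.restrict Q)
    (F := fun w x => κ x * H (p x w)) (F' := F') (x₀ := w0) (s := Metric.ball w0 ε)
    (bound := fun _ => C) (Metric.ball_mem_nhds w0 hε) ?_ ?_ ?_ ?_ ?_ ?_
  · exact hmain.2.differentiableAt
  · filter_upwards [Metric.ball_mem_nhds w0 hε] with w hw
    exact (hFc w (Metric.ball_subset_closedBall hw)).aestronglyMeasurable hQ.measurableSet
  · exact (hFc w0 (Metric.mem_closedBall_self hε.le)).integrableOn_compact hQ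
  · exact hF'c.aestronglyMeasurable hQ.measurableSet
  · rw [ae_restrict_iff' hQ.measurableSet]
    exact Filter.Eventually.of_forall fun x hx w hw =>
      hCb (x, w) ⟨hx, Metric.ball_subset_closedBall hw⟩
  · exact (continuousOn_const (c := C)).integrableOn_compact hQ
  · rw [ae_restrict_iff' hQ.measurableSet]
    refine Filter.Eventually.of_forall fun x hx w hw => ?_
    have hpO : p x w ∈ O := hεO w (Metric.ball_subset_closedBall hw) x hx
    have h1 : HasFDerivAt H (fderiv ℂ H (p x w)) (p x w) :=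
      (hD.differentiableAt (hO.mem_nhds hpO)).hasFDerivAt
    have h2 : HasDerivAt (fun w => H (p x w)) (fderiv ℂ H (p x w) d) w :=
      h1.comp_hasDerivAt w (hpd x w)
    have h3 : fderiv ℝ H (p x w) d = fderiv ℂ H (p x w) d := by
      rw [(hD.differentiableAt (hO.mem_nhds hpO)).fderiv_restrictScalars ℝ]
      rfl
    have h4 := h2.const_mul (κ x)
    rw [hF']
    simp only
    rw [h3]
    exact h4

end Pool.Agent.Helper59.Dbar
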