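import Mathlib

/-!
A two-constants estimate on a half disc.
-/

open Complex Set

namespace Pool.Agent.Helper59.Dbar

/-- The half disc. -/
def HD : Set ℂ := Metric.ball 0 40 ∩ {w | 0 < w.im}

lemma isOpen_HD : IsOpen HD :=
  Metric.isOpen_ball.inter (isOpen_lt continuous_const Complex.continuous_im)

lemma isBounded_HD : Bornology.IsBounded HD := Metric.isBounded_ball.subset inter_subset_left

lemma closure_HD_subset {w : ℂ} (hw : w ∈ closure HD) : ‖w‖ ≤ 40 ∧ 0 ≤ w.im := by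
  have h1 : closure HD ⊆ Metric.closedBall 0 40 ∩ {w : ℂ | 0 ≤ w.im} := by
    apply closure_minimal
    · intro z hz
      have hz2 : 0 < z.im := hz.2
      exact ⟨Metric.ball_subset_closedBall hz.1, hz2.le⟩
    · exact Metric.isClosed_closedBall.inter (isClosed_le continuous_const Complex.continuous_im)
  have h2 := h1 hw
  exact ⟨mem_closedBall_zero_iff.1 h2.1, h2.2⟩

lemma frontier_HD_subset {w : ℂ} (hw : w ∈ frontier HD) :
    (‖w‖ ≤ 40 ∧ 0 ≤ w.im) ∧ (‖w‖ = 40 ∨ w.im = 0) := by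
  have h1 := closure_HD_subset (frontier_subset_closure hw)
  refine ⟨h1, ?_⟩
  by_contra hcon
  push Not at hcon
  have h2 : w ∈ HD := by
    refine ⟨?_, ?_⟩
    · rw [mem_ball_zero_iff]
      exact lt_of_le_of_ne h1.1 hcon.1
    · exact lt_of_le_of_ne h1.2 (Ne.symm hcon.2)
  rw [frontier, isOpen_HD.interior_eq] at hw
  exact hw.2 h2

/-- The weight. -/
noncomputable def Gw (K x0 : ℝ) (w : ℂ) : ℂ := Complex.exp (K * (I / (w - x0 + I / 200) - 1 / 20))

lemma zeta_im (x0 : ℝ) (w : ℂ) : (w - x0 + I / 200).im = w.im + 1 / 200 := by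
  have e : I / 200 = ((1 / 200 : ℝ) : ℂ) * I := by push_cast; ring
  rw [e]
  simp

lemma zeta_re (x0 : ℝ) (w : ℂ) : (w - x0 + I / 200).re = w.re - x0 := by
  have e : I / 200 = ((1 / 200 : ℝ) : ℂ) * I := by push_cast; ring
  rw [e]
  simp

lemma zeta_ne (x0 : ℝ) {w : ℂ} (hw : 0 ≤ w.im) : w - x0 + I / 200 ≠ 0 := by
  intro h0
  have h1 := zeta_im x0 w
  rw [h0, Complex.zero_im] at h1
  linarith

/-- The Poisson-like kernel. -/
noncomputable def Pk (x0 : ℝ) (w : ℂ) : ℝ :=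
  (w.im + 1 / 200) / ((w.re - x0) ^ 2 + (w.im + 1 / 200) ^ 2)

lemma norm_Gw (K x0 : ℝ) (w : ℂ) : ‖Gw K x0 w‖ = Real.exp (K * (Pk x0 w - 1 / 20)) := by
  unfold Gw
  rw [Complex.norm_exp]
  congr 1
  have h1 : (I / (w - x0 + I / 200)).re = Pk x0 w := by
    rw [Complex.div_re, Complex.I_re, Complex.I_im, Complex.normSq_apply, zeta_im, zeta_re]
    unfold Pk
    rw [zero_mul, zero_div, zero_add, one_mul]
    congr 1
    ring
  rw [Complex.re_ofReal_mul, Complex.sub_re, h1]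
  have h2 : ((1 : ℂ) / 20).re = 1 / 20 := by
    have e : ((1 : ℂ) / 20) = ((1 / 20 : ℝ) : ℂ) := by push_cast; ring
    rw [e, Complex.ofReal_re]
  rw [h2]

lemma differentiableAt_Gw (K x0 : ℝ) {w : ℂ} (hw : 0 ≤ w.im) : DifferentiableAt ℂ (Gw K x0) w := by
  have h := zeta_ne x0 hw
  unfold Gw
  fun_prop (disch := assumption)

lemma diffContOnCl_Gw (K x0 : ℝ) : DiffContOnCl ℂ (Gw K x0) HD where
  differentiableOn w hw := (differentiableAt_Gw K x0 (le_of_lt hw.2)).differentiableWithinAt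
  continuousOn w hw :=
    (differentiableAt_Gw K x0 (closure_HD_subset hw).2).continuousAt.continuousWithinAt

lemma harm {x0 : ℝ} (hx0 : |x0| ≤ 11 / 2) {U : ℂ → ℂ} (hU : DiffContOnCl ℂ U HD) {A η K : ℝ}
    (hA : ∀ w : ℂ, ‖w‖ ≤ 40 → 0 ≤ w.im → ‖U w‖ ≤ A)
    (hη : ∀ t : ℝ, |t - x0| ≤ 1 / 2 → ‖U t‖ ≤ η) (hK : 0 ≤ K) :
    ‖U (5 * I)‖ ≤ max (η * Real.exp (200 * K)) (A * Real.exp (-(K / 100))) := by
  have hx := abs_le.1 hx0
  have h5n : ‖(5 * I : ℂ)‖ = 5 := by
    rw [norm_mul, Complex.norm_I, mul_one, Complex.norm_ofNat]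
  have h5re : (5 * I : ℂ).re = 0 := by simp
  have h5im : (5 * I : ℂ).im = 5 := by simp
  have hmem : (5 * I : ℂ) ∈ closure HD := by
    apply subset_closure
    refine ⟨?_, ?_⟩
    · rw [mem_ball_zero_iff, h5n]; norm_num
    · show 0 < (5 * I : ℂ).im
      rw [h5im]; norm_num
  have hA0 : 0 ≤ A := (norm_nonneg _).trans (hA 0 (by simp) (by simp))
  have hη0 : 0 ≤ η := (norm_nonneg _).trans (hη x0 (by simp))
  have hprod : DiffContOnCl ℂ (fun w => Gw K x0 w • U w) HD := (diffContOnCl_Gw K x0).smul hU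
  have hmain := Complex.norm_le_of_forall_mem_frontier_norm_le isBounded_HD hprod
    (C := max (η * Real.exp (200 * K)) (A * Real.exp (-(K / 100)))) (fun w hw => ?_) hmem
  · -- conclusion
    rw [norm_smul, norm_Gw] at hmain
    have hP : 1 / 20 ≤ Pk x0 (5 * I) := by
      unfold Pk
      rw [h5re, h5im, le_div_iff₀ (by positivity)]
      nlinarith
    have h1 : 1 ≤ Real.exp (K * (Pk x0 (5 * I) - 1 / 20)) := by
      rw [Real.one_le_exp_iff]
      exact mul_nonneg hK (by linarith)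
    have h2 := norm_nonneg (U (5 * I))
    nlinarith
  · -- boundary
    obtain ⟨⟨hw1, hw2⟩, hw3⟩ := frontier_HD_subset hw
    rw [norm_smul, norm_Gw]
    have hpos : 0 < (w.re - x0) ^ 2 + (w.im + 1 / 200) ^ 2 := by positivity
    by_cases hL : w.im = 0 ∧ |w.re - x0| ≤ 1 / 2
    · apply le_trans _ (le_max_left _ _)
      have hw' : w = ((w.re : ℝ) : ℂ) := by
        apply Complex.ext <;> simp [hL.1]
      have h1 : ‖U w‖ ≤ η := by
        rw [hw']; exact hη _ hL.2
      have h2 : Pk x0 w ≤ 200 := by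
        unfold Pk
        rw [div_le_iff₀ hpos, hL.1]
        nlinarith [sq_nonneg (w.re - x0)]
      have h3 : Real.exp (K * (Pk x0 w - 1 / 20)) ≤ Real.exp (200 * K) := by
        apply Real.exp_le_exp.2
        nlinarith
      rw [mul_comm]
      exact mul_le_mul h1 h3 (Real.exp_pos _).le hη0
    · apply le_trans _ (le_max_right _ _)
      have h1 : ‖U w‖ ≤ A := hA w hw1 hw2
      have h2 : Pk x0 w ≤ 1 / 20 - 1 / 100 := by
        unfold Pk
        rw [div_le_iff₀ hpos]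
        rcases hw3 with h3 | h3
        · have h4 : w.re ^ 2 + w.im ^ 2 = 1600 := by
            have := Complex.sq_norm w
            rw [h3, Complex.normSq_apply] at this
            linarith
          have h5 : |w.re| ≤ 40 := (Complex.abs_re_le_norm w).trans hw1
          have h6 := abs_le.1 h5
          have h7 : w.im ≤ 40 := by nlinarith
          have h8 : w.re * x0 ≤ 220 := by
            have : |w.re * x0| ≤ 40 * (11 / 2) := by
              rw [abs_mul]
              exact mul_le_mul h5 hx0 (abs_nonneg _) (by norm_num)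
            have := le_abs_self (w.re * x0)
            linarith
          nlinarith [sq_nonneg x0]
        · have h4 : 1 / 2 < |w.re - x0| := by
            by_contra hcon
            exact hL ⟨h3, not_lt.1 hcon⟩
          have h5 : 1 / 4 ≤ (w.re - x0) ^ 2 := by
            rw [← sq_abs]; nlinarith
          rw [h3]
          nlinarith
      have h3 : Real.exp (K * (Pk x0 w - 1 / 20)) ≤ Real.exp (-(K / 100)) := by
        apply Real.exp_le_exp.2
        nlinarith
      rw [mul_comm]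
      exact mul_le_mul h1 h3 (Real.exp_pos _).le hA0

/-- Two-constants contradiction: a bounded holomorphic function on the half disc cannot be small
on `[-6,-5]` and close to `-κ` on `[1,2]`. -/
lemma two_const {A τ : ℝ} (hA0 : 0 ≤ A) (hτ : 0 < τ) : ∃ η : ℝ, 0 < η ∧
    ∀ (U : ℂ → ℂ) (κ : ℂ), DiffContOnCl ℂ U HD → (∀ w : ℂ, ‖w‖ ≤ 40 → 0 ≤ w.im → ‖U w‖ ≤ A) →
      (∀ t : ℝ, -6 ≤ t → t ≤ -5 → ‖U t‖ ≤ η) → (∀ t : ℝ, 1 ≤ t → t ≤ 2 → ‖U t + κ‖ ≤ η) →
      ‖κ‖ ≤ A → ‖κ‖ ≤ τ := by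
  obtain ⟨K, hK0, hK⟩ : ∃ K : ℝ, 0 ≤ K ∧ 2 * A * Real.exp (-(K / 100)) ≤ τ / 2 := by
    refine ⟨100 * (4 * A / τ), by positivity, ?_⟩
    have e : 100 * (4 * A / τ) / 100 = 4 * A / τ := by ring
    rw [e, Real.exp_neg]
    have h1 : 4 * A / τ ≤ Real.exp (4 * A / τ) := by
      have := Real.add_one_le_exp (4 * A / τ)
      linarith
    have h2 := Real.exp_pos (4 * A / τ)
    rw [← div_eq_mul_inv, div_le_iff₀ h2]
    have h3 : 4 * A ≤ Real.exp (4 * A / τ) * τ := by
      rwa [div_le_iff₀ hτ] at h1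
    linarith
  refine ⟨τ / 2 * Real.exp (-(200 * K)), by positivity, ?_⟩
  intro U κ hU hUA hL hR hκ
  have hηexp : τ / 2 * Real.exp (-(200 * K)) * Real.exp (200 * K) = τ / 2 := by
    rw [mul_assoc, ← Real.exp_add]
    simp
  have hexp1 := Real.exp_pos (-(K / 100))
  have h1 := harm (x0 := -(11 / 2)) (by rw [abs_neg]; norm_num) hU hUA
    (η := τ / 2 * Real.exp (-(200 * K))) (fun t ht => hL t (by have := abs_le.1 ht; linarith)
      (by have := abs_le.1 ht; linarith)) hK0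
  have hU2 : DiffContOnCl ℂ (fun w => U w + κ) HD := hU.add_const κ
  have h2 := harm (x0 := 3 / 2) (by rw [abs_of_pos] <;> norm_num) hU2 (A := 2 * A)
    (η := τ / 2 * Real.exp (-(200 * K)))
    (fun w hw1 hw2 => (norm_add_le _ _).trans (by linarith [hUA w hw1 hw2]))
    (fun t ht => hR t (by have := abs_le.1 ht; linarith) (by have := abs_le.1 ht; linarith)) hK0
  rw [hηexp] at h1 h2
  have h3 : A * Real.exp (-(K / 100)) ≤ τ / 2 := by nlinarith
  have h4 : ‖U (5 * I)‖ ≤ τ / 2 := h1.trans (max_le le_rfl h3)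
  have h5 : ‖U (5 * I) + κ‖ ≤ τ / 2 := h2.trans (max_le le_rfl hK)
  have h6 : κ = (U (5 * I) + κ) - U (5 * I) := by ring
  rw [h6]
  exact (norm_sub_le _ _).trans (by linarith)

end Pool.Agent.Helper59.Dbar
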