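import Pool.Agent.Helper59.Dbar.Disc
import Pool.Agent.Helper59.Dbar.Overlap
import Pool.Agent.Helper59.Dbar.Param
import Pool.Agent.Helper59.Dbar.TwoConst

/-!
The averaged holomorphic function on the half disc.
-/

open Finset Complex Set MeasureTheory
open scoped ContDiff Topology

namespace Pool.Agent.Helper59.Dbar

/-- The square of base points. -/
def YY : Set (ℝ × ℝ) := Set.Icc (-1) 1 ×ˢ Set.Icc (-1) 1

/-- Parameters of the test set. -/
def KT : Set (ℝ × (ℝ × ℝ) × ℂ) :=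
  Set.Icc 0 1 ×ˢ (YY ×ˢ (Metric.closedBall 0 40 ∩ {w : ℂ | 0 ≤ w.im}))

/-- The test set. -/
def Ktest (P : Par) : Set (ℂ × ℂ × ℂ) := (fun z : ℝ × (ℝ × ℝ) × ℂ => P.pt z.1 z.2.1 z.2.2) '' KT

lemma isCompact_YY : IsCompact YY := isCompact_Icc.prod isCompact_Icc

lemma isCompact_Ktest (P : Par) : IsCompact (Ktest P) := by
  apply IsCompact.image _ Par.continuous_pt
  exact isCompact_Icc.prod (isCompact_YY.prod ((isCompact_closedBall _ _).inter_right
    (isClosed_le continuous_const Complex.continuous_im)))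

lemma Ktest_subset (P : Par) : Ktest P ⊆ Sieg := by
  rintro _ ⟨z, hz, rfl⟩
  have h1 : 0 ≤ z.2.2.im := hz.2.2.2
  exact Par.pt_mem_Sieg _ _ h1

lemma pt_mem_Ktest (P : Par) {s : ℝ} (hs0 : 0 ≤ s) (hs1 : s ≤ 1) {x : ℝ × ℝ} (hx : x ∈ YY)
    {w : ℂ} (hw : ‖w‖ ≤ 40) (hw' : 0 ≤ w.im) : P.pt s x w ∈ Ktest P :=
  ⟨(s, x, w), ⟨⟨hs0, hs1⟩, hx, mem_closedBall_zero_iff.2 hw, hw'⟩, rfl⟩

/-- The data extracted from the uniform estimates. -/
structure Dat (P : Par) (C1 : ℝ) where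
  O : Set (ℂ × ℂ × ℂ)
  hO : IsOpen O
  hK : Ktest P ⊆ O
  h : Tub P.b → ℂ × ℂ × ℂ → ℂ
  hC : ∀ v, ContDiffOn ℝ ∞ (h v) O
  hD : ∀ v, DifferentiableOn ℂ (h v) O
  hsq : ∀ w ∈ Ktest P,
    ∑ v, ‖h v w + ((chi w.1 w.2.1 w.2.2 : ℝ) : ℂ) * P.pk v w.1 w.2.1 w.2.2‖ ^ 2 ≤ C1 ^ 2

/-- base rectangle of the tube `v` -/
noncomputable def Qr (P : Par) (v : Tub P.b) : Set (ℝ × ℝ) := Rec (P.κ0 / 2) (P.c v) P.κ

lemma Qr_fst {P : Par} {v : Tub P.b} {x : ℝ × ℝ} (hx : x ∈ Qr P v) : |x.1| ≤ P.κ0 / 2 := by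
  have h1 := hx.1
  rw [Set.mem_Icc] at h1
  rw [abs_le]; exact h1

lemma Qr_snd {P : Par} {v : Tub P.b} {x : ℝ × ℝ} (hx : x ∈ Qr P v) : |x.2 - P.c v| ≤ P.κ := by
  have h1 := hx.2
  rw [Set.mem_Icc] at h1
  rw [abs_le]; constructor <;> linarith [h1.1, h1.2]

lemma Qr_subset_YY {P : Par} (h4 : 4 ≤ P.μ0) (v : Tub P.b) : Qr P v ⊆ YY := by
  intro x hx
  have h1 := abs_le.1 (Qr_fst hx)
  have h2 := abs_le.1 (Qr_snd hx)
  have h3 := P.κ0_le h4
  have h5 := P.κ_le_e1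
  have h6 := P.he1'
  have h7 := abs_le.1 (P.abs_c_le v)
  refine ⟨⟨by linarith, by linarith⟩, ⟨by linarith, by linarith⟩⟩

/-- volume of the base rectangle -/
noncomputable def qv (P : Par) : ℝ := 4 * (P.κ0 / 2) * P.κ

lemma vol_Qr (P : Par) (v : Tub P.b) : (volume : Measure (ℝ × ℝ)).real (Qr P v) = qv P :=
  vol_Rec _ (by have := P.κ0_pos; positivity) P.κ_pos.le

lemma qv_pos (P : Par) : 0 < qv P := by
  unfold qv
  have := P.κ0_pos
  have := P.κ_pos
  positivity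

/-- number of tubes -/
noncomputable def NT (P : Par) : ℝ := Fintype.card (Tub P.b)

lemma NT_pos (P : Par) : 0 < NT P := by
  unfold NT
  rw [card_Tub]
  exact P.pos_b

variable {P : Par} {C1 : ℝ}

namespace Dat

/-- The functions `f_v`. -/
noncomputable def f (D : Dat P C1) (v : Tub P.b) (w : ℂ × ℂ × ℂ) : ℂ :=
  D.h v w + ((chi w.1 w.2.1 w.2.2 : ℝ) : ℂ) * P.pk v w.1 w.2.1 w.2.2

/-- The averaged function. -/
noncomputable def U (D : Dat P C1) (w : ℂ) : ℂ :=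
  ((1 / (NT P * qv P) : ℝ) : ℂ) *
    ∑ v, ∫ x in Qr P v, starRingEnd ℂ (Par.kap v x) * D.h v (P.pt (P.s v) x w)

lemma s_le_one (v : Tub P.b) : P.s v ≤ 1 := by
  have := P.s_le v
  have := P.he1'
  linarith

lemma differentiableAt_U (D : Dat P C1) (h4 : 4 ≤ P.μ0) {w : ℂ} (hw : ‖w‖ ≤ 40) (hw' : 0 ≤ w.im) :
    DifferentiableAt ℂ D.U w := by
  unfold U
  apply DifferentiableAt.const_mul
  apply DifferentiableAt.fun_sum
  intro v _
  apply param_diff (isCompact_Rec _ _ _) D.hO (D.hC v) (D.hD v)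
    (p := fun x w => P.pt (P.s v) x w) (d := ((1 : ℂ), ((P.s v : ℂ) ^ 2), (P.s v : ℂ)))
  · intro x w
    unfold Par.pt
    apply HasDerivAt.prodMk
    · simpa using (hasDerivAt_id w).const_add (I * (P.del : ℂ))
    · apply HasDerivAt.prodMk
      · simpa using ((hasDerivAt_id w).mul_const ((P.s v : ℂ) ^ 2)).const_add
          ((x.1 : ℂ) + I * (P.del : ℂ))
      · simpa using ((hasDerivAt_id w).mul_const (P.s v : ℂ)).const_add (x.2 : ℂ)
  · exact Complex.continuous_conj.comp (Par.continuous_kap v)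
  · intro x hx
    exact D.hK (pt_mem_Ktest P (P.s_nonneg v) (s_le_one v) (Qr_subset_YY h4 v hx) hw hw')
  · have h1 := Par.continuous_pt (P := P)
    exact h1.comp (continuous_const.prodMk continuous_id)

lemma diffContOnCl_U (D : Dat P C1) (h4 : 4 ≤ P.μ0) : DiffContOnCl ℂ D.U HD where
  differentiableOn w hw := by
    have h1 := closure_HD_subset (subset_closure hw)
    exact (D.differentiableAt_U h4 h1.1 h1.2).differentiableWithinAt
  continuousOn w hw := by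
    have h1 := closure_HD_subset hw
    exact (D.differentiableAt_U h4 h1.1 h1.2).continuousAt.continuousWithinAt

lemma norm_f_le (D : Dat P C1) (hC1 : 0 ≤ C1) {w : ℂ × ℂ × ℂ} (hw : w ∈ Ktest P) (v : Tub P.b) :
    ‖D.f v w‖ ≤ C1 := by
  have h1 : ‖D.f v w‖ ^ 2 ≤ C1 ^ 2 :=
    (Finset.single_le_sum (f := fun v => ‖D.f v w‖ ^ 2) (fun v _ => sq_nonneg _)
      (Finset.mem_univ v)).trans (D.hsq w hw)
  exact (pow_le_pow_iff_left₀ (norm_nonneg _) hC1 two_ne_zero).1 h1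

lemma norm_h_le (D : Dat P C1) (hC1 : 0 ≤ C1) {w : ℂ × ℂ × ℂ} (hw : w ∈ Ktest P) (v : Tub P.b) :
    ‖D.h v w‖ ≤ C1 + 1 := by
  have h1 := D.norm_f_le hC1 hw v
  have h2 := Par.norm_chi_pk_le v (Ktest_subset P hw)
  have h3 : D.h v w = D.f v w - ((chi w.1 w.2.1 w.2.2 : ℝ) : ℂ) * P.pk v w.1 w.2.1 w.2.2 := by
    unfold f; ring
  rw [h3]
  exact (norm_sub_le _ _).trans (by linarith)

/-- generic bound for averages -/
lemma norm_avg_le (G : Tub P.b → ℝ × ℝ → ℂ) {B : ℝ} (hG : ∀ v, ∀ x ∈ Qr P v, ‖G v x‖ ≤ B) :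
    ‖((1 / (NT P * qv P) : ℝ) : ℂ) * ∑ v, ∫ x in Qr P v, G v x‖ ≤ B := by
  have hN := NT_pos P
  have hq := qv_pos P
  rw [norm_mul, Complex.norm_real, Real.norm_eq_abs, abs_of_pos (by positivity)]
  have h1 : ‖∑ v, ∫ x in Qr P v, G v x‖ ≤ ∑ _v : Tub P.b, B * qv P := by
    refine (norm_sum_le _ _).trans (Finset.sum_le_sum fun v _ => ?_)
    have h2 := norm_setIntegral_le_of_norm_le_const (μ := (volume : Measure (ℝ × ℝ)))
      (isCompact_Rec (P.κ0 / 2) (P.c v) P.κ).measure_lt_top (hG v)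
    refine h2.trans (le_of_eq ?_)
    have h3 := vol_Qr P v
    unfold Qr at h3
    rw [h3]
  rw [Finset.sum_const, Finset.card_univ, nsmul_eq_mul] at h1
  rw [one_div, inv_mul_le_iff₀ (by positivity)]
  refine h1.trans (le_of_eq ?_)
  unfold NT
  ring

lemma norm_U_le (D : Dat P C1) (hC1 : 0 ≤ C1) (h4 : 4 ≤ P.μ0) {w : ℂ} (hw : ‖w‖ ≤ 40)
    (hw' : 0 ≤ w.im) : ‖D.U w‖ ≤ C1 + 1 := by
  unfold U
  apply norm_avg_le (fun v x => starRingEnd ℂ (Par.kap v x) * D.h v (P.pt (P.s v) x w))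
  intro v x hx
  rw [norm_mul, RCLike.norm_conj]
  have h1 := Par.norm_kap_le h4 v (Qr_fst hx) (Qr_snd hx)
  have h2 := D.norm_h_le hC1
    (pt_mem_Ktest P (P.s_nonneg v) (s_le_one v) (Qr_subset_YY h4 v hx) hw hw') v
  have h3 := norm_nonneg (Par.kap v x)
  have h5 := norm_nonneg (D.h v (P.pt (P.s v) x w))
  nlinarith

end Dat

/-- average of the squares of the packets on their discs -/
noncomputable def kbar (P : Par) : ℝ :=
  (1 / (NT P * qv P)) * ∑ v, ∫ x in Qr P v, ‖Par.kap v x‖ ^ 2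

lemma kbar_ge (P : Par) : Real.exp (-6) ≤ kbar P := by
  have hN := NT_pos P
  have hq := qv_pos P
  unfold kbar
  rw [one_div, ← div_eq_inv_mul, le_div_iff₀ (by positivity)]
  have h1 : ∀ v : Tub P.b, Real.exp (-6) * qv P ≤ ∫ x in Qr P v, ‖Par.kap v x‖ ^ 2 := by
    intro v
    have hcq : IsCompact (Qr P v) := isCompact_Rec _ _ _
    have h2 : ∫ _x in Qr P v, Real.exp (-6) = Real.exp (-6) * qv P := by
      rw [setIntegral_const, vol_Qr, smul_eq_mul, mul_comm]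
    rw [← h2]
    apply setIntegral_mono_on
    · exact (continuousOn_const).integrableOn_compact hcq
    · exact ((Par.continuous_kap v).norm.pow 2).continuousOn.integrableOn_compact hcq
    · exact hcq.measurableSet
    · intro x hx
      have h3 := Par.norm_kap_ge v (Qr_fst hx) (Qr_snd hx)
      have h5 : Real.exp (-6) = Real.exp (-3) ^ 2 := by
        rw [← Real.exp_nat_mul]; norm_num
      rw [h5]
      exact pow_le_pow_left₀ (Real.exp_pos _).le h3 2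
  calc Real.exp (-6) * (NT P * qv P) = ∑ _v : Tub P.b, Real.exp (-6) * qv P := by
        rw [Finset.sum_const, Finset.card_univ, nsmul_eq_mul]
        unfold NT
        ring
    _ ≤ ∑ v, ∫ x in Qr P v, ‖Par.kap v x‖ ^ 2 := Finset.sum_le_sum fun v _ => h1 v

lemma kbar_le (P : Par) (h4 : 4 ≤ P.μ0) : kbar P ≤ 1 := by
  have hN := NT_pos P
  have hq := qv_pos P
  unfold kbar
  rw [one_div, ← div_eq_inv_mul, div_le_iff₀ (by positivity)]
  have h1 : ∀ v : Tub P.b, ∫ x in Qr P v, ‖Par.kap v x‖ ^ 2 ≤ qv P := by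
    intro v
    have hcq : IsCompact (Qr P v) := isCompact_Rec _ _ _
    have h2 : ∫ _x in Qr P v, (1 : ℝ) = qv P := by
      rw [setIntegral_const, vol_Qr, smul_eq_mul, mul_one]
    rw [← h2]
    apply setIntegral_mono_on
    · exact ((Par.continuous_kap v).norm.pow 2).continuousOn.integrableOn_compact hcq
    · exact (continuousOn_const).integrableOn_compact hcq
    · exact hcq.measurableSet
    · intro x hx
      have h3 := Par.norm_kap_le h4 v (Qr_fst hx) (Qr_snd hx)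
      exact pow_le_one₀ (norm_nonneg _) h3
  calc ∑ v, ∫ x in Qr P v, ‖Par.kap v x‖ ^ 2 ≤ ∑ _v : Tub P.b, qv P :=
        Finset.sum_le_sum fun v _ => h1 v
    _ = 1 * (NT P * qv P) := by
        rw [Finset.sum_const, Finset.card_univ, nsmul_eq_mul]
        unfold NT
        ring

end Pool.Agent.Helper59.Dbar
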