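import Mathlib

/-!
Gaussian sums over separated points.
-/

open Finset

namespace Pool.Agent.Helper59.Dbar

/-- The universal constant bounding the Gaussian sums. -/
noncomputable def BG : ℝ := ∑' m : ℤ, Real.exp (5 / 4 - |(m : ℝ)|)

lemma summable_BG : Summable fun m : ℤ => Real.exp (5 / 4 - |(m : ℝ)|) := by
  have h1 : Summable fun n : ℕ => Real.exp (5 / 4) * (Real.exp (-1)) ^ n := by
    apply Summable.mul_left
    apply summable_geometric_of_lt_one (Real.exp_pos _).le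
    rw [Real.exp_lt_one_iff]; norm_num
  have h2 : ∀ n : ℕ, Real.exp (5 / 4 - (n : ℝ)) = Real.exp (5 / 4) * (Real.exp (-1)) ^ n := by
    intro n
    rw [← Real.exp_nat_mul, ← Real.exp_add]
    congr 1; ring
  apply Summable.of_nat_of_neg
  · refine h1.congr ?_
    intro n
    rw [← h2]
    simp
  · refine h1.congr ?_
    intro n
    rw [← h2]
    simp

lemma BG_pos : 0 < BG := by
  unfold BG
  exact summable_BG.tsum_pos (fun m => (Real.exp_pos _).le) 0 (Real.exp_pos _)

lemma gauss_sum {ι : Type*} [Fintype ι] (a : ι → ℝ) {κ : ℝ} (hκ : 0 < κ)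
    (hsep : ∀ i j, i ≠ j → κ ≤ |a i - a j|) (x : ℝ) :
    ∑ i, Real.exp (-((x - a i) ^ 2 / κ ^ 2)) ≤ BG := by
  classical
  set f : ι → ℤ := fun i => ⌊(a i - x) / κ⌋ with hf
  have hinj : Function.Injective f := by
    intro i j hij
    by_contra hne
    have h1 := Int.abs_sub_lt_one_of_floor_eq_floor hij
    have h2 := hsep i j hne
    have e : (a i - x) / κ - (a j - x) / κ = (a i - a j) / κ := by ring
    rw [e, abs_div, abs_of_pos hκ, div_lt_one hκ] at h1
    linarith
  have hterm : ∀ i, Real.exp (-((x - a i) ^ 2 / κ ^ 2)) ≤ Real.exp (5 / 4 - |((f i : ℤ) : ℝ)|) := by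
    intro i
    apply Real.exp_le_exp.2
    set t : ℝ := (a i - x) / κ with ht
    have e : (x - a i) ^ 2 / κ ^ 2 = |t| ^ 2 := by
      rw [sq_abs, ht, div_pow]; congr 1; ring
    rw [e]
    have h1 : ((f i : ℤ) : ℝ) ≤ t := Int.floor_le t
    have h2 : t < ((f i : ℤ) : ℝ) + 1 := Int.lt_floor_add_one t
    have h3 : |((f i : ℤ) : ℝ)| ≤ |t| + 1 := by
      have h4 : |((f i : ℤ) : ℝ) - t| ≤ 1 := by rw [abs_le]; constructor <;> linarith
      have h5 := abs_sub_abs_le_abs_sub ((f i : ℤ) : ℝ) t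
      linarith
    nlinarith [sq_nonneg (|t| - 1 / 2)]
  calc ∑ i, Real.exp (-((x - a i) ^ 2 / κ ^ 2)) ≤ ∑ i, Real.exp (5 / 4 - |((f i : ℤ) : ℝ)|) :=
        Finset.sum_le_sum fun i _ => hterm i
    _ = ∑ m ∈ Finset.univ.image f, Real.exp (5 / 4 - |(m : ℝ)|) := by
        rw [Finset.sum_image (fun i _ j _ h => hinj h)]
    _ ≤ BG := summable_BG.sum_le_tsum _ (fun m _ => (Real.exp_pos _).le)

end Pool.Agent.Helper59.Dbar
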