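import Pool.Agent.Helper59.Dbar.Count
import Pool.Agent.Helper59.Dbar.Gauss

/-!
The wave packets in the flat coordinates and their size.
-/

open Finset Complex

namespace Pool.Agent.Helper59.Dbar

/-- Positivity of the imaginary part of the symmetric matrix `[[w1,w3],[w3,w2]]`. -/
def PosW (w1 w2 w3 : ℂ) : Prop :=
  ∀ p q : ℝ, 0 ≤ p ^ 2 * w1.im + 2 * p * q * w3.im + q ^ 2 * w2.im

noncomputable def xi (s : ℝ) (w1 w2 w3 : ℂ) : ℂ := w2 - 2 * s * w3 + s ^ 2 * w1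

noncomputable def AA (s : ℝ) (w1 w3 : ℂ) : ℂ := w3 - s * w1

/-- Wave packet. -/
noncomputable def psi (lam μ μ0 s c : ℝ) (w1 w2 w3 : ℂ) : ℂ :=
  Complex.exp (I * lam * xi s w1 w2 w3 - μ * (AA s w1 w3 - c) ^ 2 - μ0 * (xi s w1 w2 w3) ^ 2)

lemma xi_im (s : ℝ) (w1 w2 w3 : ℂ) :
    (xi s w1 w2 w3).im = w2.im - 2 * s * w3.im + s ^ 2 * w1.im := by
  unfold xi
  have e : ((s : ℂ) ^ 2) = ((s ^ 2 : ℝ) : ℂ) := by push_cast; ring
  rw [e]
  generalize s ^ 2 = r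
  simp

lemma xi_re (s : ℝ) (w1 w2 w3 : ℂ) :
    (xi s w1 w2 w3).re = w2.re - 2 * s * w3.re + s ^ 2 * w1.re := by
  unfold xi
  have e : ((s : ℂ) ^ 2) = ((s ^ 2 : ℝ) : ℂ) := by push_cast; ring
  rw [e]
  generalize s ^ 2 = r
  simp

lemma AA_im (s : ℝ) (w1 w3 : ℂ) : (AA s w1 w3).im = w3.im - s * w1.im := by
  unfold AA; simp

lemma AA_re (s : ℝ) (w1 w3 : ℂ) : (AA s w1 w3).re = w3.re - s * w1.re := by
  unfold AA; simp

lemma PosW.xi_nonneg {w1 w2 w3 : ℂ} (h : PosW w1 w2 w3) (s : ℝ) : 0 ≤ (xi s w1 w2 w3).im := by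
  rw [xi_im]
  have := h (-s) 1
  linarith

lemma PosW.w1_nonneg {w1 w2 w3 : ℂ} (h : PosW w1 w2 w3) : 0 ≤ w1.im := by
  have := h 1 0
  simpa using this

lemma PosW.w2_nonneg {w1 w2 w3 : ℂ} (h : PosW w1 w2 w3) : 0 ≤ w2.im := by
  have := h 0 1
  simpa using this

lemma PosW.AA_sq_le {w1 w2 w3 : ℂ} (h : PosW w1 w2 w3) (s : ℝ) :
    (AA s w1 w3).im ^ 2 ≤ w1.im * (xi s w1 w2 w3).im := by
  rw [AA_im, xi_im]
  have h1 : ∀ t : ℝ, 0 ≤ w1.im * (t * t) + (2 * (w3.im - s * w1.im)) * t +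
      (w2.im - 2 * s * w3.im + s ^ 2 * w1.im) := by
    intro t
    have := h (t - s) 1
    nlinarith
  have h2 := discrim_le_zero h1
  unfold discrim at h2
  nlinarith

lemma norm_psi (lam μ μ0 s c : ℝ) (w1 w2 w3 : ℂ) :
    ‖psi lam μ μ0 s c w1 w2 w3‖ = Real.exp (-(lam * (xi s w1 w2 w3).im) -
      μ * (((AA s w1 w3).re - c) ^ 2 - (AA s w1 w3).im ^ 2) -
      μ0 * ((xi s w1 w2 w3).re ^ 2 - (xi s w1 w2 w3).im ^ 2)) := by
  unfold psi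
  rw [Complex.norm_exp]
  congr 1
  simp only [Complex.sub_re, Complex.mul_re, Complex.I_re, Complex.I_im, Complex.ofReal_re,
    Complex.ofReal_im, Complex.mul_im, pow_two, Complex.sub_im]
  ring

lemma norm_psi_le {lam μ μ0 s c : ℝ} {w1 w2 w3 : ℂ} (h : PosW w1 w2 w3) (hμ : 0 ≤ μ)
    (hμ0 : 0 ≤ μ0) (hlam : 4 * (μ + μ0) ≤ lam) (h1 : w1.im ≤ 2) (h2 : (xi s w1 w2 w3).im ≤ 2) :
    ‖psi lam μ μ0 s c w1 w2 w3‖ ≤ Real.exp (-(lam / 2 * (xi s w1 w2 w3).im) -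
      μ * ((AA s w1 w3).re - c) ^ 2 - μ0 * (xi s w1 w2 w3).re ^ 2) := by
  rw [norm_psi]
  apply Real.exp_le_exp.2
  have h3 := h.AA_sq_le s
  have h4 := h.xi_nonneg s
  have h5 := h.w1_nonneg
  set y := (xi s w1 w2 w3).im
  have h6 : (AA s w1 w3).im ^ 2 ≤ 2 * y := by nlinarith
  have h7 : y ^ 2 ≤ 2 * y := by nlinarith
  have h8 : μ * (AA s w1 w3).im ^ 2 ≤ μ * (2 * y) := mul_le_mul_of_nonneg_left h6 hμ
  have h9 : μ0 * y ^ 2 ≤ μ0 * (2 * y) := mul_le_mul_of_nonneg_left h7 hμ0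
  have h10 : 4 * (μ + μ0) * y ≤ lam * y := mul_le_mul_of_nonneg_right hlam h4
  nlinarith

/-- The parameters of the construction and the inequalities between them. -/
structure Par where
  b : ℕ
  hb : 1 ≤ b
  e1 : ℝ
  he1 : 0 < e1
  he1' : e1 ≤ 1 / 1000
  μ0 : ℝ
  lam : ℝ
  hμ0 : 1 ≤ μ0
  /-- `N` times small exponentials are at most `1`. -/
  hN0 : 64 * Real.log ((b : ℝ) ^ (2 * b)) ≤ μ0
  hN1 : 64 * Real.log ((b : ℝ) ^ (2 * b)) ≤ (((b : ℝ) + 3) ^ (2 * b) / e1) ^ 2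
  hlam : 256 * ((((b : ℝ) + 3) ^ (2 * b) / e1) ^ 2 + μ0) ≤ lam
  /-- slopes are small compared with the phase localisation -/
  he0 : 100 * e1 ^ 2 * μ0 ≤ 1 / 100

namespace Par

variable (P : Par)

noncomputable def κ : ℝ := P.e1 / ((P.b : ℝ) + 3) ^ (2 * P.b)

noncomputable def μ : ℝ := 1 / P.κ ^ 2

lemma κ_pos : 0 < P.κ := by
  unfold κ
  have := P.he1
  positivity

lemma μ_pos : 0 < P.μ := by
  unfold μ
  have := P.κ_pos
  positivity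

lemma μ_eq : P.μ = (((P.b : ℝ) + 3) ^ (2 * P.b) / P.e1) ^ 2 := by
  unfold μ κ
  rw [div_pow, div_pow, one_div, inv_div]

noncomputable def s (v : Tub P.b) : ℝ := P.e1 * slope v

noncomputable def c (v : Tub P.b) : ℝ := P.e1 * icept v

lemma s_nonneg (v : Tub P.b) : 0 ≤ P.s v := mul_nonneg P.he1.le (slope_nonneg v)

lemma s_le (v : Tub P.b) : P.s v ≤ P.e1 := by
  unfold s
  have := slope_le P.hb v
  have := P.he1
  nlinarith

lemma abs_c_le (v : Tub P.b) : |P.c v| ≤ 6 * P.e1 := by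
  unfold c
  rw [abs_mul, abs_of_pos P.he1]
  have := abs_icept_le P.hb v
  have := P.he1
  nlinarith

/-- The packet of the tube `v`. -/
noncomputable def pk (v : Tub P.b) (w1 w2 w3 : ℂ) : ℂ :=
  psi P.lam P.μ P.μ0 (P.s v) (P.c v) w1 w2 w3

lemma lam_ge : 4 * (P.μ + P.μ0) ≤ P.lam := by
  have h := P.hlam
  rw [← P.μ_eq] at h
  have := P.μ_pos
  have := P.hμ0
  linarith

lemma pos_b : (0 : ℝ) < (P.b : ℝ) ^ (2 * P.b) := by
  have : (1 : ℝ) ≤ P.b := by exact_mod_cast P.hb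
  positivity

/-- `N` terms, each at most `1/N`. -/
lemma sum_le_one (f : Tub P.b → ℝ)
    (hf : ∀ v, f v ≤ Real.exp (-Real.log ((P.b : ℝ) ^ (2 * P.b)))) : ∑ v, f v ≤ 1 := by
  have h1 : Real.exp (-Real.log ((P.b : ℝ) ^ (2 * P.b))) = ((P.b : ℝ) ^ (2 * P.b))⁻¹ := by
    rw [Real.exp_neg, Real.exp_log P.pos_b]
  calc ∑ v, f v ≤ ∑ _v : Tub P.b, ((P.b : ℝ) ^ (2 * P.b))⁻¹ :=
        Finset.sum_le_sum fun v _ => by rw [← h1]; exact hf v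
    _ = 1 := by
        rw [Finset.sum_const, Finset.card_univ, nsmul_eq_mul, card_Tub,
          mul_inv_cancel₀ P.pos_b.ne']

end Par

end Pool.Agent.Helper59.Dbar
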