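import Pool.Agent.Helper59.Dbar.Defs
import Pool.Agent.Helper59.Dbar.Packet

/-!
Geometry of the matrix unit ball: the symmetrised upper left block is a strict contraction.
-/

open Finset Complex Matrix
open scoped ComplexOrder

namespace Pool.Agent.Helper59.Dbar

/-- Square norm of a vector. -/
def ns {n : ℕ} (x : Fin n → ℂ) : ℝ := ∑ i, normSq (x i)

lemma ns_nonneg {n : ℕ} (x : Fin n → ℂ) : 0 ≤ ns x := Finset.sum_nonneg fun _ _ => normSq_nonneg _

lemma ns_pos {n : ℕ} {x : Fin n → ℂ} (h : x ≠ 0) : 0 < ns x := by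
  obtain ⟨i, hi⟩ := Function.ne_iff.1 h
  exact Finset.sum_pos' (fun i _ => normSq_nonneg _) ⟨i, Finset.mem_univ i, normSq_pos.2 hi⟩

lemma star_dot_self {n : ℕ} (x : Fin n → ℂ) : (star x ⬝ᵥ x) = ((ns x : ℝ) : ℂ) := by
  unfold ns dotProduct
  push_cast
  apply Finset.sum_congr rfl
  intro i _
  rw [Pi.star_apply, Complex.star_def, normSq_eq_conj_mul_self]

/-- Membership in the ball in terms of vectors. -/
lemma mem_ball_iff {n : ℕ} (Z : CMat n) :
    Z ∈ matrixBall n ↔ ∀ x : Fin n → ℂ, x ≠ 0 → ns ((Matrix.of Z)ᴴ *ᵥ x) < ns x := by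
  have key : ∀ x : Fin n → ℂ, star x ⬝ᵥ ((1 - Matrix.of Z * (Matrix.of Z)ᴴ) *ᵥ x) =
      ((ns x - ns ((Matrix.of Z)ᴴ *ᵥ x) : ℝ) : ℂ) := by
    intro x
    rw [Matrix.sub_mulVec, Matrix.one_mulVec, dotProduct_sub, star_dot_self]
    push_cast
    congr 1
    rw [← star_dot_self, ← Matrix.mulVec_mulVec, Matrix.dotProduct_mulVec]
    congr 1
    rw [Matrix.star_mulVec, Matrix.conjTranspose_conjTranspose]
  constructor
  · intro h x hx
    have h1 := h.dotProduct_mulVec_pos hx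
    rw [key] at h1
    have h2 : (0 : ℝ) < ns x - ns ((Matrix.of Z)ᴴ *ᵥ x) := by exact_mod_cast h1
    linarith
  · intro h
    show (1 - Matrix.of Z * (Matrix.of Z).conjTranspose).PosDef
    apply Matrix.PosDef.of_dotProduct_mulVec_pos
    · rw [Matrix.IsHermitian, Matrix.conjTranspose_sub, Matrix.conjTranspose_mul,
        Matrix.conjTranspose_conjTranspose, Matrix.conjTranspose_one]
    · intro x hx
      rw [key]
      have := h x hx
      have h2 : (0 : ℝ) < ns x - ns ((Matrix.of Z)ᴴ *ᵥ x) := by linarith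
      exact_mod_cast h2

/-- Cauchy-Schwarz. -/
lemma normSq_dot_le {n : ℕ} (u y : Fin n → ℂ) : normSq (u ⬝ᵥ y) ≤ ns u * ns y := by
  have h1 : ‖u ⬝ᵥ y‖ ≤ ∑ i, ‖u i‖ * ‖y i‖ := by
    unfold dotProduct
    refine (norm_sum_le _ _).trans (le_of_eq ?_)
    apply Finset.sum_congr rfl
    intro i _
    rw [norm_mul]
  have h2 : (∑ i, ‖u i‖ * ‖y i‖) ^ 2 ≤ (∑ i, ‖u i‖ ^ 2) * ∑ i, ‖y i‖ ^ 2 :=
    Finset.sum_mul_sq_le_sq_mul_sq _ _ _
  rw [Complex.normSq_eq_norm_sq]
  unfold ns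
  simp only [Complex.normSq_eq_norm_sq]
  exact (pow_le_pow_left₀ (norm_nonneg _) h1 2).trans h2

lemma ns_star {n : ℕ} (x : Fin n → ℂ) : ns (star x) = ns x := by
  unfold ns
  apply Finset.sum_congr rfl
  intro i _
  rw [Pi.star_apply, Complex.star_def, normSq_conj]

/-- The bilinear form of a matrix in the ball is strictly bounded by one. -/
lemma normSq_bilin_lt {n : ℕ} {Z : CMat n} (hZ : Z ∈ matrixBall n) {x y : Fin n → ℂ}
    (hx : x ≠ 0) (hy : y ≠ 0) : normSq ((x ᵥ* Matrix.of Z) ⬝ᵥ y) < ns x * ns y := by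
  have h1 := (mem_ball_iff Z).1 hZ (star x) (by simpa using hx)
  have h2 : (Matrix.of Z)ᴴ *ᵥ star x = star (x ᵥ* Matrix.of Z) := by
    rw [Matrix.star_vecMul]
  rw [h2, ns_star, ns_star] at h1
  exact lt_of_le_of_lt (normSq_dot_le _ _) (mul_lt_mul_of_pos_right h1 (ns_pos hy))

/-- Vector supported on the first two coordinates. -/
def hat {m : ℕ} (x1 x2 : ℂ) : Fin (m + 2) → ℂ := Fin.cons x1 (Fin.cons x2 (fun _ => 0))

lemma ns_hat {m : ℕ} (x1 x2 : ℂ) : ns (hat (m := m) x1 x2) = normSq x1 + normSq x2 := by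
  unfold ns hat
  rw [Fin.sum_univ_succ, Fin.sum_univ_succ]
  simp

lemma hat_ne {m : ℕ} {x1 x2 : ℂ} (h : ¬ (x1 = 0 ∧ x2 = 0)) : hat (m := m) x1 x2 ≠ 0 := by
  intro h0
  apply h
  have h1 := congrFun h0 0
  have h2 := congrFun h0 1
  refine ⟨by simpa [hat] using h1, ?_⟩
  have e : (1 : Fin (m + 2)) = Fin.succ 0 := rfl
  rw [e] at h2
  simpa [hat] using h2

/-- Coordinates of the symmetrised upper left block. -/
noncomputable def ca {m : ℕ} (Z : CMat (m + 2)) : ℂ := Z 0 0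
noncomputable def cd {m : ℕ} (Z : CMat (m + 2)) : ℂ := Z 1 1
noncomputable def cc {m : ℕ} (Z : CMat (m + 2)) : ℂ := (Z 0 1 + Z 1 0) / 2

lemma bilin_hat {m : ℕ} (Z : CMat (m + 2)) (x1 x2 y1 y2 : ℂ) :
    (hat x1 x2 ᵥ* Matrix.of Z) ⬝ᵥ hat y1 y2 =
      x1 * Z 0 0 * y1 + x1 * Z 0 1 * y2 + x2 * Z 1 0 * y1 + x2 * Z 1 1 * y2 := by
  have e1 : (1 : Fin (m + 2)) = Fin.succ 0 := rfl
  unfold dotProduct
  rw [Fin.sum_univ_succ, Fin.sum_univ_succ]
  simp only [hat, Fin.cons_zero, Fin.cons_succ, mul_zero, Finset.sum_const_zero, add_zero]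
  unfold Matrix.vecMul dotProduct
  rw [Fin.sum_univ_succ, Fin.sum_univ_succ, Fin.sum_univ_succ, Fin.sum_univ_succ]
  simp only [Fin.cons_zero, Fin.cons_succ, zero_mul, Finset.sum_const_zero, add_zero,
    Matrix.of_apply, e1]
  ring

/-- Strict contraction property of the symmetric matrix `[[a,c],[c,d]]`. -/
def Contr (a c d : ℂ) : Prop := ∀ y1 y2 : ℂ, ¬ (y1 = 0 ∧ y2 = 0) →
  normSq (a * y1 + c * y2) + normSq (c * y1 + d * y2) < normSq y1 + normSq y2

lemma contr_of_mem {m : ℕ} {Z : CMat (m + 2)} (hZ : Z ∈ matrixBall (m + 2)) :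
    Contr (ca Z) (cc Z) (cd Z) := by
  intro y1 y2 hy
  set u := ca Z * y1 + cc Z * y2 with hu
  set v := cc Z * y1 + cd Z * y2 with hv
  have hq : 0 ≤ normSq u + normSq v := add_nonneg (normSq_nonneg _) (normSq_nonneg _)
  have hypos : 0 < normSq y1 + normSq y2 := by
    have := ns_pos (hat_ne (m := m) hy)
    rwa [ns_hat] at this
  rcases hq.eq_or_lt with h0 | h0
  · rw [← h0]; exact hypos
  · have hx : ¬ (starRingEnd ℂ u = 0 ∧ starRingEnd ℂ v = 0) := by
      rintro ⟨h1, h2⟩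
      rw [map_eq_zero] at h1 h2
      rw [h1, h2] at h0
      simp at h0
    have hA := normSq_bilin_lt hZ (hat_ne (m := m) hx) (hat_ne (m := m) hy)
    have hB := normSq_bilin_lt hZ (hat_ne (m := m) hy) (hat_ne (m := m) hx)
    rw [bilin_hat, ns_hat, ns_hat, normSq_conj, normSq_conj] at hA
    rw [bilin_hat, ns_hat, ns_hat, normSq_conj, normSq_conj] at hB
    set A := starRingEnd ℂ u * Z 0 0 * y1 + starRingEnd ℂ u * Z 0 1 * y2 +
      starRingEnd ℂ v * Z 1 0 * y1 + starRingEnd ℂ v * Z 1 1 * y2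
    set B := y1 * Z 0 0 * starRingEnd ℂ u + y1 * Z 0 1 * starRingEnd ℂ v +
      y2 * Z 1 0 * starRingEnd ℂ u + y2 * Z 1 1 * starRingEnd ℂ v
    have hAB : A + B = 2 * ((normSq u + normSq v : ℝ) : ℂ) := by
      push_cast
      rw [Complex.normSq_eq_conj_mul_self, Complex.normSq_eq_conj_mul_self]
      have e1 : starRingEnd ℂ u * u + starRingEnd ℂ v * v =
        starRingEnd ℂ u * (ca Z * y1 + cc Z * y2) + starRingEnd ℂ v * (cc Z * y1 + cd Z * y2) := rfl
      rw [e1]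
      unfold ca cc cd
      simp only [A, B]
      ring
    have h1 : normSq (A + B) ≤ 2 * (normSq A + normSq B) := by
      simp only [Complex.normSq_apply, Complex.add_re, Complex.add_im]
      nlinarith [sq_nonneg (A.re - B.re), sq_nonneg (A.im - B.im)]
    rw [hAB, normSq_mul, normSq_ofReal] at h1
    have h2 : normSq (2 : ℂ) = 4 := by
      rw [Complex.normSq_apply]; norm_num
    rw [h2] at h1
    have h3 : (normSq u + normSq v) * (normSq u + normSq v) <
        (normSq u + normSq v) * (normSq y1 + normSq y2) := by linarith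
    exact lt_of_mul_lt_mul_left h3 hq

end Pool.Agent.Helper59.Dbar
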