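import Pool.Agent.Helper59.Dbar.Ball

/-!
The Cayley transform between the symmetric contractions and the Siegel upper half space.
-/

open Finset Complex Matrix
open scoped ComplexOrder

namespace Pool.Agent.Helper59.Dbar

/-- Strict positivity of the imaginary part. -/
def SPosW (w1 w2 w3 : ℂ) : Prop :=
  ∀ p q : ℝ, ¬ (p = 0 ∧ q = 0) → 0 < p ^ 2 * w1.im + 2 * p * q * w3.im + q ^ 2 * w2.im

lemma SPosW.posW {w1 w2 w3 : ℂ} (h : SPosW w1 w2 w3) : PosW w1 w2 w3 := by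
  intro p q
  by_cases hpq : p = 0 ∧ q = 0
  · rw [hpq.1, hpq.2]; simp
  · exact (h p q hpq).le

/-- The determinant of `1 + S`. -/
def Dt (a c d : ℂ) : ℂ := (1 + a) * (1 + d) - c ^ 2

lemma Contr.Dt_ne {a c d : ℂ} (h : Contr a c d) : Dt a c d ≠ 0 := by
  intro h0
  unfold Dt at h0
  by_cases hy : c = 0 ∧ 1 + a = 0
  · have h1 := h 1 0 (by simp)
    have ha : a = -1 := by linear_combination hy.2
    rw [hy.1, ha] at h1
    simp at h1
  · have h1 := h (-c) (1 + a) (by rintro ⟨h2, h3⟩; exact hy ⟨neg_eq_zero.1 h2, h3⟩)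
    have e1 : a * -c + c * (1 + a) = c := by ring
    have e2 : c * -c + d * (1 + a) = -(1 + a) := by linear_combination h0
    rw [e1, e2, normSq_neg, normSq_neg] at h1
    exact lt_irrefl _ h1

noncomputable def cw1 (a c d : ℂ) : ℂ := I * (2 * (1 + d) / Dt a c d - 1)
noncomputable def cw2 (a c d : ℂ) : ℂ := I * (2 * (1 + a) / Dt a c d - 1)
noncomputable def cw3 (a c d : ℂ) : ℂ := -2 * I * c / Dt a c d

lemma Contr.sPosW {a c d : ℂ} (h : Contr a c d) :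
    SPosW (cw1 a c d) (cw2 a c d) (cw3 a c d) := by
  intro p q hpq
  have hD := h.Dt_ne
  set x1 : ℂ := ((1 + d) * p - c * q) / Dt a c d with hx1
  set x2 : ℂ := ((1 + a) * q - c * p) / Dt a c d with hx2
  have e1 : (1 + a) * x1 + c * x2 = p := by
    rw [hx1, hx2]; field_simp; unfold Dt; ring
  have e2 : c * x1 + (1 + d) * x2 = q := by
    rw [hx1, hx2]; field_simp; unfold Dt; ring
  have hx : ¬ (x1 = 0 ∧ x2 = 0) := by
    rintro ⟨h1, h2⟩
    rw [h1, h2] at e1 e2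
    apply hpq
    constructor
    · have : (p : ℂ) = 0 := by rw [← e1]; ring
      exact_mod_cast this
    · have : (q : ℂ) = 0 := by rw [← e2]; ring
      exact_mod_cast this
  have h1 := h x1 x2 hx
  have e3 : a * x1 + c * x2 = p - x1 := by linear_combination e1
  have e4 : c * x1 + d * x2 = q - x2 := by linear_combination e2
  rw [e3, e4] at h1
  have e5 : (p : ℂ) ^ 2 * cw1 a c d + 2 * p * q * cw3 a c d + q ^ 2 * cw2 a c d =
      I * (2 * (p * x1 + q * x2) - (p ^ 2 + q ^ 2)) := by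
    unfold cw1 cw2 cw3
    rw [hx1, hx2]
    field_simp
    ring
  have e6 : ((p : ℂ) ^ 2 * cw1 a c d + 2 * p * q * cw3 a c d + q ^ 2 * cw2 a c d).im =
      p ^ 2 * (cw1 a c d).im + 2 * p * q * (cw3 a c d).im + q ^ 2 * (cw2 a c d).im := by
    have f1 : (p : ℂ) ^ 2 = ((p ^ 2 : ℝ) : ℂ) := by push_cast; ring
    have f2 : 2 * (p : ℂ) * q = ((2 * p * q : ℝ) : ℂ) := by push_cast; ring
    have f3 : (q : ℂ) ^ 2 = ((q ^ 2 : ℝ) : ℂ) := by push_cast; ring
    rw [f1, f2, f3]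
    simp only [Complex.add_im, Complex.im_ofReal_mul]
  have e7 : (I * (2 * (p * x1 + q * x2) - (p ^ 2 + q ^ 2))).im =
      2 * (p * x1.re + q * x2.re) - (p ^ 2 + q ^ 2) := by
    have f1 : (2 * ((p : ℂ) * x1 + q * x2) - (p ^ 2 + q ^ 2)) =
      ((2 : ℝ) : ℂ) * (p * x1 + q * x2) - ((p ^ 2 + q ^ 2 : ℝ) : ℂ) := by push_cast; ring
    rw [f1]
    simp only [Complex.I_mul_im, Complex.sub_re, Complex.re_ofReal_mul, Complex.add_re,
      Complex.ofReal_re]
  rw [← e6, e5, e7]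
  simp only [Complex.normSq_apply, Complex.sub_re, Complex.sub_im, Complex.ofReal_re,
    Complex.ofReal_im] at h1
  nlinarith

/-- The determinant of `1 - iW`. -/
def Dp (w1 w2 w3 : ℂ) : ℂ := (1 - I * w1) * (1 - I * w2) + w3 ^ 2

noncomputable def ia (w1 w2 w3 : ℂ) : ℂ := 2 * (1 - I * w2) / Dp w1 w2 w3 - 1
noncomputable def id' (w1 w2 w3 : ℂ) : ℂ := 2 * (1 - I * w1) / Dp w1 w2 w3 - 1
noncomputable def ic (w1 w2 w3 : ℂ) : ℂ := 2 * I * w3 / Dp w1 w2 w3

/-- The real part of `x* (1 - iW) x`. -/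
lemma form_re (w1 w2 w3 x1 x2 : ℂ) :
    (starRingEnd ℂ x1 * ((1 - I * w1) * x1 - I * w3 * x2) +
      starRingEnd ℂ x2 * (-I * w3 * x1 + (1 - I * w2) * x2)).re =
    normSq x1 + normSq x2 +
      (x1.re ^ 2 * w1.im + 2 * x1.re * x2.re * w3.im + x2.re ^ 2 * w2.im) +
      (x1.im ^ 2 * w1.im + 2 * x1.im * x2.im * w3.im + x2.im ^ 2 * w2.im) := by
  simp only [Complex.normSq_apply, Complex.add_re, Complex.mul_re, Complex.conj_re,
    Complex.conj_im, Complex.sub_re, Complex.sub_im, Complex.mul_im, Complex.I_re, Complex.I_im,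
    Complex.one_re, Complex.one_im, Complex.neg_re, Complex.neg_im, Complex.add_im]
  ring

lemma SPosW.form_pos {w1 w2 w3 : ℂ} (h : SPosW w1 w2 w3) {x1 x2 : ℂ} (hx : ¬ (x1 = 0 ∧ x2 = 0)) :
    0 < (x1.re ^ 2 * w1.im + 2 * x1.re * x2.re * w3.im + x2.re ^ 2 * w2.im) +
      (x1.im ^ 2 * w1.im + 2 * x1.im * x2.im * w3.im + x2.im ^ 2 * w2.im) := by
  by_cases h1 : x1.re = 0 ∧ x2.re = 0
  · have h2 : ¬ (x1.im = 0 ∧ x2.im = 0) := by
      rintro ⟨h3, h4⟩
      exact hx ⟨Complex.ext h1.1 h3, Complex.ext h1.2 h4⟩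
    have h3 := h x1.im x2.im h2
    have h4 := h.posW x1.re x2.re
    linarith
  · have h3 := h x1.re x2.re h1
    have h4 := h.posW x1.im x2.im
    linarith

lemma SPosW.Dp_ne {w1 w2 w3 : ℂ} (h : SPosW w1 w2 w3) : Dp w1 w2 w3 ≠ 0 := by
  intro h0
  unfold Dp at h0
  have hw1 : 0 < w1.im := by
    have := h 1 0 (by simp)
    simpa using this
  have hx : ¬ (I * w3 = 0 ∧ 1 - I * w1 = 0) := by
    rintro ⟨_, h2⟩
    have h3 := congrArg Complex.re h2
    simp at h3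
    linarith
  have h1 := form_re w1 w2 w3 (I * w3) (1 - I * w1)
  have h2 := h.form_pos hx
  have e1 : (1 - I * w1) * (I * w3) - I * w3 * (1 - I * w1) = 0 := by ring
  have e2 : -I * w3 * (I * w3) + (1 - I * w2) * (1 - I * w1) = 0 := by
    have : -I * w3 * (I * w3) = -(I * I) * w3 ^ 2 := by ring
    rw [this, Complex.I_mul_I]
    linear_combination h0
  rw [e1, e2, mul_zero, mul_zero, add_zero, Complex.zero_re] at h1
  have h3 := normSq_nonneg (I * w3)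
  have h4 := normSq_nonneg (1 - I * w1)
  linarith

lemma SPosW.contr {w1 w2 w3 : ℂ} (h : SPosW w1 w2 w3) :
    Contr (ia w1 w2 w3) (ic w1 w2 w3) (id' w1 w2 w3) := by
  intro y1 y2 hy
  have hD := h.Dp_ne
  set x1 : ℂ := ((1 - I * w2) * y1 + I * w3 * y2) / Dp w1 w2 w3 with hx1
  set x2 : ℂ := (I * w3 * y1 + (1 - I * w1) * y2) / Dp w1 w2 w3 with hx2
  have e1 : (1 - I * w1) * x1 - I * w3 * x2 = y1 := by
    rw [hx1, hx2]; field_simp; unfold Dp
    linear_combination (-(w3 ^ 2 * y1)) * Complex.I_sq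
  have e2 : -I * w3 * x1 + (1 - I * w2) * x2 = y2 := by
    rw [hx1, hx2]; field_simp; unfold Dp
    linear_combination (-(w3 ^ 2 * y2)) * Complex.I_sq
  have hx : ¬ (x1 = 0 ∧ x2 = 0) := by
    rintro ⟨h1, h2⟩
    rw [h1, h2] at e1 e2
    apply hy
    constructor
    · rw [← e1]; ring
    · rw [← e2]; ring
  have e3 : ia w1 w2 w3 * y1 + ic w1 w2 w3 * y2 = 2 * x1 - y1 := by
    unfold ia ic; rw [hx1]; ring
  have e4 : ic w1 w2 w3 * y1 + id' w1 w2 w3 * y2 = 2 * x2 - y2 := by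
    unfold id' ic; rw [hx2]; ring
  rw [e3, e4]
  have h1 := form_re w1 w2 w3 x1 x2
  have h2 := h.form_pos hx
  rw [e1, e2] at h1
  have h3 : (starRingEnd ℂ x1 * y1 + starRingEnd ℂ x2 * y2).re =
    x1.re * y1.re + x1.im * y1.im + (x2.re * y2.re + x2.im * y2.im) := by
    simp only [Complex.add_re, Complex.mul_re, Complex.conj_re, Complex.conj_im]
    ring
  rw [h3] at h1
  have f1 : ((2 : ℂ) * x1 - y1).re = 2 * x1.re - y1.re := by simp
  have f2 : ((2 : ℂ) * x1 - y1).im = 2 * x1.im - y1.im := by simp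
  have f3 : ((2 : ℂ) * x2 - y2).re = 2 * x2.re - y2.re := by simp
  have f4 : ((2 : ℂ) * x2 - y2).im = 2 * x2.im - y2.im := by simp
  simp only [Complex.normSq_apply, f1, f2, f3, f4] at h1 ⊢
  nlinarith

/-- `W ∘ S = id` on the Siegel upper half space. -/
lemma Dt_inv {w1 w2 w3 : ℂ} (h : Dp w1 w2 w3 ≠ 0) :
    Dt (ia w1 w2 w3) (ic w1 w2 w3) (id' w1 w2 w3) = 4 / Dp w1 w2 w3 := by
  unfold Dt ia ic id'
  field_simp
  unfold Dp
  linear_combination (-4 * w3 ^ 2) * Complex.I_sq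

lemma cw1_inv {w1 w2 w3 : ℂ} (h : Dp w1 w2 w3 ≠ 0) :
    cw1 (ia w1 w2 w3) (ic w1 w2 w3) (id' w1 w2 w3) = w1 := by
  unfold cw1
  rw [Dt_inv h]
  unfold id'
  field_simp
  linear_combination (-4 * w1) * Complex.I_sq

lemma cw2_inv {w1 w2 w3 : ℂ} (h : Dp w1 w2 w3 ≠ 0) :
    cw2 (ia w1 w2 w3) (ic w1 w2 w3) (id' w1 w2 w3) = w2 := by
  unfold cw2
  rw [Dt_inv h]
  unfold ia
  field_simp
  linear_combination (-4 * w2) * Complex.I_sq

lemma cw3_inv {w1 w2 w3 : ℂ} (h : Dp w1 w2 w3 ≠ 0) :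
    cw3 (ia w1 w2 w3) (ic w1 w2 w3) (id' w1 w2 w3) = w3 := by
  unfold cw3
  rw [Dt_inv h]
  unfold ic
  field_simp
  linear_combination (-4 * w3) * Complex.I_sq

end Pool.Agent.Helper59.Dbar
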