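import Pool.Agent.Helper59.Dbar.Tubes

/-!
Counting: at the focusing times most tubes are met by many others.
-/

open Finset

namespace Pool.Agent.Helper59.Dbar

/-- Number of tubes that are close to the tube `v` at time `t`. -/
noncomputable def mult {b : ℕ} (v : Tub b) (t : ℝ) : ℕ :=
  (univ.filter fun v' : Tub b => |pos v' t - pos v t| ≤ 1 / ((b : ℝ) + 3) ^ (2 * b)).card

/-- Spread of the tubes with a common prefix. -/
lemma spread {b : ℕ} (hb : 1 ≤ b) {t : ℝ} {j0 : ℕ} (hj0 : j0 < 2 * b)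
    (ht : |t - node b j0| ≤ 1 / b) (ht8 : ∀ i, i < 2 * b → |t - node b i| ≤ 8) {v v' : Tub b}
    (h : ∀ i : Fin (2 * b), (i : ℕ) < j0 → v i = v' i) :
    |pos v t - pos v' t| ≤ 9 / ((b : ℝ) + 3) ^ (j0 + 1) := by
  have hb' : (1 : ℝ) ≤ b := by exact_mod_cast hb
  have hb0 : (0 : ℝ) < b := by linarith
  have hdd0 : ∀ i, i < j0 → dd v v' i = 0 := by
    intro i hi
    unfold dd
    have hi2 : i < 2 * b := by omega
    rw [dif_pos hi2, h ⟨i, hi2⟩ hi, sub_self]
  rw [pos_eq, pos_eq]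
  have e := sum_dd v v' (fun i => t - node b i)
  rw [← e]
  have hsplit : ∑ i ∈ range (2 * b), dd v v' i * (t - node b i) / ((b : ℝ) + 3) ^ (i + 1) =
      dd v v' j0 * (t - node b j0) / ((b : ℝ) + 3) ^ (j0 + 1) +
        ∑ i ∈ Ico (j0 + 1) (2 * b), dd v v' i * (t - node b i) / ((b : ℝ) + 3) ^ (i + 1) := by
    rw [Finset.range_eq_Ico, ← Finset.sum_Ico_consecutive _ (Nat.zero_le j0) (by omega : j0 ≤ 2 * b)]
    have h0 : ∑ i ∈ Ico 0 j0, dd v v' i * (t - node b i) / ((b : ℝ) + 3) ^ (i + 1) = 0 := by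
      apply Finset.sum_eq_zero
      intro i hi
      rw [Finset.mem_Ico] at hi
      rw [hdd0 i hi.2]
      simp
    rw [h0, zero_add, Finset.sum_eq_sum_Ico_succ_bot hj0]
  rw [hsplit]
  have h1 : |dd v v' j0 * (t - node b j0) / ((b : ℝ) + 3) ^ (j0 + 1)| ≤
      1 / ((b : ℝ) + 3) ^ (j0 + 1) := by
    rw [abs_div, abs_mul, abs_of_pos (by positivity : (0 : ℝ) < ((b : ℝ) + 3) ^ (j0 + 1))]
    apply div_le_div_of_nonneg_right _ (by positivity)
    calc |dd v v' j0| * |t - node b j0| ≤ ((b : ℝ) - 1) * (1 / b) :=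
          mul_le_mul (abs_dd_le hb v v' j0) ht (abs_nonneg _) (by linarith)
      _ ≤ 1 := by
          rw [mul_one_div, div_le_one hb0]; linarith
  have h2 : |∑ i ∈ Ico (j0 + 1) (2 * b), dd v v' i * (t - node b i) / ((b : ℝ) + 3) ^ (i + 1)| ≤
      8 / ((b : ℝ) + 3) ^ (j0 + 1) := by
    calc |∑ i ∈ Ico (j0 + 1) (2 * b), dd v v' i * (t - node b i) / ((b : ℝ) + 3) ^ (i + 1)|
        ≤ ∑ i ∈ Ico (j0 + 1) (2 * b), |dd v v' i * (t - node b i) / ((b : ℝ) + 3) ^ (i + 1)| :=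
          Finset.abs_sum_le_sum_abs _ _
      _ ≤ ∑ i ∈ Ico (j0 + 1) (2 * b), 8 * (((b : ℝ) - 1) / ((b : ℝ) + 3) ^ (i + 1)) := by
          apply Finset.sum_le_sum
          intro i hi
          rw [Finset.mem_Ico] at hi
          rw [abs_div, abs_mul, abs_of_pos (by positivity : (0 : ℝ) < ((b : ℝ) + 3) ^ (i + 1)),
            ← mul_div_assoc]
          apply div_le_div_of_nonneg_right _ (by positivity)
          rw [mul_comm]
          exact mul_le_mul (ht8 i hi.2) (abs_dd_le hb v v' i) (abs_nonneg _) (by norm_num)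
      _ = 8 * ∑ i ∈ Ico (j0 + 1) (2 * b), (((b : ℝ) - 1) / ((b : ℝ) + 3) ^ (i + 1)) := by
          rw [← Finset.mul_sum]
      _ ≤ 8 * (1 / ((b : ℝ) + 3) ^ (j0 + 1)) := by
          apply mul_le_mul_of_nonneg_left (geom_tail hb' (2 * b) (j0 + 1) (by omega)) (by norm_num)
      _ = 8 / ((b : ℝ) + 3) ^ (j0 + 1) := by ring
  calc _ ≤ |dd v v' j0 * (t - node b j0) / ((b : ℝ) + 3) ^ (j0 + 1)| +
        |∑ i ∈ Ico (j0 + 1) (2 * b), dd v v' i * (t - node b i) / ((b : ℝ) + 3) ^ (i + 1)| :=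
        abs_add_le _ _
    _ ≤ 1 / ((b : ℝ) + 3) ^ (j0 + 1) + 8 / ((b : ℝ) + 3) ^ (j0 + 1) := add_le_add h1 h2
    _ = 9 / ((b : ℝ) + 3) ^ (j0 + 1) := by ring

/-- Points of a finite set of reals in a short interval take few floor values. -/
lemma card_floor_le {α : Type*} (F : Finset α) (g : α → ℝ) (Λ : ℝ) (hΛ : 0 ≤ Λ)
    (hF : ∀ v ∈ F, ∀ v' ∈ F, |g v - g v'| ≤ Λ) :
    ((F.image fun v => ⌊g v⌋).card : ℝ) ≤ 2 * Λ + 2 := by
  classical
  rcases F.eq_empty_or_nonempty with rfl | ⟨v0, hv0⟩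
  · simp; linarith
  · have hsub : (F.image fun v => ⌊g v⌋) ⊆ Finset.Icc ⌊g v0 - Λ⌋ ⌊g v0 + Λ⌋ := by
      intro m hm
      rw [Finset.mem_image] at hm
      obtain ⟨v, hv, rfl⟩ := hm
      have h := abs_le.1 (hF v hv v0 hv0)
      rw [Finset.mem_Icc]
      constructor
      · apply Int.floor_le_floor; linarith [h.1]
      · apply Int.floor_le_floor; linarith [h.2]
    have h1 := Finset.card_le_card hsub
    rw [Int.card_Icc] at h1
    have h2 : ⌊g v0 - Λ⌋ ≤ ⌊g v0 + Λ⌋ := Int.floor_le_floor (by linarith)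
    have h3 : ((⌊g v0 + Λ⌋ + 1 - ⌊g v0 - Λ⌋).toNat : ℤ) = ⌊g v0 + Λ⌋ + 1 - ⌊g v0 - Λ⌋ :=
      Int.toNat_of_nonneg (by omega)
    have h4 : ((F.image fun v => ⌊g v⌋).card : ℝ) ≤ (⌊g v0 + Λ⌋ : ℝ) + 1 - ⌊g v0 - Λ⌋ := by
      have h5 : ((F.image fun v => ⌊g v⌋).card : ℝ) ≤ (((⌊g v0 + Λ⌋ + 1 - ⌊g v0 - Λ⌋).toNat : ℤ) : ℝ) := by
        exact_mod_cast h1
      rw [h3] at h5
      push_cast at h5
      exact h5
    have h5 := Int.floor_le (g v0 + Λ)
    have h6 := Int.lt_floor_add_one (g v0 - Λ)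
    linarith

/-- Truncation of the digits at `j0`. -/
def truncT {b : ℕ} (hb : 0 < b) (j0 : ℕ) (v : Tub b) : Tub b :=
  fun i => if (i : ℕ) < j0 then v i else ⟨0, hb⟩

lemma card_image_truncT {b : ℕ} (hb : 0 < b) {j0 : ℕ} (hj0 : j0 ≤ 2 * b) (P : Finset (Tub b)) :
    (P.image (truncT hb j0)).card ≤ b ^ j0 := by
  classical
  have hsub : P.image (truncT hb j0) ⊆
      Fintype.piFinset (fun i : Fin (2 * b) => if (i : ℕ) < j0 then (univ : Finset (Fin b)) else {⟨0, hb⟩}) := by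
    intro w hw
    rw [Finset.mem_image] at hw
    obtain ⟨v, _, rfl⟩ := hw
    rw [Fintype.mem_piFinset]
    intro i
    unfold truncT
    by_cases hi : (i : ℕ) < j0
    · simp [hi]
    · simp [hi]
  refine (Finset.card_le_card hsub).trans ?_
  rw [Fintype.card_piFinset]
  have h1 : ∀ i : Fin (2 * b), (if (i : ℕ) < j0 then (univ : Finset (Fin b)) else {⟨0, hb⟩}).card =
      if (i : ℕ) < j0 then b else 1 := by
    intro i
    by_cases hi : (i : ℕ) < j0
    · simp [hi]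
    · simp [hi]
  rw [Finset.prod_congr rfl (fun i _ => h1 i)]
  rw [← Finset.prod_range (n := 2 * b) (f := fun i => if i < j0 then b else 1)]
  rw [Finset.prod_ite]
  simp only [Finset.prod_const_one, mul_one, Finset.prod_const]
  apply le_of_eq
  congr 1
  have : (range (2 * b)).filter (fun i => i < j0) = range j0 := by
    ext i; simp only [Finset.mem_filter, Finset.mem_range]; omega
  rw [this, Finset.card_range]

lemma bad_card {b : ℕ} (hb : 1 ≤ b) {t : ℝ} (ht : ∃ j0, j0 < 2 * b ∧ |t - node b j0| ≤ 1 / b)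
    (ht8 : ∀ i, i < 2 * b → |t - node b i| ≤ 8) (M : ℕ) :
    (((univ : Finset (Tub b)).filter fun v => mult v t < M).card : ℝ) ≤
      M * (18 * Real.exp 6 + 2) * (b : ℝ) ^ (2 * b - 1) := by
  classical
  obtain ⟨j0, hj0, htj0⟩ := ht
  have hb' : (1 : ℝ) ≤ b := by exact_mod_cast hb
  have hb0 : (0 : ℝ) < b := by linarith
  have hbpos : 0 < b := by omega
  set B : ℝ := (b : ℝ) + 3 with hB
  have hBpos : 0 < B := by positivity
  set P := (univ : Finset (Tub b)).filter fun v => mult v t < M with hP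
  set Λ : ℝ := 9 * B ^ (2 * b - j0 - 1) with hΛ
  have hΛ0 : 0 ≤ Λ := by positivity
  -- fibres of the truncation
  have hfib : ∀ w ∈ P.image (truncT hbpos j0),
      (P.filter fun v => truncT hbpos j0 v = w).card ≤ M * ⌊2 * Λ + 2⌋₊ := by
    intro w _
    set F := P.filter fun v => truncT hbpos j0 v = w with hF
    have hFd : ∀ v ∈ F, ∀ v' ∈ F, |pos v t * B ^ (2 * b) - pos v' t * B ^ (2 * b)| ≤ Λ := by
      intro v hv v' hv'
      rw [hF, Finset.mem_filter] at hv hv'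
      have h1 : ∀ i : Fin (2 * b), (i : ℕ) < j0 → v i = v' i := by
        intro i hi
        have h2 := congrFun (hv.2.trans hv'.2.symm) i
        simpa [truncT, hi] using h2
      have h2 := spread hb hj0 htj0 ht8 h1
      rw [← sub_mul, abs_mul, abs_of_pos (by positivity : (0 : ℝ) < B ^ (2 * b))]
      have h3 : B ^ (2 * b) = B ^ (2 * b - j0 - 1) * B ^ (j0 + 1) := by
        rw [← pow_add]; congr 1; omega
      calc |pos v t - pos v' t| * B ^ (2 * b) ≤ (9 / B ^ (j0 + 1)) * B ^ (2 * b) :=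
            mul_le_mul_of_nonneg_right h2 (by positivity)
        _ = Λ := by rw [h3, hΛ]; field_simp
    have hcard := card_floor_le F (fun v => pos v t * B ^ (2 * b)) Λ hΛ0 hFd
    have hcard' : (F.image fun v => ⌊pos v t * B ^ (2 * b)⌋).card ≤ ⌊2 * Λ + 2⌋₊ :=
      Nat.le_floor hcard
    have hmul : F.card ≤ M * (F.image fun v => ⌊pos v t * B ^ (2 * b)⌋).card := by
      apply Finset.card_le_mul_card_image
      intro m _
      rcases (F.filter fun v => ⌊pos v t * B ^ (2 * b)⌋ = m).eq_empty_or_nonempty with h0 | ⟨v0, hv0⟩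
      · rw [h0]; simp
      · rw [Finset.mem_filter] at hv0
        have hv0F := hv0.1
        rw [hF, Finset.mem_filter, hP, Finset.mem_filter] at hv0F
        have hmult := hv0F.1.2
        refine le_trans ?_ hmult.le
        unfold mult
        apply Finset.card_le_card
        intro v hv
        rw [Finset.mem_filter] at hv
        rw [Finset.mem_filter]
        refine ⟨Finset.mem_univ _, ?_⟩
        have h4 : |pos v t * B ^ (2 * b) - pos v0 t * B ^ (2 * b)| < 1 :=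
          Int.abs_sub_lt_one_of_floor_eq_floor (hv.2.trans hv0.2.symm)
        rw [← sub_mul, abs_mul, abs_of_pos (by positivity : (0 : ℝ) < B ^ (2 * b))] at h4
        rw [le_div_iff₀ (by positivity)]
        exact h4.le
    exact hmul.trans (Nat.mul_le_mul_left _ hcard')
  have htot : P.card ≤ (M * ⌊2 * Λ + 2⌋₊) * (P.image (truncT hbpos j0)).card :=
    Finset.card_le_mul_card_image P _ hfib
  have him := card_image_truncT hbpos hj0.le P
  have h5 : (P.card : ℝ) ≤ (M * (2 * Λ + 2)) * (b : ℝ) ^ j0 := by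
    have h6 : (P.card : ℝ) ≤ ((M * ⌊2 * Λ + 2⌋₊ : ℕ) : ℝ) * ((P.image (truncT hbpos j0)).card : ℝ) := by
      exact_mod_cast htot
    refine h6.trans ?_
    apply mul_le_mul
    · push_cast
      apply mul_le_mul_of_nonneg_left (Nat.floor_le (by positivity)) (Nat.cast_nonneg _)
    · exact_mod_cast him
    · positivity
    · positivity
  refine h5.trans ?_
  have h7 : B ^ (2 * b - j0 - 1) ≤ Real.exp 6 * (b : ℝ) ^ (2 * b - j0 - 1) := by
    have h8 : B = b * (1 + 3 / b) := by rw [hB]; field_simp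
    rw [h8, mul_pow, mul_comm]
    apply mul_le_mul_of_nonneg_right _ (by positivity)
    have h9 : 1 + 3 / (b : ℝ) ≤ Real.exp (3 / b) := by
      have := Real.add_one_le_exp (3 / (b : ℝ)); linarith
    calc (1 + 3 / (b : ℝ)) ^ (2 * b - j0 - 1) ≤ (Real.exp (3 / b)) ^ (2 * b - j0 - 1) :=
          pow_le_pow_left₀ (by positivity) h9 _
      _ = Real.exp ((2 * b - j0 - 1 : ℕ) * (3 / b)) := by rw [← Real.exp_nat_mul]
      _ ≤ Real.exp 6 := by
          apply Real.exp_le_exp.2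
          have h10 : ((2 * b - j0 - 1 : ℕ) : ℝ) ≤ 2 * b := by
            have : 2 * b - j0 - 1 ≤ 2 * b := by omega
            exact_mod_cast this
          calc ((2 * b - j0 - 1 : ℕ) : ℝ) * (3 / b) ≤ (2 * b) * (3 / b) :=
                mul_le_mul_of_nonneg_right h10 (by positivity)
            _ = 6 := by field_simp; norm_num
  have h11 : (b : ℝ) ^ (2 * b - j0 - 1) * (b : ℝ) ^ j0 = (b : ℝ) ^ (2 * b - 1) := by
    rw [← pow_add]; congr 1; omega
  have h12 : (b : ℝ) ^ j0 ≤ (b : ℝ) ^ (2 * b - 1) := pow_le_pow_right₀ hb' (by omega)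
  have hM0 : (0 : ℝ) ≤ M := Nat.cast_nonneg M
  calc (M * (2 * Λ + 2)) * (b : ℝ) ^ j0
      = M * (18 * (B ^ (2 * b - j0 - 1) * (b : ℝ) ^ j0) + 2 * (b : ℝ) ^ j0) := by rw [hΛ]; ring
    _ ≤ M * (18 * (Real.exp 6 * (b : ℝ) ^ (2 * b - 1)) + 2 * (b : ℝ) ^ (2 * b - 1)) := by
        apply mul_le_mul_of_nonneg_left _ hM0
        have h13 : B ^ (2 * b - j0 - 1) * (b : ℝ) ^ j0 ≤ Real.exp 6 * (b : ℝ) ^ (2 * b - 1) := by
          rw [← h11, ← mul_assoc]
          exact mul_le_mul_of_nonneg_right h7 (by positivity)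
        linarith
    _ = M * (18 * Real.exp 6 + 2) * (b : ℝ) ^ (2 * b - 1) := by ring

/-- The times at which the tubes are compressed. -/
def FocusTime (t : ℝ) : Prop := (-6 ≤ t ∧ t ≤ -5) ∨ (1 ≤ t ∧ t ≤ 2)

lemma exists_near {b : ℕ} (hb : 1 ≤ b) {r : ℝ} (h0 : 0 ≤ r) (h1 : r ≤ 1) :
    ∃ j, j < b ∧ |r - (j : ℝ) / b| ≤ 1 / b := by
  have hb' : (1 : ℝ) ≤ b := by exact_mod_cast hb
  have hb0 : (0 : ℝ) < b := by linarith
  have hfl := Nat.floor_le (by positivity : 0 ≤ r * b)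
  have hfl2 := Nat.lt_floor_add_one (r * b)
  by_cases h : ⌊r * b⌋₊ < b
  · refine ⟨⌊r * b⌋₊, h, ?_⟩
    have e : r - (⌊r * b⌋₊ : ℝ) / b = (r * b - ⌊r * b⌋₊) / b := by field_simp
    rw [e, abs_div, abs_of_pos hb0]
    apply div_le_div_of_nonneg_right _ hb0.le
    rw [abs_le]; constructor <;> linarith
  · refine ⟨b - 1, by omega, ?_⟩
    have h2 : b ≤ ⌊r * b⌋₊ := by omega
    have h3 : (b : ℝ) ≤ ⌊r * b⌋₊ := by exact_mod_cast h2
    have h4 : r * b ≤ b := by nlinarith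
    have h5 : ((b - 1 : ℕ) : ℝ) = b - 1 := by push_cast [Nat.cast_sub hb]; ring
    rw [h5]
    have e : r - ((b : ℝ) - 1) / b = (r * b - (b - 1)) / b := by field_simp
    rw [e, abs_div, abs_of_pos hb0]
    apply div_le_div_of_nonneg_right _ hb0.le
    rw [abs_le]; constructor <;> linarith

lemma focus_exists {b : ℕ} (hb : 1 ≤ b) {t : ℝ} (ht : FocusTime t) :
    ∃ j0, j0 < 2 * b ∧ |t - node b j0| ≤ 1 / b := by
  rcases ht with ⟨h1, h2⟩ | ⟨h1, h2⟩
  · obtain ⟨j, hj, hj2⟩ := exists_near hb (r := t + 6) (by linarith) (by linarith)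
    refine ⟨j, by omega, ?_⟩
    unfold node
    rw [if_pos hj]
    have e : t - (-6 + (j : ℝ) / b) = t + 6 - j / b := by ring
    rw [e]; exact hj2
  · obtain ⟨j, hj, hj2⟩ := exists_near hb (r := 2 - t) (by linarith) (by linarith)
    refine ⟨b + j, by omega, ?_⟩
    unfold node
    rw [if_neg (by omega)]
    have e : t - (2 - (((b + j : ℕ) : ℝ) - b) / b) = -(2 - t - j / b) := by
      push_cast; ring
    rw [e, abs_neg]; exact hj2

lemma focus_le {b : ℕ} (hb : 1 ≤ b) {t : ℝ} (ht : FocusTime t) (i : ℕ) (hi : i < 2 * b) :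
    |t - node b i| ≤ 8 := by
  have hb' : (1 : ℝ) ≤ b := by exact_mod_cast hb
  have hb0 : (0 : ℝ) < b := by linarith
  have hj' : (i : ℝ) < 2 * b := by exact_mod_cast hi
  have h1 : (i : ℝ) / b < 2 := by rw [div_lt_iff₀ hb0]; linarith
  have h3 : 0 ≤ (i : ℝ) / b := by positivity
  have h5 : ∀ k : ℕ, ((k : ℝ) - b) / b = k / b - 1 := by intro k; field_simp
  unfold node
  split_ifs with hjb
  · have h6 : (i : ℝ) / b < 1 := by rw [div_lt_iff₀ hb0]; rw [one_mul]; exact_mod_cast hjb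
    rcases ht with ⟨ht1, ht2⟩ | ⟨ht1, ht2⟩ <;> (rw [abs_le]; constructor <;> linarith)
  · rw [h5]
    have h7 : 1 ≤ (i : ℝ) / b := by
      rw [le_div_iff₀ hb0, one_mul]
      have : b ≤ i := by omega
      exact_mod_cast this
    rcases ht with ⟨ht1, ht2⟩ | ⟨ht1, ht2⟩ <;> (rw [abs_le]; constructor <;> linarith)

/-- The constant of the counting lemma. -/
noncomputable def C0 : ℝ := 18 * Real.exp 6 + 2

lemma bad_card' {b : ℕ} (hb : 1 ≤ b) {t : ℝ} (ht : FocusTime t) (M : ℕ) :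
    (((univ : Finset (Tub b)).filter fun v => mult v t < M).card : ℝ) ≤
      M * C0 / b * (b : ℝ) ^ (2 * b) := by
  have h := bad_card hb (focus_exists hb ht) (fun i hi => focus_le hb ht i hi) M
  have hb' : (1 : ℝ) ≤ b := by exact_mod_cast hb
  refine h.trans (le_of_eq ?_)
  have e : (b : ℝ) ^ (2 * b) = (b : ℝ) ^ (2 * b - 1) * b := by
    rw [← pow_succ]; congr 1; omega
  rw [e]
  unfold C0
  field_simp

lemma card_Tub (b : ℕ) : (Fintype.card (Tub b) : ℝ) = (b : ℝ) ^ (2 * b) := by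
  rw [Fintype.card_fun, Fintype.card_fin, Fintype.card_fin]
  push_cast
  ring

end Pool.Agent.Helper59.Dbar
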