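import Pool.Agent.Helper59.Dbar.Defs

/-!
Calculus rules for the Wirtinger derivative `dbar`.
-/

open Finset Complex Matrix Set
open scoped ComplexOrder ContDiff Topology

namespace Pool.Agent.Helper59.Dbar

variable {n : ℕ}

/-- Coordinate vectors. -/
abbrev eR (j k : Fin n) : CMat n := Pi.single j (Pi.single k 1)
abbrev eI (j k : Fin n) : CMat n := Pi.single j (Pi.single k I)

lemma eI_eq (j k : Fin n) : (eI j k : CMat n) = I • eR j k := by
  ext a b
  by_cases h1 : a = j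
  · subst h1
    by_cases h2 : b = k
    · subst h2; simp
    · simp [Pi.single_eq_of_ne h2]
  · simp [Pi.single_eq_of_ne h1]

lemma dbar_def (j k : Fin n) (φ : CMat n → ℂ) (Z : CMat n) :
    dbar j k φ Z = (1 / 2 : ℂ) * (fderiv ℝ φ Z (eR j k) + I * fderiv ℝ φ Z (eI j k)) := rfl

lemma dbar_congr {φ ψ : CMat n → ℂ} {Z : CMat n} (h : φ =ᶠ[𝓝 Z] ψ) (j k : Fin n) :
    dbar j k φ Z = dbar j k ψ Z := by
  rw [dbar_def, dbar_def, h.fderiv_eq]

lemma dbar_holo {h : CMat n → ℂ} {Z : CMat n} (hh : DifferentiableAt ℂ h Z) (j k : Fin n) :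
    dbar j k h Z = 0 := by
  rw [dbar_def, hh.fderiv_restrictScalars ℝ, eI_eq]
  simp only [ContinuousLinearMap.coe_restrictScalars', map_smul, smul_eq_mul]
  linear_combination (1 / 2 * fderiv ℂ h Z (eR j k)) * Complex.I_sq

lemma dbar_mul {f g : CMat n → ℂ} {Z : CMat n} (hf : DifferentiableAt ℝ f Z)
    (hg : DifferentiableAt ℝ g Z) (j k : Fin n) :
    dbar j k (fun Z => f Z * g Z) Z = f Z * dbar j k g Z + g Z * dbar j k f Z := by
  rw [dbar_def, dbar_def, dbar_def]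
  have h1 : fderiv ℝ (fun Z => f Z * g Z) Z = f Z • fderiv ℝ g Z + g Z • fderiv ℝ f Z :=
    fderiv_fun_mul hf hg
  rw [h1]
  simp only [_root_.add_apply, _root_.smul_apply, smul_eq_mul]
  ring

lemma dbar_sub {f g : CMat n → ℂ} {Z : CMat n} (hf : DifferentiableAt ℝ f Z)
    (hg : DifferentiableAt ℝ g Z) (j k : Fin n) :
    dbar j k (fun Z => f Z - g Z) Z = dbar j k f Z - dbar j k g Z := by
  rw [dbar_def, dbar_def, dbar_def]
  have h1 : fderiv ℝ (fun Z => f Z - g Z) Z = fderiv ℝ f Z - fderiv ℝ g Z :=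
    fderiv_fun_sub hf hg
  rw [h1]
  simp only [_root_.sub_apply]
  ring

lemma norm_eR_le (j k : Fin n) : ‖(eR j k : CMat n)‖ ≤ 1 := by
  rw [pi_norm_le_iff_of_nonneg zero_le_one]
  intro a
  rw [pi_norm_le_iff_of_nonneg zero_le_one]
  intro b
  by_cases h1 : a = j
  · subst h1
    by_cases h2 : b = k
    · subst h2; simp
    · simp [Pi.single_eq_of_ne h2]
  · simp [Pi.single_eq_of_ne h1]

lemma norm_eI_le (j k : Fin n) : ‖(eI j k : CMat n)‖ ≤ 1 := by
  rw [eI_eq, norm_smul, Complex.norm_I, one_mul]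
  exact norm_eR_le j k

lemma norm_dbar_le (j k : Fin n) (φ : CMat n → ℂ) (Z : CMat n) :
    ‖dbar j k φ Z‖ ≤ ‖fderiv ℝ φ Z‖ := by
  rw [dbar_def, norm_mul]
  have h1 : ‖fderiv ℝ φ Z (eR j k)‖ ≤ ‖fderiv ℝ φ Z‖ := by
    refine ((fderiv ℝ φ Z).le_opNorm _).trans ?_
    have := norm_eR_le j k
    have := norm_nonneg (fderiv ℝ φ Z)
    nlinarith
  have h2 : ‖fderiv ℝ φ Z (eI j k)‖ ≤ ‖fderiv ℝ φ Z‖ := by
    refine ((fderiv ℝ φ Z).le_opNorm _).trans ?_
    have := norm_eI_le j k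
    have := norm_nonneg (fderiv ℝ φ Z)
    nlinarith
  have h3 : ‖fderiv ℝ φ Z (eR j k) + I * fderiv ℝ φ Z (eI j k)‖ ≤ 2 * ‖fderiv ℝ φ Z‖ := by
    refine (norm_add_le _ _).trans ?_
    rw [norm_mul, Complex.norm_I, one_mul]
    linarith
  have h4 : ‖(1 / 2 : ℂ)‖ = 1 / 2 := by
    rw [norm_div, norm_one, Complex.norm_ofNat]
  rw [h4]
  linarith

lemma contDiffOn_dbar {u : CMat n → ℂ} {D : Set (CMat n)} (hD : IsOpen D)
    (hu : ContDiffOn ℝ ∞ u D) (j k : Fin n) : ContDiffOn ℝ ∞ (dbar j k u) D := by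
  have h1 : ContDiffOn ℝ ∞ (fderiv ℝ u) D := hu.fderiv_of_isOpen hD (by simp)
  have h2 : ContDiffOn ℝ ∞ (fun Z => fderiv ℝ u Z (eR j k)) D := h1.clm_apply contDiffOn_const
  have h3 : ContDiffOn ℝ ∞ (fun Z => fderiv ℝ u Z (eI j k)) D := h1.clm_apply contDiffOn_const
  exact contDiffOn_const.mul (h2.add (contDiffOn_const.mul h3))

lemma dbar_comm {u : CMat n → ℂ} {Z : CMat n} (hu : ContDiffAt ℝ ∞ u Z) (j k l m : Fin n) :
    dbar l m (dbar j k u) Z = dbar j k (dbar l m u) Z := by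
  have hsymm : IsSymmSndFDerivAt ℝ u Z := by
    apply hu.isSymmSndFDerivAt
    rw [minSmoothness_of_isRCLikeNormedField]
    exact WithTop.coe_le_coe.2 le_top
  have hd : DifferentiableAt ℝ (fderiv ℝ u) Z := by
    have h1 : ContDiffAt ℝ 1 (fderiv ℝ u) Z := hu.fderiv_right (by norm_cast)
    exact h1.differentiableAt one_ne_zero
  have key : ∀ (j k : Fin n) (v : CMat n), fderiv ℝ (dbar j k u) Z v =
      (1 / 2 : ℂ) * (fderiv ℝ (fderiv ℝ u) Z v (eR j k) +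
        I * fderiv ℝ (fderiv ℝ u) Z v (eI j k)) := by
    intro j k v
    have h1 : HasFDerivAt (fderiv ℝ u) (fderiv ℝ (fderiv ℝ u) Z) Z := hd.hasFDerivAt
    have h2 : HasFDerivAt (fun Z => fderiv ℝ u Z (eR j k))
        ((fderiv ℝ (fderiv ℝ u) Z).flip (eR j k)) Z := by
      have := h1.clm_apply (hasFDerivAt_const (eR j k) Z)
      simpa using this
    have h3 : HasFDerivAt (fun Z => fderiv ℝ u Z (eI j k))
        ((fderiv ℝ (fderiv ℝ u) Z).flip (eI j k)) Z := by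
      have := h1.clm_apply (hasFDerivAt_const (eI j k) Z)
      simpa using this
    have h4 := (h2.add (h3.const_mul I)).const_mul (1 / 2 : ℂ)
    have e : dbar j k u = fun Z => (1 / 2 : ℂ) * (fderiv ℝ u Z (eR j k) +
      I * fderiv ℝ u Z (eI j k)) := rfl
    rw [e]
    have h5 := h4.fderiv
    have h6 : fderiv ℝ (fun Z => (1 / 2 : ℂ) * (fderiv ℝ u Z (eR j k) +
      I * fderiv ℝ u Z (eI j k))) Z = (1 / 2 : ℂ) • (((fderiv ℝ (fderiv ℝ u) Z).flip (eR j k)) +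
        I • ((fderiv ℝ (fderiv ℝ u) Z).flip (eI j k))) := h5
    rw [h6]
    simp
    ring
  rw [dbar_def, dbar_def, key, key, key, key]
  rw [hsymm (eR l m) (eR j k), hsymm (eR l m) (eI j k), hsymm (eI l m) (eR j k),
    hsymm (eI l m) (eI j k)]
  ring

end Pool.Agent.Helper59.Dbar
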