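import Mathlib

/-!
Definitions for the `∂̄`-equation on the matrix unit ball, bidegree `(0,1)`.
-/

open MeasureTheory Complex
open scoped ContDiff ComplexOrder

namespace Pool.Agent.Helper59.Dbar

/-- Complex `n × n` matrices, identified with `ℂ^(n²)` through their entries `Z j k`. -/
abbrev CMat (n : ℕ) := Fin n → Fin n → ℂ

/-- The matrix unit ball `D = {Z : I - Z Z* is positive definite}`. -/
def matrixBall (n : ℕ) : Set (CMat n) :=
  {Z | (1 - Matrix.of Z * (Matrix.of Z).conjTranspose).PosDef}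

/-- The Wirtinger derivative `∂φ/∂z̄_{jk} = (1/2) (∂φ/∂x_{jk} + i ∂φ/∂y_{jk})`. -/
noncomputable def dbar {n : ℕ} (j k : Fin n) (φ : CMat n → ℂ) (Z : CMat n) : ℂ :=
  (1 / 2 : ℂ) * (fderiv ℝ φ Z (Pi.single j (Pi.single k 1)) +
    I * fderiv ℝ φ Z (Pi.single j (Pi.single k I)))

/-- `g = ∑ g_{jk} dz̄_{jk}` is a smooth `∂̄`-closed `(0,1)`-form on the matrix unit ball. -/
structure IsSmoothClosedForm (n : ℕ) (g : Fin n → Fin n → CMat n → ℂ) : Prop where
  /-- the coefficients are smooth on the ball -/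
  smooth : ∀ j k, ContDiffOn ℝ ∞ (g j k) (matrixBall n)
  /-- `∂̄ g = 0` on the ball -/
  closed : ∀ Z ∈ matrixBall n, ∀ j k l m : Fin n, dbar l m (g j k) Z = dbar j k (g l m) Z

/-- `∂̄ f = g` on the matrix unit ball in the sense of distributions. -/
def WeakDbar (n : ℕ) (f : CMat n → ℂ) (g : Fin n → Fin n → CMat n → ℂ) : Prop :=
  ∀ φ : CMat n → ℂ, ContDiff ℝ ∞ φ → HasCompactSupport φ → tsupport φ ⊆ matrixBall n →
    ∀ j k : Fin n,
      ∫ Z in matrixBall n, f Z * dbar j k φ Z = -∫ Z in matrixBall n, g j k Z * φ Z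

/-- The `∂̄`-equation in bidegree `(0,1)` admits uniform (sup-norm) estimates on the matrix unit
ball: there is a constant `C` such that every smooth `∂̄`-closed `(0,1)`-form `g` with
`‖g‖_∞ ≤ M` has a measurable solution `f` (in the sense of distributions) with
`‖f‖_∞ ≤ C M`. -/
def UniformEstimates01 (n : ℕ) : Prop :=
  ∃ C : ℝ, ∀ g : Fin n → Fin n → CMat n → ℂ, IsSmoothClosedForm n g →
    ∀ M : ℝ, (∀ Z ∈ matrixBall n, ∀ j k : Fin n, ‖g j k Z‖ ≤ M) →
      ∃ f : CMat n → ℂ, Measurable f ∧ (∀ Z ∈ matrixBall n, ‖f Z‖ ≤ C * M) ∧ WeakDbar n f g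

end Pool.Agent.Helper59.Dbar
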