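import Mathlib

/-!
Combinatorics of the digit arrangement of tubes.
-/

open Finset

namespace Pool.Agent.Helper59.Dbar

/-- Tail estimate (telescoping). -/
lemma tail_le {b : ℝ} (hb : 1 ≤ b) {A : ℝ} (j J : ℕ) (δ τ : ℕ → ℝ)
    (hδ : ∀ i, |δ i| ≤ b - 1) (hτ : ∀ i, j ≤ i → i < J → |τ i| ≤ A + (i - j : ℝ) / b) :
    ∀ i, j ≤ i → i ≤ J → ∑ k ∈ Ico i J, |δ k * τ k / (b + 3) ^ (k + 1)| ≤
      ((b - 1) / (b + 2)) * (A + (i - j : ℝ) / b + 1 / (b * (b + 2))) / (b + 3) ^ i -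
      ((b - 1) / (b + 2)) * (A + (J - j : ℝ) / b + 1 / (b * (b + 2))) / (b + 3) ^ J := by
  intro i hji hiJ
  induction hiJ using Nat.decreasingInduction with
  | self => simp
  | of_succ k hk ih =>
    have ih' := ih (by omega)
    rw [Finset.sum_eq_sum_Ico_succ_bot (by omega)]
    have h1 : |δ k * τ k / (b + 3) ^ (k + 1)| ≤ (b - 1) * (A + (k - j : ℝ) / b) / (b + 3) ^ (k + 1) := by
      rw [abs_div, abs_mul, abs_of_pos (by positivity : (0 : ℝ) < (b + 3) ^ (k + 1))]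
      apply div_le_div_of_nonneg_right _ (by positivity)
      exact mul_le_mul (hδ k) (hτ k hji (by omega)) (abs_nonneg _) (by linarith)
    have h2 : (b - 1) * (A + (k - j : ℝ) / b) / (b + 3) ^ (k + 1) +
        ((b - 1) / (b + 2)) * (A + (((k + 1 : ℕ) : ℝ) - j) / b + 1 / (b * (b + 2))) / (b + 3) ^ (k + 1)
        ≤ ((b - 1) / (b + 2)) * (A + (k - j : ℝ) / b + 1 / (b * (b + 2))) / (b + 3) ^ k := by
      have h3 : ((b - 1) / (b + 2)) * (A + (k - j : ℝ) / b + 1 / (b * (b + 2))) / (b + 3) ^ k =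
          (b + 3) * (((b - 1) / (b + 2)) * (A + (k - j : ℝ) / b + 1 / (b * (b + 2)))) /
            (b + 3) ^ (k + 1) := by
        rw [pow_succ]
        field_simp
      rw [h3, ← add_div]
      apply div_le_div_of_nonneg_right _ (by positivity)
      push_cast
      have h4 : (b + 3) * (((b - 1) / (b + 2)) * (A + (k - j : ℝ) / b + 1 / (b * (b + 2)))) -
          ((b - 1) * (A + (k - j : ℝ) / b) +
            ((b - 1) / (b + 2)) * (A + ((k : ℝ) + 1 - j) / b + 1 / (b * (b + 2)))) = 0 := by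
        field_simp
        ring
      linarith
    linarith

/-- Separation lemma. -/
lemma sep_general {b : ℝ} (hb : 1 ≤ b) (J j : ℕ) (hj : j < J) (δ τ : ℕ → ℝ)
    (hδ : ∀ i, |δ i| ≤ b - 1) (hδ0 : ∀ i, i < j → δ i = 0) (hδj : 1 ≤ |δ j|)
    (hτ : ∀ i, j ≤ i → i < J → |τ i| ≤ |τ j| + (i - j : ℝ) / b) (hτj : 1 ≤ |τ j|) :
    1 / (b + 3) ^ J ≤ |∑ i ∈ range J, δ i * τ i / (b + 3) ^ (i + 1)| := by
  have hsplit : ∑ i ∈ range J, δ i * τ i / (b + 3) ^ (i + 1) =
      δ j * τ j / (b + 3) ^ (j + 1) + ∑ i ∈ Ico (j + 1) J, δ i * τ i / (b + 3) ^ (i + 1) := by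
    rw [Finset.range_eq_Ico, ← Finset.sum_Ico_consecutive _ (Nat.zero_le j) (by omega : j ≤ J)]
    have h0 : ∑ i ∈ Ico 0 j, δ i * τ i / (b + 3) ^ (i + 1) = 0 := by
      apply Finset.sum_eq_zero
      intro i hi
      rw [Finset.mem_Ico] at hi
      rw [hδ0 i hi.2]
      simp
    rw [h0, zero_add, Finset.sum_eq_sum_Ico_succ_bot hj]
  have htail := tail_le hb j J δ τ hδ hτ (j + 1) (by omega) (by omega)
  have htail' : |∑ i ∈ Ico (j + 1) J, δ i * τ i / (b + 3) ^ (i + 1)| ≤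
      ∑ k ∈ Ico (j + 1) J, |δ k * τ k / (b + 3) ^ (k + 1)| := Finset.abs_sum_le_sum_abs _ _
  have hlead : |τ j| / (b + 3) ^ (j + 1) ≤ |δ j * τ j / (b + 3) ^ (j + 1)| := by
    rw [abs_div, abs_mul, abs_of_pos (by positivity : (0 : ℝ) < (b + 3) ^ (j + 1))]
    apply div_le_div_of_nonneg_right _ (by positivity)
    nlinarith [abs_nonneg (τ j)]
  have htri : |δ j * τ j / (b + 3) ^ (j + 1)| -
      |∑ i ∈ Ico (j + 1) J, δ i * τ i / (b + 3) ^ (i + 1)| ≤
      |∑ i ∈ range J, δ i * τ i / (b + 3) ^ (i + 1)| := by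
    rw [hsplit]
    have := abs_sub_abs_le_abs_sub (δ j * τ j / (b + 3) ^ (j + 1))
      (-(∑ i ∈ Ico (j + 1) J, δ i * τ i / (b + 3) ^ (i + 1)))
    rw [abs_neg, sub_neg_eq_add] at this
    exact this
  rcases (Nat.succ_le_of_lt hj).eq_or_lt with hJ | hJ
  · -- last digit
    have hJ' : j + 1 = J := hJ
    have h0 : ∑ i ∈ Ico (j + 1) J, δ i * τ i / (b + 3) ^ (i + 1) = 0 := by
      rw [hJ']; simp
    rw [h0, abs_zero, sub_zero] at htri
    calc 1 / (b + 3) ^ J = 1 / (b + 3) ^ (j + 1) := by rw [hJ']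
      _ ≤ |τ j| / (b + 3) ^ (j + 1) := div_le_div_of_nonneg_right hτj (by positivity)
      _ ≤ _ := hlead.trans htri
  · have hEJ : 0 ≤ ((b - 1) / (b + 2)) * (|τ j| + (J - j : ℝ) / b + 1 / (b * (b + 2))) / (b + 3) ^ J := by
      have h1 : (0 : ℝ) ≤ (J : ℝ) - j := by
        have : (j : ℝ) ≤ J := by exact_mod_cast hj.le
        linarith
      have h2 : (0 : ℝ) ≤ b - 1 := by linarith
      positivity
    have hmain : ((b - 1) / (b + 2)) * (|τ j| + (((j + 1 : ℕ) : ℝ) - j) / b + 1 / (b * (b + 2))) /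
        (b + 3) ^ (j + 1) + 1 / (b + 3) ^ (j + 2) ≤ |τ j| / (b + 3) ^ (j + 1) := by
      have h3 : 1 / (b + 3) ^ (j + 2) = (1 / (b + 3)) / (b + 3) ^ (j + 1) := by
        rw [pow_succ (b + 3) (j + 1)]
        field_simp
      rw [h3, ← add_div]
      apply div_le_div_of_nonneg_right _ (by positivity)
      push_cast
      have h4 : |τ j| - (((b - 1) / (b + 2)) * (|τ j| + ((j : ℝ) + 1 - j) / b + 1 / (b * (b + 2))) +
          1 / (b + 3)) = (3 * |τ j| - (b - 1) * (b + 3) / (b * (b + 2))) / (b + 2) - 1 / (b + 3) := by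
        field_simp
        ring
      have h5 : (b - 1) * (b + 3) / (b * (b + 2)) ≤ 1 := by
        rw [div_le_one (by positivity)]
        nlinarith
      have h6 : (2 : ℝ) / (b + 2) ≤ (3 * |τ j| - (b - 1) * (b + 3) / (b * (b + 2))) / (b + 2) := by
        apply div_le_div_of_nonneg_right _ (by positivity)
        linarith
      have h7 : 1 / (b + 3) ≤ 2 / (b + 2) := by
        rw [div_le_div_iff₀ (by positivity) (by positivity)]
        linarith
      linarith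
    have hpow : 1 / (b + 3) ^ J ≤ 1 / (b + 3) ^ (j + 2) := by
      apply one_div_le_one_div_of_le (by positivity)
      apply pow_le_pow_right₀ (by linarith)
      omega
    linarith

end Pool.Agent.Helper59.Dbar
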