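import Pool.Agent.Helper59.Dbar.Geom

/-!
The discs along the null directions.
-/

open Finset Complex Set MeasureTheory
open scoped ContDiff Topology

namespace Pool.Agent.Helper59.Dbar

namespace Par

noncomputable def κ0 (P : Par) : ℝ := 1 / Real.sqrt P.μ0

noncomputable def del (P : Par) : ℝ := 1 / P.lam

variable (P : Par)

lemma sqrt_μ0_pos : 0 < Real.sqrt P.μ0 := Real.sqrt_pos.2 (by linarith [P.hμ0])

lemma κ0_pos : 0 < P.κ0 := by
  unfold κ0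
  have := P.sqrt_μ0_pos
  positivity

lemma μ0_κ0 : P.μ0 * P.κ0 ^ 2 = 1 := by
  unfold κ0
  rw [div_pow, one_pow, Real.sq_sqrt (by linarith [P.hμ0])]
  have := P.hμ0
  field_simp

lemma μ_κ : P.μ * P.κ ^ 2 = 1 := by
  unfold μ
  have := P.κ_pos
  field_simp

lemma del_pos : 0 < P.del := by
  unfold del
  have := lam_pos (P := P)
  positivity

lemma lam_del : P.lam * P.del = 1 := by
  unfold del
  have := lam_pos (P := P)
  field_simp

lemma e1_le_κ0 : P.e1 ≤ P.κ0 / 100 := by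
  have h1 := P.he0
  have h2 := P.μ0_κ0
  have h3 := P.κ0_pos
  have h4 := P.he1
  have h5 := P.hμ0
  by_contra hcon
  push Not at hcon
  have h6 : (P.κ0 / 100) ^ 2 < P.e1 ^ 2 := by nlinarith
  have h7 : P.μ0 * (P.κ0 / 100) ^ 2 < P.μ0 * P.e1 ^ 2 :=
    mul_lt_mul_of_pos_left h6 (by linarith)
  nlinarith

lemma κ_le_e1 : P.κ ≤ P.e1 := by
  unfold κ
  apply div_le_self P.he1.le
  apply one_le_pow₀
  have : (0 : ℝ) ≤ P.b := Nat.cast_nonneg _
  linarith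

lemma del_le : P.del ≤ 1 / 256 := by
  unfold del
  have h1 := P.hlam
  have h2 := P.hμ0
  have h3 : 0 ≤ (((P.b : ℝ) + 3) ^ (2 * P.b) / P.e1) ^ 2 := sq_nonneg _
  apply one_div_le_one_div_of_le (by norm_num)
  linarith

lemma κ0_le (h4 : 4 ≤ P.μ0) : P.κ0 ≤ 1 / 2 := by
  have h1 := P.μ0_κ0
  have h2 := P.κ0_pos
  by_contra hcon
  push Not at hcon
  have : 1 / 4 < P.κ0 ^ 2 := by nlinarith
  nlinarith

/-- Point of the disc. -/
noncomputable def pt (s : ℝ) (x : ℝ × ℝ) (w : ℂ) : ℂ × ℂ × ℂ :=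
  (I * P.del + w, x.1 + I * P.del + w * s ^ 2, x.2 + w * s)

variable {P}

lemma pt_im1 (s : ℝ) (x : ℝ × ℝ) (w : ℂ) : (P.pt s x w).1.im = P.del + w.im := by
  unfold pt; simp

lemma pt_re1 (s : ℝ) (x : ℝ × ℝ) (w : ℂ) : (P.pt s x w).1.re = w.re := by
  unfold pt; simp

lemma ofReal_sq_mul (s : ℝ) (w : ℂ) : w * (s : ℂ) ^ 2 = ((s ^ 2 : ℝ) : ℂ) * w := by
  push_cast; ring

lemma pt_im2 (s : ℝ) (x : ℝ × ℝ) (w : ℂ) : (P.pt s x w).2.1.im = P.del + s ^ 2 * w.im := by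
  unfold pt
  simp only [ofReal_sq_mul]
  rw [Complex.add_im, Complex.im_ofReal_mul]
  simp

lemma pt_re2 (s : ℝ) (x : ℝ × ℝ) (w : ℂ) : (P.pt s x w).2.1.re = x.1 + s ^ 2 * w.re := by
  unfold pt
  simp only [ofReal_sq_mul]
  rw [Complex.add_re, Complex.re_ofReal_mul]
  simp

lemma pt_im3 (s : ℝ) (x : ℝ × ℝ) (w : ℂ) : (P.pt s x w).2.2.im = s * w.im := by
  unfold pt
  simp [mul_comm]

lemma pt_re3 (s : ℝ) (x : ℝ × ℝ) (w : ℂ) : (P.pt s x w).2.2.re = x.2 + s * w.re := by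
  unfold pt
  simp [mul_comm]

lemma pt_mem_Sieg (s : ℝ) (x : ℝ × ℝ) {w : ℂ} (hw : 0 ≤ w.im) : P.pt s x w ∈ Sieg := by
  intro p q hpq
  rw [pt_im1, pt_im2, pt_im3]
  have hd := P.del_pos
  have h1 : 0 < p ^ 2 + q ^ 2 := by
    by_contra hcon
    push Not at hcon
    apply hpq
    constructor <;> nlinarith [sq_nonneg p, sq_nonneg q]
  have h2 : p ^ 2 * (P.del + w.im) + 2 * p * q * (s * w.im) + q ^ 2 * (P.del + s ^ 2 * w.im) =
      P.del * (p ^ 2 + q ^ 2) + w.im * (p + q * s) ^ 2 := by ring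
  rw [h2]
  have h3 : 0 ≤ w.im * (p + q * s) ^ 2 := mul_nonneg hw (sq_nonneg _)
  have h4 : 0 < P.del * (p ^ 2 + q ^ 2) := mul_pos hd h1
  linarith

lemma continuous_pt : Continuous fun z : ℝ × (ℝ × ℝ) × ℂ => P.pt z.1 z.2.1 z.2.2 := by
  unfold pt
  fun_prop

/-- The translation property for real times. -/
lemma pt_real (s : ℝ) (x : ℝ × ℝ) (t : ℝ) :
    P.pt s x (t : ℂ) = P.pt 0 (x.1 + t * s ^ 2, x.2 + t * s) (t : ℂ) := by
  unfold pt
  apply Prod.ext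
  · rfl
  · apply Prod.ext
    · simp only; push_cast; ring
    · simp only; push_cast; ring

/-- The value of the packet on its disc. -/
noncomputable def kap (v : Tub P.b) (x : ℝ × ℝ) : ℂ :=
  P.pk v (P.pt (P.s v) x 0).1 (P.pt (P.s v) x 0).2.1 (P.pt (P.s v) x 0).2.2

lemma pk_pt (v : Tub P.b) (x : ℝ × ℝ) (w : ℂ) :
    P.pk v (P.pt (P.s v) x w).1 (P.pt (P.s v) x w).2.1 (P.pt (P.s v) x w).2.2 = kap v x := by
  unfold kap pk psi xi AA pt
  congr 1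
  simp only
  ring

lemma continuous_kap (v : Tub P.b) : Continuous (kap v) := by
  unfold kap pk psi xi AA pt
  fun_prop

lemma norm_kap_ge (v : Tub P.b) {x : ℝ × ℝ} (h1 : |x.1| ≤ P.κ0 / 2) (h2 : |x.2 - P.c v| ≤ P.κ) :
    Real.exp (-3) ≤ ‖kap v x‖ := by
  unfold kap pk
  rw [norm_psi]
  apply Real.exp_le_exp.2
  rw [xi_im, xi_re, AA_im, AA_re, pt_im1, pt_im2, pt_im3, pt_re1, pt_re2, pt_re3]
  simp only [Complex.zero_im, Complex.zero_re, mul_zero, add_zero, sub_zero]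
  have hs0 := P.s_nonneg v
  have hs := P.s_le v
  have he1 := P.he1'
  have hc := P.abs_c_le v
  have hκe := P.κ_le_e1
  have hκ0 := P.κ0_pos
  have he := P.e1_le_κ0
  have hx2 : |x.2| ≤ 7 * P.e1 := by
    have := abs_sub_abs_le_abs_sub x.2 (P.c v)
    linarith
  have hμ := P.μ_κ
  have hμ0 := P.μ0_κ0
  have hμpos := P.μ_pos
  have hμ0pos := P.hμ0
  have hdel := P.del_pos
  have hld := P.lam_del
  -- first term
  have t1 : P.lam * (P.del + P.s v ^ 2 * P.del) ≤ 1 + 1 / 1000 := by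
    have e : P.lam * (P.del + P.s v ^ 2 * P.del) = (P.lam * P.del) * (1 + P.s v ^ 2) := by ring
    rw [e, hld]
    nlinarith
  -- second term
  have t2 : P.μ * (x.2 - P.c v) ^ 2 ≤ 1 := by
    rw [← hμ]
    apply mul_le_mul_of_nonneg_left _ hμpos.le
    rw [← sq_abs]
    exact pow_le_pow_left₀ (abs_nonneg _) h2 2
  have t2' : 0 ≤ P.μ * (P.s v * P.del) ^ 2 := mul_nonneg hμpos.le (sq_nonneg _)
  -- third term
  have t3 : |x.1 - 2 * P.s v * x.2| ≤ P.κ0 * (3 / 5) := by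
    have a1 : |2 * P.s v * x.2| ≤ P.κ0 / 10 := by
      rw [abs_mul, abs_of_nonneg (by positivity : (0 : ℝ) ≤ 2 * P.s v)]
      have : 2 * P.s v * |x.2| ≤ 2 * (1 / 1000) * (7 * P.e1) := by
        apply mul_le_mul _ hx2 (abs_nonneg _) (by positivity)
        linarith
      linarith
    have a2 := abs_sub x.1 (2 * P.s v * x.2)
    linarith
  have t3' : P.μ0 * (x.1 - 2 * P.s v * x.2) ^ 2 ≤ 9 / 25 := by
    have a1 : (x.1 - 2 * P.s v * x.2) ^ 2 ≤ (P.κ0 * (3 / 5)) ^ 2 := by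
      rw [← sq_abs]
      exact pow_le_pow_left₀ (abs_nonneg _) t3 2
    have a2 : P.μ0 * (x.1 - 2 * P.s v * x.2) ^ 2 ≤ P.μ0 * (P.κ0 * (3 / 5)) ^ 2 :=
      mul_le_mul_of_nonneg_left a1 (by linarith)
    have a3 : P.μ0 * (P.κ0 * (3 / 5)) ^ 2 = (P.μ0 * P.κ0 ^ 2) * (9 / 25) := by ring
    rw [a3, hμ0] at a2
    linarith
  have t4' : 0 ≤ P.μ0 * (P.del + P.s v ^ 2 * P.del) ^ 2 :=
    mul_nonneg (by linarith) (sq_nonneg _)
  have e2 : (0 - P.s v * P.del) ^ 2 = (P.s v * P.del) ^ 2 := by ring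
  nlinarith

/-- On the Siegel half space the cut off packets are bounded by one. -/
lemma norm_chi_pk_le (v : Tub P.b) {w : ℂ × ℂ × ℂ} (hw : w ∈ Sieg) :
    ‖((chi w.1 w.2.1 w.2.2 : ℝ) : ℂ) * P.pk v w.1 w.2.1 w.2.2‖ ≤ 1 := by
  by_cases h : |w.1.re - 3 / 2| < 5 / 2 ∧ |w.1.im| < 2 ∧ ‖w.2.1‖ < 1 ∧ ‖w.2.2‖ < 1
  · have hB : Box w.1 w.2.1 w.2.2 := ⟨h.1.le, h.2.1.le, h.2.2.1.le, h.2.2.2.le⟩
    have h1 := Par.pk_le_one (P := P) (Box.reg (SPosW.posW hw) hB) v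
    rw [norm_mul, Complex.norm_real, Real.norm_eq_abs, abs_of_nonneg (chi_nonneg _ _ _)]
    exact mul_le_one₀ (chi_le_one _ _ _) (norm_nonneg _) h1
  · rw [chi_eq_zero h]; simp

lemma norm_kap_le (h4 : 4 ≤ P.μ0) (v : Tub P.b) {x : ℝ × ℝ} (h1 : |x.1| ≤ P.κ0 / 2)
    (h2 : |x.2 - P.c v| ≤ P.κ) : ‖kap v x‖ ≤ 1 := by
  have hs0 := P.s_nonneg v
  have hs := P.s_le v
  have he1 := P.he1'
  have hc := P.abs_c_le v
  have hκe := P.κ_le_e1
  have hκ0 := P.κ0_le h4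
  have hx2 : |x.2| ≤ 7 * P.e1 := by
    have := abs_sub_abs_le_abs_sub x.2 (P.c v)
    linarith
  have hdel := P.del_pos
  have hdel' := P.del_le
  rw [← pk_pt v x 0]
  apply Par.pk_le_one
  refine ⟨SPosW.posW (pt_mem_Sieg (P.s v) x (w := 0) (by simp)), ?_, ?_, ?_, ?_⟩
  · rw [pt_re1]; simp
  · rw [pt_im1]; simp; linarith
  · refine (Complex.norm_le_abs_re_add_abs_im _).trans ?_
    rw [pt_re2, pt_im2]
    simp only [Complex.zero_re, Complex.zero_im, mul_zero, add_zero]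
    rw [abs_of_pos hdel]
    linarith
  · refine (Complex.norm_le_abs_re_add_abs_im _).trans ?_
    rw [pt_re3, pt_im3]
    simp only [Complex.zero_re, Complex.zero_im, mul_zero, add_zero, abs_zero]
    linarith

lemma chi_pt_one (h4 : 4 ≤ P.μ0) (v : Tub P.b) {x : ℝ × ℝ} (h1 : |x.1| ≤ P.κ0 / 2)
    (h2 : |x.2 - P.c v| ≤ P.κ) {t : ℝ} (ht1 : 1 ≤ t) (ht2 : t ≤ 2) :
    chi (P.pt (P.s v) x t).1 (P.pt (P.s v) x t).2.1 (P.pt (P.s v) x t).2.2 = 1 := by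
  have hs0 := P.s_nonneg v
  have hs := P.s_le v
  have he1 := P.he1'
  have hc := P.abs_c_le v
  have hκe := P.κ_le_e1
  have hκ0 := P.κ0_le h4
  have hx2 : |x.2| ≤ 7 * P.e1 := by
    have := abs_sub_abs_le_abs_sub x.2 (P.c v)
    linarith
  have hdel := P.del_pos
  have hdel' := P.del_le
  apply chi_eq_one
  · rw [pt_re1, Complex.ofReal_re, abs_le]; constructor <;> linarith
  · rw [pt_im1, Complex.ofReal_im, add_zero, abs_of_pos hdel]; linarith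
  · refine (Complex.norm_le_abs_re_add_abs_im _).trans ?_
    rw [pt_re2, pt_im2]
    simp only [Complex.ofReal_re, Complex.ofReal_im, mul_zero, add_zero]
    rw [abs_of_pos hdel]
    have a1 := abs_add_le x.1 (P.s v ^ 2 * t)
    have a2 : |P.s v ^ 2 * t| ≤ 1 / 1000 := by
      rw [abs_of_nonneg (by positivity)]
      have : P.s v ^ 2 ≤ (1 / 1000) ^ 2 := pow_le_pow_left₀ hs0 (by linarith) 2
      nlinarith
    linarith
  · refine (Complex.norm_le_abs_re_add_abs_im _).trans ?_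
    rw [pt_re3, pt_im3]
    simp only [Complex.ofReal_re, Complex.ofReal_im, mul_zero, abs_zero, add_zero]
    have a1 := abs_add_le x.2 (P.s v * t)
    have a2 : |P.s v * t| ≤ 1 / 500 := by
      rw [abs_of_nonneg (by positivity)]
      nlinarith
    linarith

lemma chi_pt_zero (s : ℝ) (x : ℝ × ℝ) {t : ℝ} (ht2 : t ≤ -5) :
    chi (P.pt s x t).1 (P.pt s x t).2.1 (P.pt s x t).2.2 = 0 := by
  apply chi_eq_zero
  rintro ⟨h, -⟩
  rw [pt_re1, Complex.ofReal_re, abs_lt] at h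
  linarith [h.1]

end Par

end Pool.Agent.Helper59.Dbar
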