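import Pool.Agent.Helper59.Dbar.Cayley

/-!
Embedding of the symmetric `2 × 2` contractions into the matrix ball.
-/

open Finset Complex Matrix
open scoped ComplexOrder

namespace Pool.Agent.Helper59.Dbar

/-- The matrix with upper left block `[[a,c],[c,d]]` and zeros elsewhere. -/
def emb (m : ℕ) (a c d : ℂ) : CMat (m + 2) :=
  Fin.cons (Fin.cons a (Fin.cons c fun _ => 0)) (Fin.cons (Fin.cons c (Fin.cons d fun _ => 0))
    fun _ _ => 0)

lemma emb00 (m : ℕ) (a c d : ℂ) : emb m a c d 0 0 = a := rfl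
lemma emb01 (m : ℕ) (a c d : ℂ) : emb m a c d 0 1 = c := rfl
lemma emb10 (m : ℕ) (a c d : ℂ) : emb m a c d 1 0 = c := rfl
lemma emb11 (m : ℕ) (a c d : ℂ) : emb m a c d 1 1 = d := rfl

lemma ca_emb (m : ℕ) (a c d : ℂ) : ca (emb m a c d) = a := rfl
lemma cd_emb (m : ℕ) (a c d : ℂ) : cd (emb m a c d) = d := rfl
lemma cc_emb (m : ℕ) (a c d : ℂ) : cc (emb m a c d) = c := by
  unfold cc; rw [emb01, emb10]; ring

lemma emb_mem {m : ℕ} {a c d : ℂ} (h : Contr a c d) : emb m a c d ∈ matrixBall (m + 2) := by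
  rw [mem_ball_iff]
  intro x hx
  have e0 : ((Matrix.of (emb m a c d))ᴴ *ᵥ x) 0 =
      starRingEnd ℂ a * x 0 + starRingEnd ℂ c * x 1 := by
    unfold Matrix.mulVec dotProduct
    rw [Fin.sum_univ_succ, Fin.sum_univ_succ]
    simp [Matrix.conjTranspose_apply, emb]
  have e1 : ((Matrix.of (emb m a c d))ᴴ *ᵥ x) 1 =
      starRingEnd ℂ c * x 0 + starRingEnd ℂ d * x 1 := by
    have e1 : (1 : Fin (m + 2)) = Fin.succ 0 := rfl
    rw [e1]
    unfold Matrix.mulVec dotProduct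
    rw [Fin.sum_univ_succ, Fin.sum_univ_succ]
    simp [Matrix.conjTranspose_apply, emb]
  have e2 : ∀ i : Fin m, ((Matrix.of (emb m a c d))ᴴ *ᵥ x) i.succ.succ = 0 := by
    intro i
    unfold Matrix.mulVec dotProduct
    rw [Fin.sum_univ_succ, Fin.sum_univ_succ]
    simp [Matrix.conjTranspose_apply, emb]
  have hL : ns ((Matrix.of (emb m a c d))ᴴ *ᵥ x) =
      normSq (starRingEnd ℂ a * x 0 + starRingEnd ℂ c * x 1) +
        normSq (starRingEnd ℂ c * x 0 + starRingEnd ℂ d * x 1) := by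
    unfold ns
    rw [Fin.sum_univ_succ, Fin.sum_univ_succ]
    rw [e0]
    have e3 : ((Matrix.of (emb m a c d))ᴴ *ᵥ x) (Fin.succ 0) =
      starRingEnd ℂ c * x 0 + starRingEnd ℂ d * x 1 := e1
    rw [e3]
    simp only [e2, map_zero, Finset.sum_const_zero, add_zero]
  have hR : normSq (x 0) + normSq (x 1) ≤ ns x := by
    unfold ns
    rw [Fin.sum_univ_succ, Fin.sum_univ_succ]
    have : (0 : ℝ) ≤ ∑ i : Fin m, normSq (x i.succ.succ) :=
      Finset.sum_nonneg fun _ _ => normSq_nonneg _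
    have e4 : x (Fin.succ 0) = x 1 := rfl
    rw [e4]
    linarith
  by_cases h0 : x 0 = 0 ∧ x 1 = 0
  · rw [hL, h0.1, h0.2]
    simpa using ns_pos hx
  · have h1 := h (starRingEnd ℂ (x 0)) (starRingEnd ℂ (x 1)) (by
      rintro ⟨h2, h3⟩
      rw [map_eq_zero] at h2 h3
      exact h0 ⟨h2, h3⟩)
    rw [normSq_conj, normSq_conj] at h1
    have e5 : a * starRingEnd ℂ (x 0) + c * starRingEnd ℂ (x 1) =
        starRingEnd ℂ (starRingEnd ℂ a * x 0 + starRingEnd ℂ c * x 1) := by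
      simp
    have e6 : c * starRingEnd ℂ (x 0) + d * starRingEnd ℂ (x 1) =
        starRingEnd ℂ (starRingEnd ℂ c * x 0 + starRingEnd ℂ d * x 1) := by
      simp
    rw [e5, e6, normSq_conj, normSq_conj] at h1
    rw [hL]
    linarith

/-- Entries of a matrix in the ball are at most one. -/
lemma norm_le_one_of_mem {n : ℕ} {Z : CMat n} (hZ : Z ∈ matrixBall n) : ‖Z‖ ≤ 1 := by
  rw [pi_norm_le_iff_of_nonneg zero_le_one]
  intro j
  rw [pi_norm_le_iff_of_nonneg zero_le_one]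
  intro k
  have h1 := (mem_ball_iff Z).1 hZ (Pi.single j 1) (by
    intro h0
    have := congrFun h0 j
    simp at this)
  have e1 : ns (Pi.single j (1 : ℂ)) = 1 := by
    unfold ns
    rw [Finset.sum_eq_single j]
    · simp
    · intro i _ hi
      simp [Pi.single_eq_of_ne hi]
    · simp
  have e2 : normSq (Z j k) ≤ ns ((Matrix.of Z)ᴴ *ᵥ Pi.single j (1 : ℂ)) := by
    have e3 : ((Matrix.of Z)ᴴ *ᵥ Pi.single j (1 : ℂ)) k = starRingEnd ℂ (Z j k) := by
      simp [Matrix.conjTranspose_apply]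
    have e4 : normSq (Z j k) = normSq (((Matrix.of Z)ᴴ *ᵥ Pi.single j (1 : ℂ)) k) := by
      rw [e3, normSq_conj]
    rw [e4]
    unfold ns
    exact Finset.single_le_sum (f := fun i => normSq (((Matrix.of Z)ᴴ *ᵥ Pi.single j (1 : ℂ)) i))
      (fun i _ => normSq_nonneg _) (Finset.mem_univ k)
  rw [e1] at h1
  rw [Complex.normSq_eq_norm_sq] at e2
  have h3 : ‖Z j k‖ ^ 2 ≤ 1 := by linarith
  nlinarith [norm_nonneg (Z j k)]

end Pool.Agent.Helper59.Dbar
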