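import Pool.Agent.Helper59.Dbar.Focus

/-!
No uniform estimates in bidegree `(0,1)`.
-/

open Finset Complex Set MeasureTheory Filter
open scoped ContDiff Topology

namespace Pool.Agent.Helper59.Dbar

lemma exists_Par {b : ℕ} (hb : 1 ≤ b) : ∃ P : Par, P.b = b ∧ 4 ≤ P.μ0 := by
  have hb' : (1 : ℝ) ≤ b := by exact_mod_cast hb
  set μ0 : ℝ := max 4 (64 * Real.log ((b : ℝ) ^ (2 * b))) with hμ0def
  have hμ4 : 4 ≤ μ0 := le_max_left _ _
  have hμlog : 64 * Real.log ((b : ℝ) ^ (2 * b)) ≤ μ0 := le_max_right _ _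
  have hsq : 0 < Real.sqrt μ0 := Real.sqrt_pos.2 (by linarith)
  have hsqsq : Real.sqrt μ0 ^ 2 = μ0 := Real.sq_sqrt (by linarith)
  obtain ⟨e1, he1, he1', he1''⟩ : ∃ e1 : ℝ, 0 < e1 ∧ e1 ≤ 1 / 1000 ∧
      e1 ≤ 1 / (100 * Real.sqrt μ0) :=
    ⟨min (1 / 1000) (1 / (100 * Real.sqrt μ0)), by positivity, min_le_left _ _, min_le_right _ _⟩
  have hprod : e1 * (100 * Real.sqrt μ0) ≤ 1 := by
    rwa [le_div_iff₀ (by positivity)] at he1''
  have h1 : e1 ^ 2 * μ0 ≤ 1 / 10000 := by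
    have h2 : (e1 * (100 * Real.sqrt μ0)) ^ 2 ≤ 1 :=
      pow_le_one₀ (by positivity) hprod
    have h3 : (e1 * (100 * Real.sqrt μ0)) ^ 2 = 10000 * (e1 ^ 2 * Real.sqrt μ0 ^ 2) := by ring
    rw [h3, hsqsq] at h2
    linarith
  have hN1 : μ0 ≤ (((b : ℝ) + 3) ^ (2 * b) / e1) ^ 2 := by
    have h2 : (1 : ℝ) ≤ ((b : ℝ) + 3) ^ (2 * b) := one_le_pow₀ (by linarith)
    have h3 : Real.sqrt μ0 ≤ ((b : ℝ) + 3) ^ (2 * b) / e1 := by
      rw [le_div_iff₀ he1]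
      nlinarith
    calc μ0 = Real.sqrt μ0 ^ 2 := hsqsq.symm
      _ ≤ _ := pow_le_pow_left₀ hsq.le h3 2
  exact ⟨{ b := b, hb := hb, e1 := e1, he1 := he1, he1' := he1', μ0 := μ0,
           lam := 256 * ((((b : ℝ) + 3) ^ (2 * b) / e1) ^ 2 + μ0),
           hμ0 := by linarith, hN0 := hμlog, hN1 := hμlog.trans hN1, hlam := le_rfl,
           he0 := by linarith }, rfl, hμ4⟩

/-- The `∂̄`-equation in bidegree `(0,1)` does not admit uniform estimates on the matrix ball. -/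
theorem not_uniform (m : ℕ) : ¬ UniformEstimates01 (m + 2) := by
  intro hU
  obtain ⟨C1, hC1, hgeom⟩ := geom_sq hU
  obtain ⟨η, hη, htwo⟩ := two_const (A := C1 + 1) (τ := Real.exp (-6) / 2) (by linarith)
    (by positivity)
  -- choice of `M`
  obtain ⟨M, hM1, hM⟩ : ∃ M : ℕ, 1 ≤ M ∧ C1 * (4 / Real.sqrt M) ≤ η / 2 := by
    obtain ⟨M, hM⟩ := exists_nat_ge ((8 * C1 / η) ^ 2)
    refine ⟨M + 1, by omega, ?_⟩
    have h1 : (8 * C1 / η) ^ 2 ≤ ((M + 1 : ℕ) : ℝ) := by push_cast; linarith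
    have h2 : 8 * C1 / η ≤ Real.sqrt ((M + 1 : ℕ) : ℝ) := Real.le_sqrt_of_sq_le h1
    have h3 : 0 < Real.sqrt ((M + 1 : ℕ) : ℝ) := Real.sqrt_pos.2 (by positivity)
    rw [div_le_iff₀ hη] at h2
    rw [← mul_div_assoc, div_le_iff₀ h3]
    linarith
  -- choice of `b`
  obtain ⟨b, hb1, hb⟩ : ∃ b : ℕ, 1 ≤ b ∧ C1 * (2 * (M * C0 / b)) ≤ η / 2 := by
    obtain ⟨b, hb⟩ := exists_nat_ge (4 * C1 * (M * C0) / η)
    refine ⟨b + 1, by omega, ?_⟩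
    have h1 : 4 * C1 * (M * C0) / η ≤ ((b + 1 : ℕ) : ℝ) := by push_cast; linarith
    have h3 : (0 : ℝ) < ((b + 1 : ℕ) : ℝ) := by positivity
    rw [div_le_iff₀ hη] at h1
    have e : C1 * (2 * (M * C0 / ((b + 1 : ℕ) : ℝ))) =
      (2 * C1 * (M * C0)) / ((b + 1 : ℕ) : ℝ) := by ring
    rw [e, div_le_iff₀ h3]
    linarith
  obtain ⟨P, hPb, h4⟩ := exists_Par hb1
  obtain ⟨O, hO, hKO, h, hh, hsq⟩ := hgeom P (Ktest P) (isCompact_Ktest P) (Ktest_subset P)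
  let D : Dat P C1 := ⟨O, hO, hKO, h, fun v => (hh v).1, fun v => (hh v).2, hsq⟩
  have hsmall : C1 * (4 / Real.sqrt M + 2 * (M * C0 / P.b)) ≤ η := by
    rw [hPb, mul_add]; linarith
  have hk1 := kbar_ge P
  have hk2 := kbar_le P h4
  have hk0 : 0 ≤ kbar P := (Real.exp_pos _).le.trans hk1
  have hnorm : ‖((kbar P : ℝ) : ℂ)‖ = kbar P := by
    rw [Complex.norm_real, Real.norm_eq_abs, abs_of_nonneg hk0]
  have hfin := htwo D.U (kbar P) (D.diffContOnCl_U h4)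
    (fun w hw hw' => D.norm_U_le hC1 h4 hw hw')
    (fun t h1 h2 => (D.U_left hC1 h4 h1 h2 hM1).trans hsmall)
    (fun t h1 h2 => (D.U_right hC1 h4 h1 h2 hM1).trans hsmall)
    (by rw [hnorm]; linarith)
  rw [hnorm] at hfin
  have := Real.exp_pos (-6)
  linarith

end Pool.Agent.Helper59.Dbar
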