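import Pool.Agent.Helper59.Dbar.Avg

/-!
Smallness at the focusing times.
-/

open Finset Complex Set MeasureTheory
open scoped ContDiff Topology

namespace Pool.Agent.Helper59.Dbar

lemma shift_le {κ0 c κ : ℝ} {τ : ℝ × ℝ} (hτ : |τ.1| ≤ κ0 / 2) {G : ℝ × ℝ → ℝ}
    (hG0 : ∀ y, 0 ≤ G y) (hG : ContinuousOn G (Rec κ0 (c + τ.2) κ)) :
    ∫ x in Rec (κ0 / 2) c κ, G (x + τ) ≤ ∫ y in Rec κ0 (c + τ.2) κ, G y := by
  have h0 := abs_le.1 hτ
  have hi : Integrable ((Rec κ0 (c + τ.2) κ).indicator G) :=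
    (integrable_indicator_iff (measurableSet_Rec _ _ _)).2
      (hG.integrableOn_compact (isCompact_Rec _ _ _))
  have hi2 : Integrable (fun x => (Rec κ0 (c + τ.2) κ).indicator G (x + τ)) :=
    hi.comp_add_right τ
  have hsub : ∀ x ∈ Rec (κ0 / 2) c κ, x + τ ∈ Rec κ0 (c + τ.2) κ := by
    intro x hx
    have h1 := hx.1
    have h2 := hx.2
    rw [Set.mem_Icc] at h1 h2
    refine ⟨⟨?_, ?_⟩, ⟨?_, ?_⟩⟩
    · show -κ0 ≤ x.1 + τ.1
      linarith [h1.1]
    · show x.1 + τ.1 ≤ κ0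
      linarith [h1.2]
    · show c + τ.2 - κ ≤ x.2 + τ.2
      linarith [h2.1]
    · show x.2 + τ.2 ≤ c + τ.2 + κ
      linarith [h2.2]
  have hGc : ContinuousOn (fun x => G (x + τ)) (Rec (κ0 / 2) c κ) :=
    hG.comp (continuous_id.add continuous_const).continuousOn hsub
  calc ∫ x in Rec (κ0 / 2) c κ, G (x + τ) =
        ∫ x, (Rec (κ0 / 2) c κ).indicator (fun x => G (x + τ)) x :=
        (integral_indicator (measurableSet_Rec _ _ _)).symm
    _ ≤ ∫ x, (Rec κ0 (c + τ.2) κ).indicator G (x + τ) := by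
        apply integral_mono
        · exact (integrable_indicator_iff (measurableSet_Rec _ _ _)).2
            (hGc.integrableOn_compact (isCompact_Rec _ _ _))
        · exact hi2
        · intro x
          by_cases hx : x ∈ Rec (κ0 / 2) c κ
          · simp only
            rw [Set.indicator_of_mem hx, Set.indicator_of_mem (hsub x hx)]
          · simp only
            rw [Set.indicator_of_notMem hx]
            exact Set.indicator_nonneg (fun _ _ => hG0 _) _
    _ = ∫ x, (Rec κ0 (c + τ.2) κ).indicator G x :=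
        integral_add_right_eq_self (μ := (volume : Measure (ℝ × ℝ)))
          (fun x => (Rec κ0 (c + τ.2) κ).indicator G x) τ
    _ = ∫ y in Rec κ0 (c + τ.2) κ, G y := integral_indicator (measurableSet_Rec _ _ _)

lemma focus_abs_le {t : ℝ} (ht : FocusTime t) : |t| ≤ 6 := by
  rcases ht with ⟨h1, h2⟩ | ⟨h1, h2⟩ <;> (rw [abs_le]; constructor <;> linarith)

variable {P : Par} {C1 : ℝ}

lemma continuous_chi : Continuous fun w : ℂ × ℂ × ℂ => chi w.1 w.2.1 w.2.2 := by
  unfold chi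
  have h1 := bα.continuous
  have h2 := bβ.continuous
  have h3 := bφ.continuous
  have c1 : Continuous fun w : ℂ × ℂ × ℂ => bα w.1.re :=
    h1.comp (Complex.continuous_re.comp continuous_fst)
  have c2 : Continuous fun w : ℂ × ℂ × ℂ => bβ w.1.im :=
    h2.comp (Complex.continuous_im.comp continuous_fst)
  have c3 : Continuous fun w : ℂ × ℂ × ℂ => bφ w.2.1 := h3.comp (continuous_fst.comp continuous_snd)
  have c4 : Continuous fun w : ℂ × ℂ × ℂ => bφ w.2.2 := h3.comp (continuous_snd.comp continuous_snd)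
  exact ((c1.mul c2).mul c3).mul c4

lemma continuous_pk (v : Tub P.b) : Continuous fun w : ℂ × ℂ × ℂ => P.pk v w.1 w.2.1 w.2.2 := by
  unfold Par.pk psi xi AA
  fun_prop

namespace Dat

lemma continuousOn_f (D : Dat P C1) (v : Tub P.b) : ContinuousOn (D.f v) D.O := by
  unfold f
  apply (D.hC v).continuousOn.add
  exact ((Complex.continuous_ofReal.comp continuous_chi).mul (continuous_pk v)).continuousOn

lemma focus_est (D : Dat P C1) (hC1 : 0 ≤ C1) (h4 : 4 ≤ P.μ0) {t : ℝ} (ht : FocusTime t) {M : ℕ}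
    (hM : 1 ≤ M) :
    (1 / (NT P * qv P)) * ∑ v, ∫ x in Qr P v, ‖D.f v (P.pt (P.s v) x t)‖ ≤
      C1 * (4 / Real.sqrt M + 2 * (M * C0 / P.b)) := by
  classical
  have hN := NT_pos P
  have hq := qv_pos P
  have ht6 := focus_abs_le ht
  have hκ := P.κ_pos
  have hκ0 := P.κ0_pos
  have he1 := P.he1
  have he1' := P.he1'
  have heκ := P.e1_le_κ0
  have hκe := P.κ_le_e1
  have hκ0' := P.κ0_le h4
  have hMpos : (0 : ℝ) < M := by exact_mod_cast hM
  have hsM : 0 < Real.sqrt M := Real.sqrt_pos.2 hMpos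
  set a : Tub P.b → ℝ := fun v => P.c v + t * P.s v with ha
  have ha' : ∀ v, a v = P.e1 * pos v t := by
    intro v
    simp only [ha]
    unfold Par.c Par.s pos
    ring
  set G : Tub P.b → ℝ × ℝ → ℝ := fun v y => ‖D.f v (P.pt 0 y t)‖ with hGdef
  have htn : ‖(t : ℂ)‖ ≤ 40 := by
    rw [Complex.norm_real, Real.norm_eq_abs]; linarith
  have hmem : ∀ y ∈ YY, P.pt 0 y (t : ℂ) ∈ Ktest P := fun y hy =>
    pt_mem_Ktest P le_rfl zero_le_one hy htn (by simp)
  have hGc : ∀ v, ContinuousOn (G v) YY := by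
    intro v
    have h1 : Continuous fun y : ℝ × ℝ => P.pt 0 y (t : ℂ) := by
      unfold Par.pt; fun_prop
    exact ((D.continuousOn_f v).comp h1.continuousOn (fun y hy => D.hK (hmem y hy))).norm
  have hGsq : ∀ y ∈ YY, ∑ v, G v y ^ 2 ≤ C1 ^ 2 := fun y hy => D.hsq _ (hmem y hy)
  have hsv : ∀ v, |t * P.s v| ≤ 6 * P.e1 := by
    intro v
    rw [abs_mul, abs_of_nonneg (P.s_nonneg v)]
    exact mul_le_mul ht6 (P.s_le v) (P.s_nonneg v) (by norm_num)
  have hY : ∀ v, Rec P.κ0 (a v) P.κ ⊆ YY := by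
    intro v y hy
    have h1 := hy.1
    have h2 := hy.2
    rw [Set.mem_Icc] at h1 h2
    have h3 : |a v| ≤ 12 * P.e1 := by
      simp only [ha]
      refine (abs_add_le _ _).trans ?_
      linarith [P.abs_c_le v, hsv v]
    have h5 := abs_le.1 h3
    exact ⟨⟨by linarith [h1.1], by linarith [h1.2]⟩, ⟨by linarith [h2.1], by linarith [h2.2]⟩⟩
  have hov := overlap G (fun v y => norm_nonneg _) hC1 hGc hGsq a hκ hκ0 hY hM
  -- transfer of the integrals
  have htr : ∀ v, ∫ x in Qr P v, ‖D.f v (P.pt (P.s v) x t)‖ ≤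
      ∫ y in Rec P.κ0 (a v) P.κ, G v y := by
    intro v
    have h1 : |(t * P.s v ^ 2, t * P.s v).1| ≤ P.κ0 / 2 := by
      show |t * P.s v ^ 2| ≤ P.κ0 / 2
      have e : t * P.s v ^ 2 = (t * P.s v) * P.s v := by ring
      rw [e, abs_mul, abs_of_nonneg (P.s_nonneg v)]
      have := hsv v
      have h2 := P.s_le v
      have h3 := P.s_nonneg v
      have h5 : |t * P.s v| * P.s v ≤ (6 * P.e1) * P.e1 :=
        mul_le_mul (hsv v) h2 h3 (by positivity)
      nlinarith
    have h2 := shift_le (κ := P.κ) (c := P.c v) h1 (fun y => norm_nonneg (D.f v (P.pt 0 y t)))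
      ((hGc v).mono (hY v))
    refine le_trans (le_of_eq ?_) h2
    unfold Qr
    congr 1
    funext x
    rw [Par.pt_real]
    rfl
  have hsum : ∑ v, ∫ x in Qr P v, ‖D.f v (P.pt (P.s v) x t)‖ ≤
      C1 * (8 * P.κ0 * P.κ * (Fintype.card (Tub P.b) / Real.sqrt M) +
        4 * P.κ0 * P.κ * #{v : Tub P.b | #{v' : Tub P.b | |a v' - a v| ≤ P.κ} < M}) :=
    (Finset.sum_le_sum fun v _ => htr v).trans hov
  -- counting
  have hmult : ∀ v, #{v' : Tub P.b | |a v' - a v| ≤ P.κ} = mult v t := by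
    intro v
    unfold mult
    congr 1
    apply Finset.filter_congr
    intro v' _
    rw [ha', ha', ← mul_sub, abs_mul, abs_of_pos he1]
    unfold Par.κ
    rw [div_eq_mul_one_div]
    exact mul_le_mul_iff_right₀ he1
  have hbad : (#{v : Tub P.b | #{v' : Tub P.b | |a v' - a v| ≤ P.κ} < M} : ℝ) ≤
      M * C0 / P.b * NT P := by
    simp only [hmult]
    have h1 := bad_card' P.hb ht M
    unfold NT
    rw [card_Tub]
    refine le_trans (le_of_eq ?_) h1
    congr 1
  rw [one_div, ← div_eq_inv_mul, div_le_iff₀ (by positivity)]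
  refine hsum.trans ?_
  have hq2 : qv P = 2 * P.κ0 * P.κ := by unfold qv; ring
  rw [hq2]
  have e1 : C1 * (4 / Real.sqrt M + 2 * (M * C0 / P.b)) * (NT P * (2 * P.κ0 * P.κ)) =
      C1 * (8 * P.κ0 * P.κ * (NT P / Real.sqrt M) +
        4 * P.κ0 * P.κ * (M * C0 / P.b * NT P)) := by ring
  rw [e1]
  apply mul_le_mul_of_nonneg_left _ hC1
  have h5 : 4 * P.κ0 * P.κ * (#{v : Tub P.b | #{v' : Tub P.b | |a v' - a v| ≤ P.κ} < M} : ℝ) ≤
      4 * P.κ0 * P.κ * (M * C0 / P.b * NT P) := mul_le_mul_of_nonneg_left hbad (by positivity)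
  have h6 : (Fintype.card (Tub P.b) : ℝ) = NT P := rfl
  rw [h6]
  linarith

/-- The average of `conj κ_v f_v` on the discs at time `t`. -/
lemma norm_avg_f_le (D : Dat P C1) (hC1 : 0 ≤ C1) (h4 : 4 ≤ P.μ0) {t : ℝ} (ht : FocusTime t)
    {M : ℕ} (hM : 1 ≤ M) :
    ‖((1 / (NT P * qv P) : ℝ) : ℂ) *
      ∑ v, ∫ x in Qr P v, starRingEnd ℂ (Par.kap v x) * D.f v (P.pt (P.s v) x t)‖ ≤
      C1 * (4 / Real.sqrt M + 2 * (M * C0 / P.b)) := by
  have hN := NT_pos P
  have hq := qv_pos P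
  have ht6 := focus_abs_le ht
  have htn : ‖(t : ℂ)‖ ≤ 40 := by
    rw [Complex.norm_real, Real.norm_eq_abs]; linarith
  refine le_trans ?_ (D.focus_est hC1 h4 ht hM)
  rw [norm_mul, Complex.norm_real, Real.norm_eq_abs, abs_of_pos (by positivity)]
  apply mul_le_mul_of_nonneg_left _ (by positivity)
  refine (norm_sum_le _ _).trans (Finset.sum_le_sum fun v _ => ?_)
  apply norm_integral_le_of_norm_le
  · have hcq : IsCompact (Qr P v) := isCompact_Rec _ _ _
    apply ContinuousOn.integrableOn_compact hcq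
    have h1 : Continuous fun x : ℝ × ℝ => P.pt (P.s v) x (t : ℂ) := by
      unfold Par.pt; fun_prop
    exact ((D.continuousOn_f v).comp h1.continuousOn (fun x hx => D.hK
      (pt_mem_Ktest P (P.s_nonneg v) (s_le_one v) (Qr_subset_YY h4 v hx) htn (by simp)))).norm
  · have hcq : IsCompact (Qr P v) := isCompact_Rec _ _ _
    rw [ae_restrict_iff' hcq.measurableSet]
    refine Filter.Eventually.of_forall fun x hx => ?_
    rw [norm_mul, RCLike.norm_conj]
    have h1 := Par.norm_kap_le h4 v (Qr_fst hx) (Qr_snd hx)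
    have h2 := norm_nonneg (D.f v (P.pt (P.s v) x t))
    nlinarith

lemma U_left (D : Dat P C1) (hC1 : 0 ≤ C1) (h4 : 4 ≤ P.μ0) {t : ℝ} (h1 : -6 ≤ t) (h2 : t ≤ -5)
    {M : ℕ} (hM : 1 ≤ M) : ‖D.U t‖ ≤ C1 * (4 / Real.sqrt M + 2 * (M * C0 / P.b)) := by
  have h3 := D.norm_avg_f_le hC1 h4 (Or.inl ⟨h1, h2⟩) hM
  refine le_trans (le_of_eq ?_) h3
  unfold U
  congr 2
  apply Finset.sum_congr rfl
  intro v _
  congr 1
  funext x
  unfold f
  rw [Par.chi_pt_zero _ _ h2]
  simp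

lemma U_right (D : Dat P C1) (hC1 : 0 ≤ C1) (h4 : 4 ≤ P.μ0) {t : ℝ} (h1 : 1 ≤ t) (h2 : t ≤ 2)
    {M : ℕ} (hM : 1 ≤ M) :
    ‖D.U t + (kbar P : ℂ)‖ ≤ C1 * (4 / Real.sqrt M + 2 * (M * C0 / P.b)) := by
  have h3 := D.norm_avg_f_le hC1 h4 (Or.inr ⟨h1, h2⟩) hM
  have htn : ‖(t : ℂ)‖ ≤ 40 := by
    rw [Complex.norm_real, Real.norm_eq_abs, abs_of_pos (by linarith)]; linarith
  refine le_trans (le_of_eq ?_) h3
  congr 1
  unfold U kbar
  rw [Complex.ofReal_mul, ← mul_add]
  congr 1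
  rw [Complex.ofReal_sum, ← Finset.sum_add_distrib]
  apply Finset.sum_congr rfl
  intro v _
  have hcq : IsCompact (Qr P v) := isCompact_Rec _ _ _
  have e1 : ((∫ x in Qr P v, ‖Par.kap v x‖ ^ 2 : ℝ) : ℂ) =
      ∫ x in Qr P v, ((‖Par.kap v x‖ ^ 2 : ℝ) : ℂ) := integral_ofReal.symm
  rw [e1]
  have hpt : Continuous fun x : ℝ × ℝ => P.pt (P.s v) x (t : ℂ) := by
    unfold Par.pt; fun_prop
  have hck : Continuous fun x : ℝ × ℝ => starRingEnd ℂ (Par.kap v x) :=
    Complex.continuous_conj.comp (Par.continuous_kap v)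
  rw [← integral_add]
  · apply setIntegral_congr_fun hcq.measurableSet
    intro x hx
    simp only
    unfold f
    rw [Par.chi_pt_one h4 v (Qr_fst hx) (Qr_snd hx) h1 h2, Par.pk_pt]
    have e2 : ((‖Par.kap v x‖ ^ 2 : ℝ) : ℂ) = starRingEnd ℂ (Par.kap v x) * Par.kap v x := by
      rw [← Complex.normSq_eq_norm_sq, Complex.normSq_eq_conj_mul_self]
    rw [e2]
    push_cast
    ring
  · apply ContinuousOn.integrableOn_compact hcq
    exact hck.continuousOn.mul ((D.hC v).continuousOn.comp hpt.continuousOn (fun x hx => D.hK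
      (pt_mem_Ktest P (P.s_nonneg v) (s_le_one v) (Qr_subset_YY h4 v hx) htn (by simp))))
  · apply ContinuousOn.integrableOn_compact hcq
    exact (Complex.continuous_ofReal.comp ((Par.continuous_kap v).norm.pow 2)).continuousOn

end Dat

end Pool.Agent.Helper59.Dbar
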