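import Pool.Agent.Helper59.Dbar.Smooth
import Pool.Agent.Helper59.Dbar.DbarCalc

/-!
The bounded closed form built from the packets.
-/

open Finset Complex Matrix Set
open scoped ComplexOrder ContDiff Topology

namespace Pool.Agent.Helper59.Dbar

variable {m : ℕ}

/-- The cutoff on the ball. -/
noncomputable def chiW (Z : CMat (m + 2)) : ℂ := ((chi (W1 Z) (W2 Z) (W3 Z) : ℝ) : ℂ)

/-- Holomorphic sum of packets. -/
noncomputable def HH (P : Par) (σ : Tub P.b → ℝ) (Z : CMat (m + 2)) : ℂ :=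
  ∑ v, (σ v : ℂ) * P.pk v (W1 Z) (W2 Z) (W3 Z)

noncomputable def uu (P : Par) (σ : Tub P.b → ℝ) (Z : CMat (m + 2)) : ℂ := chiW Z * HH P σ Z

lemma contDiffAt_chiW {Z : CMat (m + 2)} (h : DZ Z ≠ 0) : ContDiffAt ℝ ∞ chiW Z := by
  have h1 : ContDiffAt ℝ ∞ W1 Z := (contDiffAt_W1 h).restrict_scalars ℝ
  have h2 : ContDiffAt ℝ ∞ W2 Z := (contDiffAt_W2 h).restrict_scalars ℝ
  have h3 : ContDiffAt ℝ ∞ W3 Z := (contDiffAt_W3 h).restrict_scalars ℝ
  have h1r : ContDiffAt ℝ ∞ (fun Z => (W1 Z).re) Z :=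
    Complex.reCLM.contDiff.contDiffAt.comp Z h1
  have h1i : ContDiffAt ℝ ∞ (fun Z => (W1 Z).im) Z :=
    Complex.imCLM.contDiff.contDiffAt.comp Z h1
  have a1 : ContDiffAt ℝ ∞ (fun Z => bα (W1 Z).re) Z := bα.contDiffAt.comp Z h1r
  have a2 : ContDiffAt ℝ ∞ (fun Z => bβ (W1 Z).im) Z := bβ.contDiffAt.comp Z h1i
  have a3 : ContDiffAt ℝ ∞ (fun Z => bφ (W2 Z)) Z := bφ.contDiffAt.comp Z h2
  have a4 : ContDiffAt ℝ ∞ (fun Z => bφ (W3 Z)) Z := bφ.contDiffAt.comp Z h3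
  have h5 : ContDiffAt ℝ ∞ (fun Z => chi (W1 Z) (W2 Z) (W3 Z)) Z := ((a1.mul a2).mul a3).mul a4
  exact Complex.ofRealCLM.contDiff.contDiffAt.comp Z h5

lemma contDiffAt_HH (P : Par) (σ : Tub P.b → ℝ) {Z : CMat (m + 2)} (h : DZ Z ≠ 0) :
    ContDiffAt ℂ ∞ (HH P σ) Z := by
  have h1 := contDiffAt_W1 h
  have h2 := contDiffAt_W2 h
  have h3 := contDiffAt_W3 h
  unfold HH
  apply ContDiffAt.sum
  intro v _
  unfold Par.pk psi xi AA
  fun_prop

lemma contDiffAt_uu (P : Par) (σ : Tub P.b → ℝ) {Z : CMat (m + 2)} (h : DZ Z ≠ 0) :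
    ContDiffAt ℝ ∞ (uu P σ) Z :=
  (contDiffAt_chiW h).mul ((contDiffAt_HH P σ h).restrict_scalars ℝ)

lemma contDiffOn_uu (P : Par) (σ : Tub P.b → ℝ) :
    ContDiffOn ℝ ∞ (uu P σ) (matrixBall (m + 2)) :=
  fun _ hZ => (contDiffAt_uu P σ (DZ_ne_of_mem hZ)).contDiffWithinAt

lemma dbar_uu (P : Par) (σ : Tub P.b → ℝ) {Z : CMat (m + 2)} (h : DZ Z ≠ 0)
    (j k : Fin (m + 2)) : dbar j k (uu P σ) Z = HH P σ Z * dbar j k chiW Z := by
  have h1 : DifferentiableAt ℝ chiW Z := (contDiffAt_chiW h).differentiableAt (by simp)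
  have h2 : DifferentiableAt ℂ (HH P σ) Z := (contDiffAt_HH P σ h).differentiableAt (by simp)
  have h3 := dbar_mul h1 (h2.restrictScalars ℝ) j k
  rw [dbar_holo h2, mul_zero, zero_add] at h3
  exact h3

/-- The form. -/
noncomputable def gg (P : Par) (σ : Tub P.b → ℝ) (j k : Fin (m + 2)) : CMat (m + 2) → ℂ :=
  dbar j k (uu P σ)

lemma gg_closed (P : Par) (σ : Tub P.b → ℝ) : IsSmoothClosedForm (m + 2) (gg P σ) where
  smooth j k := contDiffOn_dbar (isOpen_ball _) (contDiffOn_uu P σ) j k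
  closed Z hZ j k l r := dbar_comm (contDiffAt_uu P σ (DZ_ne_of_mem hZ)) j k l r

/-- The closed box carrying the cutoff. -/
def Box (w1 w2 w3 : ℂ) : Prop := |w1.re - 3 / 2| ≤ 5 / 2 ∧ |w1.im| ≤ 2 ∧ ‖w2‖ ≤ 1 ∧ ‖w3‖ ≤ 1

lemma Box.reg {w1 w2 w3 : ℂ} (hp : PosW w1 w2 w3) (h : Box w1 w2 w3) : Reg w1 w2 w3 where
  pos := hp
  h1 := by
    have := abs_le.1 h.1
    rw [abs_le]; constructor <;> linarith
  h1' := (abs_le.1 h.2.1).2
  h2 := h.2.2.1
  h3 := h.2.2.2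

lemma dbar_chiW_eq_zero {Z : CMat (m + 2)} (hZ : Z ∈ matrixBall (m + 2))
    (h : ¬ (Box (W1 Z) (W2 Z) (W3 Z) ∧ TransPt (W1 Z) (W2 Z) (W3 Z))) (j k : Fin (m + 2)) :
    dbar j k chiW Z = 0 := by
  have hD := DZ_ne_of_mem hZ
  have c1 : ContinuousAt W1 Z := (contDiffAt_W1 hD).continuousAt
  have c2 : ContinuousAt W2 Z := (contDiffAt_W2 hD).continuousAt
  have c3 : ContinuousAt W3 Z := (contDiffAt_W3 hD).continuousAt
  have c1r : ContinuousAt (fun Z => |(W1 Z).re - 3 / 2|) Z :=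
    ((Complex.continuous_re.continuousAt.comp c1).sub continuousAt_const).abs
  have c1i : ContinuousAt (fun Z => |(W1 Z).im|) Z :=
    (Complex.continuous_im.continuousAt.comp c1).abs
  have c2n : ContinuousAt (fun Z => ‖W2 Z‖) Z := c2.norm
  have c3n : ContinuousAt (fun Z => ‖W3 Z‖) Z := c3.norm
  have hzero : ∀ h0 : chiW =ᶠ[𝓝 Z] (fun _ => (0 : ℂ)), dbar j k chiW Z = 0 := by
    intro h0
    rw [dbar_congr h0, dbar_def]; simp
  by_cases hB : Box (W1 Z) (W2 Z) (W3 Z)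
  · have hT : ¬ TransPt (W1 Z) (W2 Z) (W3 Z) := fun hT => h ⟨hB, hT⟩
    unfold TransPt at hT
    push Not at hT
    obtain ⟨t1, t2, t3, t4⟩ := hT
    have hre : |(W1 Z).re - 3 / 2| < 3 / 2 := by
      have hb := abs_le.1 hB.1
      unfold SlabTime at t1
      push Not at t1
      rw [abs_lt]
      constructor
      · by_contra hcon
        have := t1.1 (by linarith)
        linarith
      · by_contra hcon
        have := t1.2 (by linarith)
        linarith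
    have him : |(W1 Z).im| < 1 := by
      have := (sPosW_of_mem hZ).posW.w1_nonneg
      rw [abs_lt]; constructor <;> linarith
    have h1 : chiW =ᶠ[𝓝 Z] (fun _ => (1 : ℂ)) := by
      filter_upwards [c1r.eventually_lt_const hre, c1i.eventually_lt_const him,
        c2n.eventually_lt_const t3, c3n.eventually_lt_const t4] with Z' a1 a2 a3 a4
      unfold chiW
      rw [chi_eq_one a1.le a2.le a3.le a4.le]
      norm_num
    rw [dbar_congr h1, dbar_def]; simp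
  · apply hzero
    have hB' : 5 / 2 < |(W1 Z).re - 3 / 2| ∨ 2 < |(W1 Z).im| ∨ 1 < ‖W2 Z‖ ∨ 1 < ‖W3 Z‖ := by
      by_contra hcon
      push Not at hcon
      exact hB hcon
    rcases hB' with h1 | h1 | h1 | h1
    · filter_upwards [c1r.eventually_const_lt h1] with Z' a1
      unfold chiW
      rw [chi_eq_zero (fun hh => by linarith [hh.1])]
      norm_num
    · filter_upwards [c1i.eventually_const_lt h1] with Z' a1
      unfold chiW
      rw [chi_eq_zero (fun hh => by linarith [hh.2.1])]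
      norm_num
    · filter_upwards [c2n.eventually_const_lt h1] with Z' a1
      unfold chiW
      rw [chi_eq_zero (fun hh => by linarith [hh.2.2.1])]
      norm_num
    · filter_upwards [c3n.eventually_const_lt h1] with Z' a1
      unfold chiW
      rw [chi_eq_zero (fun hh => by linarith [hh.2.2.2])]
      norm_num

lemma DZ_ge_of_box {Z : CMat (m + 2)} (hD : DZ Z ≠ 0) (hB : Box (W1 Z) (W2 Z) (W3 Z)) :
    4 / 15 ≤ ‖DZ Z‖ := by
  have h1 : ‖W1 Z‖ ≤ 6 := by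
    have h2 := abs_le.1 hB.1
    have h3 : |(W1 Z).re| ≤ 4 := by rw [abs_le]; constructor <;> linarith
    have := Complex.norm_le_abs_re_add_abs_im (W1 Z)
    linarith [hB.2.1]
  have h2 := norm_Dp_le h1 hB.2.2.1 hB.2.2.2
  rw [Dp_W hD, norm_div, Complex.norm_ofNat] at h2
  have h3 : 0 < ‖DZ Z‖ := norm_pos_iff.2 hD
  rw [div_le_iff₀ h3] at h2
  linarith

/-- The geometric constant. -/
lemma exists_Cgeo (m : ℕ) : ∃ C : ℝ, 0 ≤ C ∧ ∀ Z ∈ matrixBall (m + 2), ∀ j k : Fin (m + 2),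
    ‖dbar j k chiW Z‖ ≤ C := by
  set K : Set (CMat (m + 2)) := Metric.closedBall 0 1 ∩ {Z | 4 / 15 ≤ ‖DZ Z‖} with hK
  have hKc : IsCompact K :=
    (isCompact_closedBall _ _).inter_right (isClosed_le continuous_const continuous_DZ.norm)
  have hcont : ContinuousOn (fun Z : CMat (m + 2) => fderiv ℝ chiW Z) K := by
    intro Z hZ
    have hD : DZ Z ≠ 0 := by
      intro h0
      have h1 : 4 / 15 ≤ ‖DZ Z‖ := hZ.2
      rw [h0, norm_zero] at h1
      norm_num at h1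
    have h1 : ContDiffAt ℝ 1 (fderiv ℝ chiW) Z :=
      (contDiffAt_chiW hD).fderiv_right (by norm_cast)
    exact h1.continuousAt.continuousWithinAt
  obtain ⟨C, hC⟩ := hKc.exists_bound_of_continuousOn hcont
  refine ⟨max C 0, le_max_right _ _, ?_⟩
  intro Z hZ j k
  by_cases hB : Box (W1 Z) (W2 Z) (W3 Z)
  · have hZK : Z ∈ K := by
      refine ⟨?_, DZ_ge_of_box (DZ_ne_of_mem hZ) hB⟩
      rw [mem_closedBall_zero_iff]
      exact norm_le_one_of_mem hZ
    exact ((norm_dbar_le j k chiW Z).trans (hC Z hZK)).trans (le_max_left _ _)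
  · rw [dbar_chiW_eq_zero hZ (fun h => hB h.1), norm_zero]
    exact le_max_right _ _

/-- Uniform bound for the form. -/
lemma norm_gg_le {C : ℝ} (hC0 : 0 ≤ C)
    (hC : ∀ Z ∈ matrixBall (m + 2), ∀ j k : Fin (m + 2), ‖dbar j k chiW Z‖ ≤ C)
    (P : Par) (σ : Tub P.b → ℝ) (hσ : ∀ v, |σ v| ≤ 1) {Z : CMat (m + 2)}
    (hZ : Z ∈ matrixBall (m + 2)) (j k : Fin (m + 2)) :
    ‖gg P σ j k Z‖ ≤ (BG + 1) * C := by
  have hBG := BG_pos
  unfold gg
  rw [dbar_uu P σ (DZ_ne_of_mem hZ), norm_mul]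
  by_cases h : Box (W1 Z) (W2 Z) (W3 Z) ∧ TransPt (W1 Z) (W2 Z) (W3 Z)
  · have h1 := Par.trans_bound (P := P) (Box.reg (sPosW_of_mem hZ).posW h.1) h.2
    have h2 : ‖HH P σ Z‖ ≤ BG + 1 := by
      refine (norm_sum_le _ _).trans (le_trans (Finset.sum_le_sum fun v _ => ?_) h1)
      rw [norm_mul, Complex.norm_real, Real.norm_eq_abs]
      have := hσ v
      have := norm_nonneg (P.pk v (W1 Z) (W2 Z) (W3 Z))
      nlinarith
    exact mul_le_mul h2 (hC Z hZ j k) (norm_nonneg _) (by linarith)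
  · rw [dbar_chiW_eq_zero hZ h, norm_zero, mul_zero]
    positivity

end Pool.Agent.Helper59.Dbar
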