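import Mathlib

/-!
Bessel's inequality for random signs.
-/

open Finset Complex

namespace Pool.Agent.Helper59.Dbar

variable {V : Type*} [Fintype V] [DecidableEq V]

/-- sign of a boolean -/
noncomputable def sg (b : Bool) : ℝ := if b then 1 else -1

lemma sg_not (b : Bool) : sg (!b) = -sg b := by cases b <;> simp [sg]

lemma sg_mul_self (b : Bool) : sg b * sg b = 1 := by cases b <;> simp [sg]

lemma abs_sg (b : Bool) : |sg b| ≤ 1 := by cases b <;> simp [sg]

/-- number of sign vectors -/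
noncomputable def NS (V : Type*) [Fintype V] [DecidableEq V] : ℝ := (Fintype.card (V → Bool) : ℝ)

lemma NS_pos : 0 < NS V := by
  unfold NS
  exact_mod_cast Fintype.card_pos

lemma sum_sg (v w : V) : ∑ σ : V → Bool, sg (σ v) * sg (σ w) = if v = w then NS V else 0 := by
  split_ifs with h
  · subst h
    simp only [sg_mul_self]
    rw [Finset.sum_const, Finset.card_univ, nsmul_eq_mul, mul_one]
    rfl
  · let e : (V → Bool) ≃ (V → Bool) :=
      { toFun := fun σ => Function.update σ v (!σ v)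
        invFun := fun σ => Function.update σ v (!σ v)
        left_inv := by intro σ; simp
        right_inv := by intro σ; simp }
    have h1 : ∑ σ : V → Bool, sg (σ v) * sg (σ w) =
        ∑ σ : V → Bool, sg ((e σ) v) * sg ((e σ) w) :=
      (Equiv.sum_comp e (fun σ => sg (σ v) * sg (σ w))).symm
    have h2 : ∀ σ, sg ((e σ) v) * sg ((e σ) w) = -(sg (σ v) * sg (σ w)) := by
      intro σ
      have a1 : (e σ) v = !σ v := by simp [e]
      have a2 : (e σ) w = σ w := by
        simp only [e, Equiv.coe_fn_mk]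
        rw [Function.update_of_ne (Ne.symm h)]
      rw [a1, a2, sg_not]; ring
    simp only [h2, Finset.sum_neg_distrib] at h1
    linarith

lemma bessel_real (F : (V → Bool) → ℝ) :
    ∑ v, ((∑ σ : V → Bool, sg (σ v) * F σ) / NS V) ^ 2 ≤ (∑ σ, F σ ^ 2) / NS V := by
  have hN := NS_pos (V := V)
  set a : V → ℝ := fun v => (∑ σ : V → Bool, sg (σ v) * F σ) / NS V with ha
  have ha' : ∀ v, ∑ σ : V → Bool, sg (σ v) * F σ = NS V * a v := by
    intro v; rw [ha]; field_simp
  have h0 : 0 ≤ ∑ σ : V → Bool, (F σ - ∑ v, a v * sg (σ v)) ^ 2 :=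
    Finset.sum_nonneg fun _ _ => sq_nonneg _
  have h1 : ∑ σ : V → Bool, (F σ - ∑ v, a v * sg (σ v)) ^ 2 =
      ∑ σ, F σ ^ 2 - 2 * ∑ σ, F σ * ∑ v, a v * sg (σ v) +
        ∑ σ : V → Bool, (∑ v, a v * sg (σ v)) ^ 2 := by
    rw [Finset.mul_sum, ← Finset.sum_sub_distrib, ← Finset.sum_add_distrib]
    apply Finset.sum_congr rfl
    intro σ _
    ring
  have h2 : ∑ σ, F σ * ∑ v, a v * sg (σ v) = NS V * ∑ v, a v ^ 2 := by
    simp only [Finset.mul_sum]
    rw [Finset.sum_comm]
    apply Finset.sum_congr rfl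
    intro v _
    have : ∑ σ : V → Bool, F σ * (a v * sg (σ v)) = a v * ∑ σ : V → Bool, sg (σ v) * F σ := by
      rw [Finset.mul_sum]
      apply Finset.sum_congr rfl
      intro σ _; ring
    rw [this, ha' v]; ring
  have h3 : ∑ σ : V → Bool, (∑ v, a v * sg (σ v)) ^ 2 = NS V * ∑ v, a v ^ 2 := by
    have e1 : ∀ σ : V → Bool, (∑ v, a v * sg (σ v)) ^ 2 =
        ∑ v, ∑ w, a v * a w * (sg (σ v) * sg (σ w)) := by
      intro σ
      rw [pow_two, Finset.sum_mul_sum]
      apply Finset.sum_congr rfl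
      intro v _
      apply Finset.sum_congr rfl
      intro w _
      ring
    simp only [e1]
    rw [Finset.sum_comm]
    rw [Finset.mul_sum]
    apply Finset.sum_congr rfl
    intro v _
    rw [Finset.sum_comm]
    have e2 : ∀ w, ∑ σ : V → Bool, a v * a w * (sg (σ v) * sg (σ w)) =
        if v = w then a v * a w * NS V else 0 := by
      intro w
      rw [← Finset.mul_sum, sum_sg]
      split_ifs <;> ring
    simp only [e2]
    rw [Finset.sum_ite_eq]
    simp only [Finset.mem_univ, if_true]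
    ring
  rw [h1, h2, h3] at h0
  rw [le_div_iff₀ hN]
  have h4 : ∑ v, a v ^ 2 = ∑ v, ((∑ σ : V → Bool, sg (σ v) * F σ) / NS V) ^ 2 := rfl
  rw [← h4]
  linarith

lemma bessel (F : (V → Bool) → ℂ) {C : ℝ} (hF : ∀ σ, ‖F σ‖ ≤ C) :
    ∑ v, ‖(∑ σ : V → Bool, (sg (σ v) : ℂ) * F σ) / (NS V : ℂ)‖ ^ 2 ≤ C ^ 2 := by
  have hN := NS_pos (V := V)
  have h1 := bessel_real (fun σ => (F σ).re)
  have h2 := bessel_real (fun σ => (F σ).im)
  have e : ∀ v, ‖(∑ σ : V → Bool, (sg (σ v) : ℂ) * F σ) / (NS V : ℂ)‖ ^ 2 =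
      ((∑ σ : V → Bool, sg (σ v) * (F σ).re) / NS V) ^ 2 +
        ((∑ σ : V → Bool, sg (σ v) * (F σ).im) / NS V) ^ 2 := by
    intro v
    rw [← Complex.normSq_eq_norm_sq, Complex.normSq_apply]
    have r1 : ((∑ σ : V → Bool, (sg (σ v) : ℂ) * F σ) / (NS V : ℂ)).re =
        (∑ σ : V → Bool, sg (σ v) * (F σ).re) / NS V := by
      rw [Complex.div_ofReal_re, Complex.re_sum]
      simp only [Complex.re_ofReal_mul]
    have r2 : ((∑ σ : V → Bool, (sg (σ v) : ℂ) * F σ) / (NS V : ℂ)).im =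
        (∑ σ : V → Bool, sg (σ v) * (F σ).im) / NS V := by
      rw [Complex.div_ofReal_im, Complex.im_sum]
      simp only [Complex.im_ofReal_mul]
    rw [r1, r2]; ring
  simp only [e]
  rw [Finset.sum_add_distrib]
  have h3 : (∑ σ, (F σ).re ^ 2) / NS V + (∑ σ, (F σ).im ^ 2) / NS V ≤ C ^ 2 := by
    rw [← add_div, ← Finset.sum_add_distrib, div_le_iff₀ hN]
    have h4 : ∀ σ, (F σ).re ^ 2 + (F σ).im ^ 2 ≤ C ^ 2 := by
      intro σ
      have h5 : (F σ).re ^ 2 + (F σ).im ^ 2 = ‖F σ‖ ^ 2 := by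
        rw [← Complex.normSq_eq_norm_sq, Complex.normSq_apply]; ring
      rw [h5]
      exact pow_le_pow_left₀ (norm_nonneg _) (hF σ) 2
    calc ∑ σ, ((F σ).re ^ 2 + (F σ).im ^ 2) ≤ ∑ _σ : V → Bool, C ^ 2 :=
          Finset.sum_le_sum fun σ _ => h4 σ
      _ = C ^ 2 * NS V := by
          rw [Finset.sum_const, Finset.card_univ, nsmul_eq_mul, mul_comm]
          rfl
  linarith

end Pool.Agent.Helper59.Dbar
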