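import Pool.Agent.Helper59.Dbar.Mollify
import Pool.Agent.Helper59.Dbar.Form
import Pool.Agent.Helper59.Dbar.Signs

/-!
Consequence of the uniform estimates in the flat coordinates.
-/

open Finset Complex Matrix Set MeasureTheory
open scoped ComplexOrder ContDiff Topology

namespace Pool.Agent.Helper59.Dbar

/-- The Siegel upper half space. -/
def Sieg : Set (ℂ × ℂ × ℂ) := {w | SPosW w.1 w.2.1 w.2.2}

/-- The inverse Cayley transform into the ball. -/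
noncomputable def Phi (m : ℕ) (w : ℂ × ℂ × ℂ) : CMat (m + 2) :=
  emb m (ia w.1 w.2.1 w.2.2) (ic w.1 w.2.1 w.2.2) (id' w.1 w.2.1 w.2.2)

lemma continuous_Dp : Continuous fun w : ℂ × ℂ × ℂ => Dp w.1 w.2.1 w.2.2 := by
  unfold Dp; fun_prop

lemma isOpen_Dp_ne : IsOpen {w : ℂ × ℂ × ℂ | Dp w.1 w.2.1 w.2.2 ≠ 0} :=
  isOpen_ne_fun continuous_Dp continuous_const

lemma contDiffAt_Phi (m : ℕ) {w : ℂ × ℂ × ℂ} (h : Dp w.1 w.2.1 w.2.2 ≠ 0) :
    ContDiffAt ℂ ∞ (Phi m) w := by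
  have hDp : ContDiffAt ℂ ∞ (fun w : ℂ × ℂ × ℂ => Dp w.1 w.2.1 w.2.2) w := by
    unfold Dp; fun_prop
  have ha : ContDiffAt ℂ ∞ (fun w : ℂ × ℂ × ℂ => ia w.1 w.2.1 w.2.2) w := by
    unfold ia; fun_prop (disch := assumption)
  have hc : ContDiffAt ℂ ∞ (fun w : ℂ × ℂ × ℂ => ic w.1 w.2.1 w.2.2) w := by
    unfold ic; fun_prop (disch := assumption)
  have hd : ContDiffAt ℂ ∞ (fun w : ℂ × ℂ × ℂ => id' w.1 w.2.1 w.2.2) w := by
    unfold id'; fun_prop (disch := assumption)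
  rw [contDiffAt_pi]
  intro j
  rw [contDiffAt_pi]
  intro k
  unfold Phi emb
  refine Fin.cases ?_ (fun j => ?_) j
  · refine Fin.cases ?_ (fun k => ?_) k
    · simpa only [Fin.cons_zero] using ha
    · refine Fin.cases ?_ (fun k => ?_) k
      · simpa only [Fin.cons_zero, Fin.cons_succ] using hc
      · simpa only [Fin.cons_zero, Fin.cons_succ] using contDiffAt_const
  · refine Fin.cases ?_ (fun j => ?_) j
    · refine Fin.cases ?_ (fun k => ?_) k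
      · simpa only [Fin.cons_zero, Fin.cons_succ] using hc
      · refine Fin.cases ?_ (fun k => ?_) k
        · simpa only [Fin.cons_zero, Fin.cons_succ] using hd
        · simpa only [Fin.cons_zero, Fin.cons_succ] using contDiffAt_const
    · simpa only [Fin.cons_zero, Fin.cons_succ] using contDiffAt_const

lemma Phi_mem (m : ℕ) {w : ℂ × ℂ × ℂ} (h : w ∈ Sieg) : Phi m w ∈ matrixBall (m + 2) :=
  emb_mem (SPosW.contr h)

lemma W1_Phi (m : ℕ) {w : ℂ × ℂ × ℂ} (h : Dp w.1 w.2.1 w.2.2 ≠ 0) : W1 (Phi m w) = w.1 := by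
  unfold W1 Phi
  rw [ca_emb, cc_emb, cd_emb]
  exact cw1_inv h

lemma W2_Phi (m : ℕ) {w : ℂ × ℂ × ℂ} (h : Dp w.1 w.2.1 w.2.2 ≠ 0) : W2 (Phi m w) = w.2.1 := by
  unfold W2 Phi
  rw [ca_emb, cc_emb, cd_emb]
  exact cw2_inv h

lemma W3_Phi (m : ℕ) {w : ℂ × ℂ × ℂ} (h : Dp w.1 w.2.1 w.2.2 ≠ 0) : W3 (Phi m w) = w.2.2 := by
  unfold W3 Phi
  rw [ca_emb, cc_emb, cd_emb]
  exact cw3_inv h

/-- The sum of packets in the flat coordinates. -/
noncomputable def flat (P : Par) (σ : Tub P.b → ℝ) (w : ℂ × ℂ × ℂ) : ℂ :=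
  ((chi w.1 w.2.1 w.2.2 : ℝ) : ℂ) * ∑ v, (σ v : ℂ) * P.pk v w.1 w.2.1 w.2.2

theorem geom {m : ℕ} (hU : UniformEstimates01 (m + 2)) :
    ∃ C1 : ℝ, 0 ≤ C1 ∧ ∀ (P : Par) (σ : Tub P.b → ℝ), (∀ v, |σ v| ≤ 1) →
      ∀ K : Set (ℂ × ℂ × ℂ), IsCompact K → K ⊆ Sieg →
      ∃ O : Set (ℂ × ℂ × ℂ), IsOpen O ∧ K ⊆ O ∧ ∃ h : ℂ × ℂ × ℂ → ℂ,
        ContDiffOn ℝ ∞ h O ∧ DifferentiableOn ℂ h O ∧ ∀ w ∈ K, ‖h w + flat P σ w‖ ≤ C1 := by
  obtain ⟨C, hC⟩ := hU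
  obtain ⟨Cg, hCg0, hCg⟩ := exists_Cgeo m
  have hBG := BG_pos
  refine ⟨max (C * ((BG + 1) * Cg)) 0 + 1, by positivity, ?_⟩
  intro P σ hσ K hK hKS
  obtain ⟨f, hfm, hfb, hfw⟩ := hC (gg P σ) (gg_closed P σ) ((BG + 1) * Cg)
    (fun Z hZ j k => norm_gg_le hCg0 hCg P σ hσ hZ j k)
  have hDp : ∀ w ∈ K, Dp w.1 w.2.1 w.2.2 ≠ 0 := fun w hw => SPosW.Dp_ne (hKS hw)
  have hcont : ContinuousOn (Phi m) K := fun w hw =>
    (contDiffAt_Phi m (hDp w hw)).continuousAt.continuousWithinAt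
  have hK' : IsCompact (Phi m '' K) := hK.image_of_continuousOn hcont
  have hKD : Phi m '' K ⊆ matrixBall (m + 2) := by
    rintro _ ⟨w, hw, rfl⟩
    exact Phi_mem m (hKS hw)
  obtain ⟨O', hO', hKO', hO'D, h', hh'C, hh'D, hh'b⟩ := mollify
    (C1 := max (C * ((BG + 1) * Cg)) 0) hfm
    (fun Z hZ => (hfb Z hZ).trans (le_max_left _ _)) (contDiffOn_uu P σ) hfw hK' hKD
  have hPhi : ContinuousOn (Phi m) {w : ℂ × ℂ × ℂ | Dp w.1 w.2.1 w.2.2 ≠ 0} := fun w hw =>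
    (contDiffAt_Phi m hw).continuousAt.continuousWithinAt
  refine ⟨{w : ℂ × ℂ × ℂ | Dp w.1 w.2.1 w.2.2 ≠ 0} ∩ Phi m ⁻¹' O',
    hPhi.isOpen_inter_preimage isOpen_Dp_ne hO', ?_, fun w => h' (Phi m w), ?_, ?_, ?_⟩
  · intro w hw
    exact ⟨hDp w hw, hKO' (Set.mem_image_of_mem _ hw)⟩
  · intro w hw
    have h1 : ContDiffAt ℝ ∞ (Phi m) w := (contDiffAt_Phi m hw.1).restrict_scalars ℝ
    exact (hh'C.contDiffAt.comp w h1).contDiffWithinAt
  · intro w hw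
    have h1 : DifferentiableAt ℂ (Phi m) w := (contDiffAt_Phi m hw.1).differentiableAt (by simp)
    have h2 : DifferentiableAt ℂ h' (Phi m w) := hh'D.differentiableAt (hO'.mem_nhds hw.2)
    exact (h2.comp w h1).differentiableWithinAt
  · intro w hw
    have h1 := hh'b (Phi m w) (Set.mem_image_of_mem _ hw)
    have h2 : uu P σ (Phi m w) = flat P σ w := by
      unfold uu chiW HH flat
      rw [W1_Phi m (hDp w hw), W2_Phi m (hDp w hw), W3_Phi m (hDp w hw)]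
    rw [h2] at h1
    exact h1

/-- Square function version. -/
theorem geom_sq {m : ℕ} (hU : UniformEstimates01 (m + 2)) :
    ∃ C1 : ℝ, 0 ≤ C1 ∧ ∀ (P : Par) (K : Set (ℂ × ℂ × ℂ)), IsCompact K → K ⊆ Sieg →
      ∃ O : Set (ℂ × ℂ × ℂ), IsOpen O ∧ K ⊆ O ∧ ∃ h : Tub P.b → ℂ × ℂ × ℂ → ℂ,
        (∀ v, ContDiffOn ℝ ∞ (h v) O ∧ DifferentiableOn ℂ (h v) O) ∧
        ∀ w ∈ K, ∑ v, ‖h v w + ((chi w.1 w.2.1 w.2.2 : ℝ) : ℂ) * P.pk v w.1 w.2.1 w.2.2‖ ^ 2 ≤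
          C1 ^ 2 := by
  classical
  obtain ⟨C1, hC1, hgeom⟩ := geom hU
  refine ⟨C1, hC1, ?_⟩
  intro P K hK hKS
  have H : ∀ σ : Tub P.b → Bool, ∃ O : Set (ℂ × ℂ × ℂ), IsOpen O ∧ K ⊆ O ∧ ∃ h : ℂ × ℂ × ℂ → ℂ,
        ContDiffOn ℝ ∞ h O ∧ DifferentiableOn ℂ h O ∧
        ∀ w ∈ K, ‖h w + flat P (fun v => sg (σ v)) w‖ ≤ C1 := by
    intro σ
    exact hgeom P (fun v => sg (σ v)) (fun v => abs_sg _) K hK hKS
  choose O hO hKO h hhC hhD hhb using H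
  have hN := NS_pos (V := Tub P.b)
  refine ⟨⋂ σ, O σ, isOpen_iInter_of_finite hO, Set.subset_iInter hKO,
    fun v w => (∑ σ : Tub P.b → Bool, (sg (σ v) : ℂ) * h σ w) / (NS (Tub P.b) : ℂ), ?_, ?_⟩
  · intro v
    constructor
    · intro w hw
      rw [Set.mem_iInter] at hw
      have h1 : ∀ σ, ContDiffAt ℝ ∞ (h σ) w := fun σ =>
        (hhC σ).contDiffAt ((hO σ).mem_nhds (hw σ))
      apply ContDiffAt.contDiffWithinAt
      apply ContDiffAt.div_const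
      apply ContDiffAt.sum
      intro σ _
      exact contDiffAt_const.mul (h1 σ)
    · intro w hw
      rw [Set.mem_iInter] at hw
      have h1 : ∀ σ, DifferentiableAt ℂ (h σ) w := fun σ =>
        (hhD σ).differentiableAt ((hO σ).mem_nhds (hw σ))
      apply DifferentiableAt.differentiableWithinAt
      simp only [div_eq_mul_inv]
      apply DifferentiableAt.mul_const
      apply DifferentiableAt.fun_sum
      intro σ _
      exact (differentiableAt_const _).mul (h1 σ)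
  · intro w hw
    have hb := bessel (V := Tub P.b) (fun σ => h σ w + flat P (fun v => sg (σ v)) w)
      (C := C1) (fun σ => hhb σ w hw)
    refine le_trans (le_of_eq ?_) hb
    apply Finset.sum_congr rfl
    intro v _
    congr 2
    rw [eq_div_iff (by exact_mod_cast hN.ne'), add_mul,
      div_mul_cancel₀ _ (by exact_mod_cast hN.ne')]
    simp only [mul_add, Finset.sum_add_distrib]
    congr 1
    unfold flat
    have e1 : ∀ σ : Tub P.b → Bool, (sg (σ v) : ℂ) *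
        (((chi w.1 w.2.1 w.2.2 : ℝ) : ℂ) *
          ∑ v', (sg (σ v') : ℂ) * P.pk v' w.1 w.2.1 w.2.2) =
        ∑ v', (((sg (σ v) * sg (σ v') : ℝ) : ℂ)) *
          (((chi w.1 w.2.1 w.2.2 : ℝ) : ℂ) * P.pk v' w.1 w.2.1 w.2.2) := by
      intro σ
      rw [Finset.mul_sum, Finset.mul_sum]
      apply Finset.sum_congr rfl
      intro v' _
      push_cast
      ring
    simp only [e1]
    rw [Finset.sum_comm]
    have e2 : ∀ v', ∑ σ : Tub P.b → Bool, (((sg (σ v) * sg (σ v') : ℝ) : ℂ)) *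
          (((chi w.1 w.2.1 w.2.2 : ℝ) : ℂ) * P.pk v' w.1 w.2.1 w.2.2) =
        if v = v' then ((chi w.1 w.2.1 w.2.2 : ℝ) : ℂ) * P.pk v' w.1 w.2.1 w.2.2 *
          (NS (Tub P.b) : ℂ) else 0 := by
      intro v'
      rw [← Finset.sum_mul, ← Complex.ofReal_sum, sum_sg]
      split_ifs
      · ring
      · simp
    simp only [e2]
    rw [Finset.sum_ite_eq]
    simp only [Finset.mem_univ, if_true]

end Pool.Agent.Helper59.Dbar
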