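import Pool.Agent.Helper59.Dbar.DbarCalc

/-!
Real differentiable functions with vanishing `dbar` are holomorphic.
-/

open Finset Complex Matrix Set
open scoped ComplexOrder ContDiff Topology

namespace Pool.Agent.Helper59.Dbar

variable {n : ℕ}

lemma decomp_vec (v : CMat n) :
    v = ∑ j, ∑ k, ((v j k).re • eR j k + (v j k).im • eI j k) := by
  ext a b
  rw [Finset.sum_apply, Finset.sum_apply]
  rw [Finset.sum_eq_single a]
  · rw [Finset.sum_apply, Finset.sum_apply, Finset.sum_eq_single b]
    · simp only [Pi.add_apply, Pi.smul_apply, Pi.single_eq_same, Complex.real_smul, mul_one]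
      exact (Complex.re_add_im (v a b)).symm
    · intro k _ hk
      simp [Pi.single_eq_of_ne hk.symm]
    · simp
  · intro j _ hj
    rw [Finset.sum_apply, Finset.sum_apply]
    apply Finset.sum_eq_zero
    intro k _
    simp [Pi.single_eq_of_ne hj.symm]
  · simp

lemma I_smul_of_basis (D : CMat n →L[ℝ] ℂ) (h : ∀ j k, D (eI j k) = I * D (eR j k)) (v : CMat n) :
    D (I • v) = I * D v := by
  have h2 : ∀ j k, D (I • eI j k) = I * D (eI j k) := by
    intro j k
    have e : (I • eI j k : CMat n) = (-1 : ℝ) • eR j k := by
      rw [eI_eq, smul_smul, Complex.I_mul_I]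
      simp
    rw [e, map_smul, h]
    simp only [Complex.real_smul, Complex.ofReal_neg, Complex.ofReal_one]
    linear_combination (-(D (eR j k))) * Complex.I_sq
  have h3 : ∀ j k, D (I • eR j k) = I * D (eR j k) := by
    intro j k
    rw [← eI_eq, h]
  conv_lhs => rw [decomp_vec v]
  conv_rhs => rw [decomp_vec v]
  rw [Finset.smul_sum, map_sum, map_sum, Finset.mul_sum]
  apply Finset.sum_congr rfl
  intro j _
  rw [Finset.smul_sum, map_sum, map_sum, Finset.mul_sum]
  apply Finset.sum_congr rfl
  intro k _
  have a1 : ∀ (r : ℝ) (w : CMat n), D (r • w) = (r : ℂ) * D w := by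
    intro r w
    rw [map_smul, Complex.real_smul]
  rw [smul_add, map_add, map_add, smul_comm I, smul_comm I, a1, a1, a1, a1, h2, h3]
  ring

lemma differentiableAt_of_dbar {h : CMat n → ℂ} {Z : CMat n} (hd : DifferentiableAt ℝ h Z)
    (h0 : ∀ j k, dbar j k h Z = 0) : DifferentiableAt ℂ h Z := by
  set D := fderiv ℝ h Z with hD
  have h1 : ∀ j k, D (eI j k) = I * D (eR j k) := by
    intro j k
    have h2 := h0 j k
    rw [dbar_def, ← hD] at h2
    have h3 : D (eR j k) + I * D (eI j k) = 0 := by
      rcases mul_eq_zero.1 h2 with h4 | h4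
      · norm_num at h4
      · exact h4
    linear_combination (-I) * h3 + (D (eI j k)) * Complex.I_sq
  have h4 := I_smul_of_basis D h1
  let D' : CMat n →L[ℂ] ℂ :=
    { toFun := D
      map_add' := D.map_add
      map_smul' := by
        intro c v
        have e : c • v = c.re • v + c.im • (I • v) := by
          ext a b
          simp only [Pi.add_apply, Pi.smul_apply, Complex.real_smul, smul_eq_mul]
          conv_lhs => rw [← Complex.re_add_im c]
          ring
        rw [e, map_add, map_smul, map_smul, h4]
        simp only [Complex.real_smul, smul_eq_mul, RingHom.id_apply]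
        conv_rhs => rw [← Complex.re_add_im c]
        ring
      cont := D.cont }
  have h5 : HasFDerivAt h D Z := hd.hasFDerivAt
  have h6 : HasFDerivAt h D' Z := hasFDerivAt_of_restrictScalars ℝ h5 (by ext v; rfl)
  exact h6.differentiableAt

end Pool.Agent.Helper59.Dbar
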