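import Pool.Agent.Helper59.Dbar.Holo

/-!
Integration by parts for `dbar`.
-/

open Finset Complex Matrix Set MeasureTheory
open scoped ComplexOrder ContDiff Topology

namespace Pool.Agent.Helper59.Dbar

variable {n : ℕ}

instance instHaarCMat (n : ℕ) : (volume : Measure (CMat n)).IsAddHaarMeasure :=
  MeasureTheory.Measure.pi.isAddHaarMeasure _

lemma continuous_mul_of_tsupport {f g : CMat n → ℂ} {D : Set (CMat n)} (hD : IsOpen D)
    (hf : ContinuousOn f D) (hg : Continuous g) (hs : tsupport g ⊆ D) :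
    Continuous fun Z => f Z * g Z := by
  rw [continuous_iff_continuousAt]
  intro Z
  by_cases hZ : Z ∈ tsupport g
  · exact (hf.continuousAt (hD.mem_nhds (hs hZ))).mul hg.continuousAt
  · have h1 : g =ᶠ[𝓝 Z] 0 := notMem_tsupport_iff_eventuallyEq.1 hZ
    have h2 : (fun Z => f Z * g Z) =ᶠ[𝓝 Z] fun _ => 0 := by
      filter_upwards [h1] with Y hY
      rw [hY]; simp
    exact continuousAt_const.congr h2.symm

lemma integrable_mul_of_tsupport {f g : CMat n → ℂ} {D : Set (CMat n)} (hD : IsOpen D)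
    (hf : ContinuousOn f D) (hg : Continuous g) (hs : tsupport g ⊆ D) (hc : HasCompactSupport g) :
    Integrable fun Z => f Z * g Z := by
  apply (continuous_mul_of_tsupport hD hf hg hs).integrable_of_hasCompactSupport
  exact hc.mul_left

lemma dbar_eq_zero_of_notMem {φ : CMat n → ℂ} {Z : CMat n} (hZ : Z ∉ tsupport φ) (j k : Fin n) :
    dbar j k φ Z = 0 := by
  have h1 : φ =ᶠ[𝓝 Z] (fun _ => (0 : ℂ)) := notMem_tsupport_iff_eventuallyEq.1 hZ
  rw [dbar_congr h1, dbar_def]; simp

lemma continuous_fderiv_apply {φ : CMat n → ℂ} (hφ : ContDiff ℝ ∞ φ) (v : CMat n) :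
    Continuous fun Z => fderiv ℝ φ Z v :=
  (hφ.continuous_fderiv (by simp)).clm_apply continuous_const

lemma tsupport_fderiv_apply_subset' (φ : CMat n → ℂ) (v : CMat n) :
    tsupport (fun Z => fderiv ℝ φ Z v) ⊆ tsupport φ :=
  tsupport_fderiv_apply_subset ℝ v

lemma continuous_dbar {φ : CMat n → ℂ} (hφ : ContDiff ℝ ∞ φ) (j k : Fin n) :
    Continuous (dbar j k φ) :=
  continuous_const.mul ((continuous_fderiv_apply hφ _).add
    (continuous_const.mul (continuous_fderiv_apply hφ _)))

lemma hasCompactSupport_dbar {φ : CMat n → ℂ} (hc : HasCompactSupport φ) (j k : Fin n) :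
    HasCompactSupport (dbar j k φ) :=
  hc.of_isClosed_subset (isClosed_tsupport _) (by
    apply closure_minimal _ (isClosed_tsupport φ)
    intro Z hZ
    by_contra hcon
    exact hZ (dbar_eq_zero_of_notMem hcon j k))

lemma tsupport_dbar_subset (φ : CMat n → ℂ) (j k : Fin n) : tsupport (dbar j k φ) ⊆ tsupport φ := by
  apply closure_minimal _ (isClosed_tsupport φ)
  intro Z hZ
  by_contra hcon
  exact hZ (dbar_eq_zero_of_notMem hcon j k)

/-- Integration by parts. -/
lemma ibp {u φ : CMat n → ℂ} {D : Set (CMat n)} (hD : IsOpen D) (hu : ContDiffOn ℝ ∞ u D)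
    (hφ : ContDiff ℝ ∞ φ) (hc : HasCompactSupport φ) (hs : tsupport φ ⊆ D) (j k : Fin n) :
    ∫ Z in D, u Z * dbar j k φ Z = -∫ Z in D, dbar j k u Z * φ Z := by
  have hφ0 : ∀ Z, Z ∉ D → φ Z = 0 := fun Z hZ => by
    by_contra hcon
    exact hZ (hs (subset_tsupport φ hcon))
  have hφ1 : ∀ Z, Z ∉ D → dbar j k φ Z = 0 := fun Z hZ =>
    dbar_eq_zero_of_notMem (fun h => hZ (hs h)) j k
  rw [setIntegral_eq_integral_of_forall_compl_eq_zero (fun Z hZ => by rw [hφ1 Z hZ, mul_zero]),
    setIntegral_eq_integral_of_forall_compl_eq_zero (fun Z hZ => by rw [hφ0 Z hZ, mul_zero])]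
  have hfu : ContinuousOn (fderiv ℝ u) D := hu.continuousOn_fderiv_of_isOpen hD (by simp)
  have key : ∀ v : CMat n, ∫ Z, u Z * fderiv ℝ φ Z v = -∫ Z, fderiv ℝ u Z v * φ Z := by
    intro v
    apply integral_mul_fderiv_eq_neg_fderiv_mul_of_integrable
    · exact integrable_mul_of_tsupport hD (hfu.clm_apply continuousOn_const) hφ.continuous hs hc
    · exact integrable_mul_of_tsupport hD hu.continuousOn (continuous_fderiv_apply hφ v)
        ((tsupport_fderiv_apply_subset' φ v).trans hs) (hc.fderiv_apply ℝ v)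
    · exact integrable_mul_of_tsupport hD hu.continuousOn hφ.continuous hs hc
    · intro Z hZ
      exact (hu.contDiffAt (hD.mem_nhds (hs hZ))).differentiableAt (by simp)
    · intro Z _
      exact (hφ.differentiable (by simp)).differentiableAt
  have i1 : ∀ v : CMat n, Integrable fun Z => u Z * fderiv ℝ φ Z v := fun v =>
    integrable_mul_of_tsupport hD hu.continuousOn (continuous_fderiv_apply hφ v)
        ((tsupport_fderiv_apply_subset' φ v).trans hs) (hc.fderiv_apply ℝ v)
  have i2 : ∀ v : CMat n, Integrable fun Z => fderiv ℝ u Z v * φ Z := fun v =>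
    integrable_mul_of_tsupport hD (hfu.clm_apply continuousOn_const) hφ.continuous hs hc
  have e1 : (fun Z => u Z * dbar j k φ Z) = fun Z => (1 / 2 : ℂ) * (u Z * fderiv ℝ φ Z (eR j k)) +
      (1 / 2 * I : ℂ) * (u Z * fderiv ℝ φ Z (eI j k)) := by
    funext Z; rw [dbar_def]; ring
  have e2 : (fun Z => dbar j k u Z * φ Z) = fun Z => (1 / 2 : ℂ) * (fderiv ℝ u Z (eR j k) * φ Z) +
      (1 / 2 * I : ℂ) * (fderiv ℝ u Z (eI j k) * φ Z) := by
    funext Z; rw [dbar_def]; ring
  rw [e1, e2, integral_add ((i1 _).const_mul _) ((i1 _).const_mul _),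
    integral_add ((i2 _).const_mul _) ((i2 _).const_mul _), integral_const_mul, integral_const_mul,
    integral_const_mul, integral_const_mul, key, key]
  ring

end Pool.Agent.Helper59.Dbar
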