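import Pool.Agent.Helper59.Dbar.Packet

/-!
Bound of the sum of the packets on the transition region of the cutoff.
-/

open Finset Complex

namespace Pool.Agent.Helper59.Dbar

/-- The region where the cutoff lives. -/
structure Reg (w1 w2 w3 : ℂ) : Prop where
  pos : PosW w1 w2 w3
  h1 : |w1.re| ≤ 4
  h1' : w1.im ≤ 2
  h2 : ‖w2‖ ≤ 1
  h3 : ‖w3‖ ≤ 1

/-- The transition part of the region. -/
def TransPt (w1 w2 w3 : ℂ) : Prop :=
  SlabTime w1.re ∨ 1 ≤ w1.im ∨ 1 / 2 ≤ ‖w2‖ ∨ 1 / 2 ≤ ‖w3‖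

namespace Par

variable (P : Par)

lemma s_le' (v : Tub P.b) : P.s v ≤ 1 / 1000 := (P.s_le v).trans P.he1'

lemma abs_c_le' (v : Tub P.b) : |P.c v| ≤ 6 / 1000 := by
  have := P.abs_c_le v
  have := P.he1'
  linarith

lemma logN_nonneg : 0 ≤ Real.log ((P.b : ℝ) ^ (2 * P.b)) := by
  apply Real.log_nonneg
  have : (1 : ℝ) ≤ P.b := by exact_mod_cast P.hb
  exact one_le_pow₀ this

variable {P}

lemma xi_im_le {w1 w2 w3 : ℂ} (h : Reg w1 w2 w3) (v : Tub P.b) :
    (xi (P.s v) w1 w2 w3).im ≤ 2 := by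
  rw [xi_im]
  have hs0 := P.s_nonneg v
  have hs := P.s_le' v
  have h2 := (Complex.abs_im_le_norm w2).trans h.h2
  have h3 := (Complex.abs_im_le_norm w3).trans h.h3
  rw [abs_le] at h2 h3
  have h4 := h.pos.w1_nonneg
  have h5 := h.h1'
  have h6 : (P.s v) ^ 2 ≤ 1 := by nlinarith
  have h7 : (P.s v) ^ 2 * w1.im ≤ 1 * (1 / 2) := by
    have : (P.s v) ^ 2 ≤ 1 / 1000 := by nlinarith
    nlinarith
  have h8 : -(2 * P.s v * w3.im) ≤ 1 / 4 := by nlinarith
  linarith

lemma pk_le {w1 w2 w3 : ℂ} (h : Reg w1 w2 w3) (v : Tub P.b) :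
    ‖P.pk v w1 w2 w3‖ ≤ Real.exp (-(P.lam / 2 * (xi (P.s v) w1 w2 w3).im) -
      P.μ * ((AA (P.s v) w1 w3).re - P.c v) ^ 2 - P.μ0 * (xi (P.s v) w1 w2 w3).re ^ 2) :=
  norm_psi_le h.pos P.μ_pos.le (by linarith [P.hμ0]) P.lam_ge h.h1' (xi_im_le h v)

lemma lam_pos : 0 < P.lam := by
  have := P.lam_ge
  have := P.μ_pos
  have := P.hμ0
  linarith

/-- the packet is bounded by one on the region -/
lemma pk_le_one {w1 w2 w3 : ℂ} (h : Reg w1 w2 w3) (v : Tub P.b) :
    ‖P.pk v w1 w2 w3‖ ≤ 1 := by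
  refine (pk_le h v).trans ?_
  rw [Real.exp_le_one_iff]
  have h1 := h.pos.xi_nonneg (P.s v)
  have h2 : 0 ≤ P.μ * ((AA (P.s v) w1 w3).re - P.c v) ^ 2 := mul_nonneg P.μ_pos.le (sq_nonneg _)
  have h3 : 0 ≤ P.μ0 * (xi (P.s v) w1 w2 w3).re ^ 2 :=
    mul_nonneg (by linarith [P.hμ0]) (sq_nonneg _)
  have h4 : 0 ≤ P.lam / 2 * (xi (P.s v) w1 w2 w3).im :=
    mul_nonneg (by linarith [P.lam_pos]) h1
  linarith

lemma pk_le_mu {w1 w2 w3 : ℂ} (h : Reg w1 w2 w3) (v : Tub P.b) :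
    ‖P.pk v w1 w2 w3‖ ≤ Real.exp (-(P.μ * ((AA (P.s v) w1 w3).re - P.c v) ^ 2)) := by
  refine (pk_le h v).trans (Real.exp_le_exp.2 ?_)
  have h1 := h.pos.xi_nonneg (P.s v)
  have h3 : 0 ≤ P.μ0 * (xi (P.s v) w1 w2 w3).re ^ 2 :=
    mul_nonneg (by linarith [P.hμ0]) (sq_nonneg _)
  have h4 : 0 ≤ P.lam / 2 * (xi (P.s v) w1 w2 w3).im :=
    mul_nonneg (by linarith [P.lam_pos]) h1
  linarith

lemma pk_le_mu0 {w1 w2 w3 : ℂ} (h : Reg w1 w2 w3) (v : Tub P.b) :
    ‖P.pk v w1 w2 w3‖ ≤ Real.exp (-(P.μ0 * (xi (P.s v) w1 w2 w3).re ^ 2)) := by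
  refine (pk_le h v).trans (Real.exp_le_exp.2 ?_)
  have h1 := h.pos.xi_nonneg (P.s v)
  have h2 : 0 ≤ P.μ * ((AA (P.s v) w1 w3).re - P.c v) ^ 2 := mul_nonneg P.μ_pos.le (sq_nonneg _)
  have h4 : 0 ≤ P.lam / 2 * (xi (P.s v) w1 w2 w3).im :=
    mul_nonneg (by linarith [P.lam_pos]) h1
  linarith

lemma pk_le_lam {w1 w2 w3 : ℂ} (h : Reg w1 w2 w3) (v : Tub P.b) :
    ‖P.pk v w1 w2 w3‖ ≤ Real.exp (-(P.lam / 2 * (xi (P.s v) w1 w2 w3).im)) := by
  refine (pk_le h v).trans (Real.exp_le_exp.2 ?_)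
  have h2 : 0 ≤ P.μ * ((AA (P.s v) w1 w3).re - P.c v) ^ 2 := mul_nonneg P.μ_pos.le (sq_nonneg _)
  have h3 : 0 ≤ P.μ0 * (xi (P.s v) w1 w2 w3).re ^ 2 :=
    mul_nonneg (by linarith [P.hμ0]) (sq_nonneg _)
  linarith

/-- Transition bound. -/
theorem trans_bound {w1 w2 w3 : ℂ} (h : Reg w1 w2 w3) (ht : TransPt w1 w2 w3) :
    ∑ v, ‖P.pk v w1 w2 w3‖ ≤ BG + 1 := by
  have hBG := BG_pos
  have hκ := P.κ_pos
  have hlogN := P.logN_nonneg
  have hN0 := P.hN0
  have hN1 := P.hN1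
  rw [← P.μ_eq] at hN1
  have hlam : 256 * (P.μ + P.μ0) ≤ P.lam := by rw [P.μ_eq]; exact P.hlam
  have hμ := P.μ_pos
  have hw1re := abs_le.1 h.h1
  have hw2re := abs_le.1 ((Complex.abs_re_le_norm w2).trans h.h2)
  have hw2im := abs_le.1 ((Complex.abs_im_le_norm w2).trans h.h2)
  have hw3re := abs_le.1 ((Complex.abs_re_le_norm w3).trans h.h3)
  have hw3im := abs_le.1 ((Complex.abs_im_le_norm w3).trans h.h3)
  have hy1 := h.pos.w1_nonneg
  have hy2 := h.pos.w2_nonneg
  have hy1' := h.h1'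
  rcases ht with ht | ht | ht | ht
  · -- slabs
    have hsep : ∀ i j : Tub P.b, i ≠ j → P.κ ≤ |P.e1 * pos i w1.re - P.e1 * pos j w1.re| := by
      intro i j hij
      have h1 := pos_sep P.hb hij ht
      rw [← mul_sub, abs_mul, abs_of_pos P.he1]
      unfold κ
      have := mul_le_mul_of_nonneg_left h1 P.he1.le
      rw [mul_one_div] at this
      exact this
    have hg := gauss_sum (fun v : Tub P.b => P.e1 * pos v w1.re) hκ hsep w3.re
    have hle : ∑ v, ‖P.pk v w1 w2 w3‖ ≤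
        ∑ v : Tub P.b, Real.exp (-((w3.re - P.e1 * pos v w1.re) ^ 2 / P.κ ^ 2)) := by
      apply Finset.sum_le_sum
      intro v _
      refine (pk_le_mu h v).trans (le_of_eq ?_)
      congr 2
      rw [AA_re]
      unfold μ s c pos
      ring
    linarith
  · -- high above the boundary
    have hy1pos : 0 < w1.im := by linarith
    have hsep : ∀ i j : Tub P.b, i ≠ j → P.κ ≤ |P.s i - P.s j| := by
      intro i j hij
      have h1 := slope_sep P.hb hij
      unfold s
      rw [← mul_sub, abs_mul, abs_of_pos P.he1]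
      unfold κ
      have := mul_le_mul_of_nonneg_left h1 P.he1.le
      rw [mul_one_div] at this
      exact this
    have hg := gauss_sum (fun v : Tub P.b => P.s v) hκ hsep (w3.im / w1.im)
    have hle : ∑ v, ‖P.pk v w1 w2 w3‖ ≤
        ∑ v : Tub P.b, Real.exp (-((w3.im / w1.im - P.s v) ^ 2 / P.κ ^ 2)) := by
      apply Finset.sum_le_sum
      intro v _
      refine (pk_le_lam h v).trans (Real.exp_le_exp.2 ?_)
      have h1 := h.pos.AA_sq_le (P.s v)
      rw [AA_im] at h1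
      set y := (xi (P.s v) w1 w2 w3).im
      have h2 : (w3.im - P.s v * w1.im) ^ 2 = w1.im ^ 2 * (w3.im / w1.im - P.s v) ^ 2 := by
        field_simp
      rw [h2] at h1
      have h3 : (w3.im / w1.im - P.s v) ^ 2 ≤ y := by
        have h4 : w1.im * (w3.im / w1.im - P.s v) ^ 2 ≤ y := by
          have : w1.im * (w1.im * (w3.im / w1.im - P.s v) ^ 2) ≤ w1.im * y := by nlinarith
          exact le_of_mul_le_mul_left this hy1pos
        nlinarith [sq_nonneg (w3.im / w1.im - P.s v)]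
      have h5 : (w3.im / w1.im - P.s v) ^ 2 / P.κ ^ 2 = P.μ * (w3.im / w1.im - P.s v) ^ 2 := by
        unfold μ; ring
      rw [h5]
      have h6 : P.μ * (w3.im / w1.im - P.s v) ^ 2 ≤ P.μ * y := mul_le_mul_of_nonneg_left h3 hμ.le
      have h7 : 0 ≤ y := h.pos.xi_nonneg (P.s v)
      have h8 : P.μ * y ≤ P.lam / 2 * y := by
        apply mul_le_mul_of_nonneg_right _ h7
        linarith [P.hμ0]
      linarith
    linarith
  · -- `w2` far from the origin
    have hsum : ∑ v, ‖P.pk v w1 w2 w3‖ ≤ 1 := by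
      apply P.sum_le_one
      intro v
      have hs0 := P.s_nonneg v
      have hs := P.s_le' v
      have hs2 : (P.s v) ^ 2 ≤ 1 / 1000 := by nlinarith
      have hor : 1 / 4 ≤ |w2.re| ∨ 1 / 4 ≤ |w2.im| := by
        by_contra hcon
        push Not at hcon
        have := Complex.norm_le_abs_re_add_abs_im w2
        linarith
      rcases hor with h4 | h4
      · refine (pk_le_mu0 h v).trans (Real.exp_le_exp.2 ?_)
        have h5 : 1 / 64 ≤ (xi (P.s v) w1 w2 w3).re ^ 2 := by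
          rw [xi_re]
          have h6 : |2 * P.s v * w3.re - P.s v ^ 2 * w1.re| ≤ 1 / 8 := by
            rw [abs_le]; constructor <;> nlinarith
          have h7 : 1 / 8 ≤ |w2.re - 2 * P.s v * w3.re + P.s v ^ 2 * w1.re| := by
            have h8 := abs_sub_abs_le_abs_sub w2.re (2 * P.s v * w3.re - P.s v ^ 2 * w1.re)
            have e : w2.re - (2 * P.s v * w3.re - P.s v ^ 2 * w1.re) =
              w2.re - 2 * P.s v * w3.re + P.s v ^ 2 * w1.re := by ring
            rw [e] at h8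
            linarith
          rw [← sq_abs]
          nlinarith
        have h9 : P.μ0 * (1 / 64) ≤ P.μ0 * (xi (P.s v) w1 w2 w3).re ^ 2 :=
          mul_le_mul_of_nonneg_left h5 (by linarith [P.hμ0])
        linarith
      · refine (pk_le_lam h v).trans (Real.exp_le_exp.2 ?_)
        rw [abs_of_nonneg hy2] at h4
        have h5 : 1 / 8 ≤ (xi (P.s v) w1 w2 w3).im := by
          rw [xi_im]
          nlinarith [mul_nonneg (sq_nonneg (P.s v)) hy1]
        have h9 : P.lam / 2 * (1 / 8) ≤ P.lam / 2 * (xi (P.s v) w1 w2 w3).im :=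
          mul_le_mul_of_nonneg_left h5 (by linarith [P.lam_pos])
        linarith [P.hμ0]
    linarith
  · -- `w3` far from the origin
    have hsum : ∑ v, ‖P.pk v w1 w2 w3‖ ≤ 1 := by
      apply P.sum_le_one
      intro v
      have hs0 := P.s_nonneg v
      have hs := P.s_le' v
      have hs2 : (P.s v) ^ 2 ≤ 1 / 1000 := by nlinarith
      have hc := abs_le.1 (P.abs_c_le' v)
      have hor : 1 / 4 ≤ |w3.re| ∨ 1 / 4 ≤ |w3.im| := by
        by_contra hcon
        push Not at hcon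
        have := Complex.norm_le_abs_re_add_abs_im w3
        linarith
      rcases hor with h4 | h4
      · refine (pk_le_mu h v).trans (Real.exp_le_exp.2 ?_)
        have h5 : 1 / 64 ≤ ((AA (P.s v) w1 w3).re - P.c v) ^ 2 := by
          rw [AA_re]
          have h6 : |P.s v * w1.re + P.c v| ≤ 1 / 8 := by
            rw [abs_le]; constructor <;> nlinarith
          have h7 : 1 / 8 ≤ |w3.re - P.s v * w1.re - P.c v| := by
            have h8 := abs_sub_abs_le_abs_sub w3.re (P.s v * w1.re + P.c v)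
            have e : w3.re - (P.s v * w1.re + P.c v) = w3.re - P.s v * w1.re - P.c v := by ring
            rw [e] at h8
            linarith
          rw [← sq_abs]
          nlinarith
        have h9 : P.μ * (1 / 64) ≤ P.μ * ((AA (P.s v) w1 w3).re - P.c v) ^ 2 :=
          mul_le_mul_of_nonneg_left h5 hμ.le
        linarith
      · refine (pk_le_lam h v).trans (Real.exp_le_exp.2 ?_)
        have h1 := h.pos.AA_sq_le (P.s v)
        rw [AA_im] at h1
        have h6 : |P.s v * w1.im| ≤ 1 / 8 := by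
          rw [abs_le]; constructor <;> nlinarith
        have h7 : 1 / 8 ≤ |w3.im - P.s v * w1.im| := by
          have h8 := abs_sub_abs_le_abs_sub w3.im (P.s v * w1.im)
          linarith
        have h8 : 1 / 64 ≤ (w3.im - P.s v * w1.im) ^ 2 := by
          rw [← sq_abs]; nlinarith
        have h9 := h.pos.xi_nonneg (P.s v)
        have h5 : 1 / 128 ≤ (xi (P.s v) w1 w2 w3).im := by nlinarith
        have h10 : P.lam / 2 * (1 / 128) ≤ P.lam / 2 * (xi (P.s v) w1 w2 w3).im :=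
          mul_le_mul_of_nonneg_left h5 (by linarith [P.lam_pos])
        linarith [P.hμ0]
    linarith

end Par

end Pool.Agent.Helper59.Dbar
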