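import Pool.Agent.Helper59.Dbar.Emb
import Pool.Agent.Helper59.Dbar.Trans

/-!
Smoothness of the flat coordinates on the ball, the cutoff.
-/

open Finset Complex Matrix Set
open scoped ComplexOrder ContDiff Topology

namespace Pool.Agent.Helper59.Dbar

lemma continuous_ns {n : ℕ} : Continuous (ns : (Fin n → ℂ) → ℝ) := by
  unfold ns
  exact continuous_finsetSum _ fun i _ => Complex.continuous_normSq.comp (continuous_apply i)

lemma ns_smul {n : ℕ} (c : ℂ) (x : Fin n → ℂ) : ns (c • x) = normSq c * ns x := by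
  unfold ns
  rw [Finset.mul_sum]
  apply Finset.sum_congr rfl
  intro i _
  rw [Pi.smul_apply, smul_eq_mul, normSq_mul]

lemma isCompact_ns_sphere (n : ℕ) : IsCompact {x : Fin n → ℂ | ns x = 1} := by
  apply Metric.isCompact_of_isClosed_isBounded
  · exact isClosed_eq continuous_ns continuous_const
  · refine (Metric.isBounded_closedBall (x := (0 : Fin n → ℂ)) (r := 1)).subset ?_
    intro x hx
    rw [mem_closedBall_zero_iff, pi_norm_le_iff_of_nonneg zero_le_one]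
    intro i
    have h1 : normSq (x i) ≤ ns x := by
      unfold ns
      exact Finset.single_le_sum (f := fun i => normSq (x i)) (fun i _ => normSq_nonneg _)
        (Finset.mem_univ i)
    have h2 : ns x = 1 := hx
    rw [h2, Complex.normSq_eq_norm_sq] at h1
    nlinarith [norm_nonneg (x i)]

lemma continuous_adj_mulVec (n : ℕ) :
    Continuous fun p : CMat n × (Fin n → ℂ) => ((Matrix.of p.1)ᴴ *ᵥ p.2) := by
  apply continuous_pi
  intro i
  have e : (fun p : CMat n × (Fin n → ℂ) => ((Matrix.of p.1)ᴴ *ᵥ p.2) i) =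
      fun p => ∑ j, starRingEnd ℂ (p.1 j i) * p.2 j := by
    funext p
    rfl
  rw [e]
  apply continuous_finsetSum
  intro j _
  apply Continuous.mul
  · exact Complex.continuous_conj.comp (by fun_prop)
  · fun_prop

lemma isOpen_aux (n : ℕ) :
    IsOpen {p : CMat n × (Fin n → ℂ) | ns ((Matrix.of p.1)ᴴ *ᵥ p.2) < ns p.2} :=
  isOpen_lt (continuous_ns.comp (continuous_adj_mulVec n)) (continuous_ns.comp continuous_snd)

lemma mem_ball_of_sphere {n : ℕ} {Z : CMat n}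
    (h : ∀ x : Fin n → ℂ, ns x = 1 → ns ((Matrix.of Z)ᴴ *ᵥ x) < ns x) : Z ∈ matrixBall n := by
  rw [mem_ball_iff]
  intro x hx
  have hpos := ns_pos hx
  have hnc : normSq (((1 / Real.sqrt (ns x) : ℝ) : ℂ)) = 1 / ns x := by
    rw [normSq_ofReal, div_mul_div_comm, Real.mul_self_sqrt hpos.le, one_mul]
  generalize (((1 / Real.sqrt (ns x) : ℝ) : ℂ)) = c at hnc
  have h1 : ns (c • x) = 1 := by
    rw [ns_smul, hnc]; field_simp
  have h3 := h (c • x) h1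
  rw [Matrix.mulVec_smul, ns_smul, ns_smul, hnc] at h3
  have h4 : 0 < 1 / ns x := by positivity
  exact lt_of_mul_lt_mul_left h3 h4.le

lemma isOpen_ball1 (n : ℕ) (Z : CMat n) (hZ : Z ∈ matrixBall n) :
    ({Z} : Set (CMat n)) ×ˢ {x : Fin n → ℂ | ns x = 1} ⊆
      {p : CMat n × (Fin n → ℂ) | ns ((Matrix.of p.1)ᴴ *ᵥ p.2) < ns p.2} := by
  rintro ⟨Z', x⟩ ⟨h1, h2⟩
  have h1' : Z' = Z := h1
  have h2' : ns x = 1 := h2
  subst h1'
  refine (mem_ball_iff Z').1 hZ x ?_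
  rintro rfl
  simp [ns] at h2'

lemma isOpen_ball2 (n : ℕ) (Z : CMat n) (hZ : Z ∈ matrixBall n) :
    ∃ U : Set (CMat n), ∃ V : Set (Fin n → ℂ), IsOpen U ∧ Z ∈ U ∧
      {x : Fin n → ℂ | ns x = 1} ⊆ V ∧
      U ×ˢ V ⊆ {p : CMat n × (Fin n → ℂ) | ns ((Matrix.of p.1)ᴴ *ᵥ p.2) < ns p.2} := by
  obtain ⟨U, V, hU, h0, hZU, hSV, hUV⟩ := @generalized_tube_lemma (CMat n) (Fin n → ℂ) _ _ {Z}
    isCompact_singleton _ (isCompact_ns_sphere n) _ (isOpen_aux n) (isOpen_ball1 n Z hZ)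
  exact ⟨U, V, hU, hZU (Set.mem_singleton Z), hSV, hUV⟩

lemma isOpen_ball3 (n : ℕ) (Z : CMat n) (hZ : Z ∈ matrixBall n) :
    ∃ U : Set (CMat n), IsOpen U ∧ Z ∈ U ∧
      ∀ Z' ∈ U, ∀ x : Fin n → ℂ, ns x = 1 → ns ((Matrix.of Z')ᴴ *ᵥ x) < ns x := by
  obtain ⟨U, V, hU, hZU, hSV, hUV⟩ := isOpen_ball2 n Z hZ
  refine ⟨U, hU, hZU, ?_⟩
  intro Z' hZ' x hx
  have h2 : (Z', x) ∈ U ×ˢ V := Set.mk_mem_prod hZ' (hSV hx)
  have h3 := hUV h2
  rw [Set.mem_ofPred_eq] at h3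
  exact h3

lemma isOpen_ball (n : ℕ) : IsOpen (matrixBall n) := by
  rw [isOpen_iff_mem_nhds]
  intro Z hZ
  obtain ⟨U, hU, hZU, h⟩ := isOpen_ball3 n Z hZ
  exact Filter.mem_of_superset (hU.mem_nhds hZU) fun Z' hZ' => mem_ball_of_sphere (h Z' hZ')

variable {m : ℕ}

noncomputable def DZ (Z : CMat (m + 2)) : ℂ := Dt (ca Z) (cc Z) (cd Z)
noncomputable def W1 (Z : CMat (m + 2)) : ℂ := cw1 (ca Z) (cc Z) (cd Z)
noncomputable def W2 (Z : CMat (m + 2)) : ℂ := cw2 (ca Z) (cc Z) (cd Z)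
noncomputable def W3 (Z : CMat (m + 2)) : ℂ := cw3 (ca Z) (cc Z) (cd Z)

lemma contDiff_ca : ContDiff ℂ ∞ (ca : CMat (m + 2) → ℂ) := by
  unfold ca; fun_prop

lemma contDiff_cd : ContDiff ℂ ∞ (cd : CMat (m + 2) → ℂ) := by
  unfold cd; fun_prop

lemma contDiff_cc : ContDiff ℂ ∞ (cc : CMat (m + 2) → ℂ) := by
  unfold cc; fun_prop

lemma contDiff_DZ : ContDiff ℂ ∞ (DZ : CMat (m + 2) → ℂ) := by
  have h1 := contDiff_ca (m := m)
  have h2 := contDiff_cd (m := m)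
  have h3 := contDiff_cc (m := m)
  unfold DZ Dt; fun_prop

lemma continuous_DZ : Continuous (DZ : CMat (m + 2) → ℂ) := contDiff_DZ.continuous

lemma DZ_ne_of_mem {Z : CMat (m + 2)} (hZ : Z ∈ matrixBall (m + 2)) : DZ Z ≠ 0 :=
  (contr_of_mem hZ).Dt_ne

lemma contDiffAt_W1 {Z : CMat (m + 2)} (h : DZ Z ≠ 0) : ContDiffAt ℂ ∞ W1 Z := by
  have h1 := (contDiff_ca (m := m)).contDiffAt (x := Z)
  have h2 := (contDiff_cd (m := m)).contDiffAt (x := Z)
  have h4 := (contDiff_DZ (m := m)).contDiffAt (x := Z)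
  have e : (W1 : CMat (m + 2) → ℂ) = fun Z => I * (2 * (1 + cd Z) / DZ Z - 1) := rfl
  rw [e]
  fun_prop (disch := assumption)

lemma contDiffAt_W2 {Z : CMat (m + 2)} (h : DZ Z ≠ 0) : ContDiffAt ℂ ∞ W2 Z := by
  have h1 := (contDiff_ca (m := m)).contDiffAt (x := Z)
  have h4 := (contDiff_DZ (m := m)).contDiffAt (x := Z)
  have e : (W2 : CMat (m + 2) → ℂ) = fun Z => I * (2 * (1 + ca Z) / DZ Z - 1) := rfl
  rw [e]
  fun_prop (disch := assumption)

lemma contDiffAt_W3 {Z : CMat (m + 2)} (h : DZ Z ≠ 0) : ContDiffAt ℂ ∞ W3 Z := by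
  have h1 := (contDiff_cc (m := m)).contDiffAt (x := Z)
  have h4 := (contDiff_DZ (m := m)).contDiffAt (x := Z)
  have e : (W3 : CMat (m + 2) → ℂ) = fun Z => -2 * I * cc Z / DZ Z := rfl
  rw [e]
  fun_prop (disch := assumption)

lemma sPosW_of_mem {Z : CMat (m + 2)} (hZ : Z ∈ matrixBall (m + 2)) :
    SPosW (W1 Z) (W2 Z) (W3 Z) := (contr_of_mem hZ).sPosW

/-- relation between the two determinants -/
lemma Dp_W {Z : CMat (m + 2)} (h : DZ Z ≠ 0) : Dp (W1 Z) (W2 Z) (W3 Z) = 4 / DZ Z := by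
  have e1 : 1 - I * W1 Z = 2 * (1 + cd Z) / DZ Z := by
    have : W1 Z = I * (2 * (1 + cd Z) / DZ Z - 1) := rfl
    rw [this]
    linear_combination (-(2 * (1 + cd Z) / DZ Z - 1)) * Complex.I_sq
  have e2 : 1 - I * W2 Z = 2 * (1 + ca Z) / DZ Z := by
    have : W2 Z = I * (2 * (1 + ca Z) / DZ Z - 1) := rfl
    rw [this]
    linear_combination (-(2 * (1 + ca Z) / DZ Z - 1)) * Complex.I_sq
  have e3 : W3 Z ^ 2 = -4 * (cc Z) ^ 2 / DZ Z ^ 2 := by
    have : W3 Z = -2 * I * cc Z / DZ Z := rfl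
    rw [this, div_pow, mul_pow, mul_pow, Complex.I_sq]
    ring
  unfold Dp
  rw [e1, e2, e3]
  have e4 : DZ Z = (1 + ca Z) * (1 + cd Z) - cc Z ^ 2 := rfl
  field_simp
  rw [e4]
  ring

lemma norm_Dp_le {w1 w2 w3 : ℂ} (h1 : ‖w1‖ ≤ 6) (h2 : ‖w2‖ ≤ 1) (h3 : ‖w3‖ ≤ 1) :
    ‖Dp w1 w2 w3‖ ≤ 15 := by
  unfold Dp
  have e1 : ‖1 - I * w1‖ ≤ 7 := by
    refine (norm_sub_le _ _).trans ?_
    rw [norm_one, norm_mul, Complex.norm_I, one_mul]
    linarith
  have e2 : ‖1 - I * w2‖ ≤ 2 := by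
    refine (norm_sub_le _ _).trans ?_
    rw [norm_one, norm_mul, Complex.norm_I, one_mul]
    linarith
  have e3 : ‖w3 ^ 2‖ ≤ 1 := by
    rw [norm_pow]
    exact pow_le_one₀ (norm_nonneg _) h3
  have e4 : ‖(1 - I * w1) * (1 - I * w2)‖ ≤ 7 * 2 := by
    rw [norm_mul]
    exact mul_le_mul e1 e2 (norm_nonneg _) (by norm_num)
  refine (norm_add_le _ _).trans ?_
  linarith

/-- The bumps used for the cutoff. -/
noncomputable def bα : ContDiffBump (3 / 2 : ℝ) := ⟨3 / 2, 5 / 2, by norm_num, by norm_num⟩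
noncomputable def bβ : ContDiffBump (0 : ℝ) := ⟨1, 2, by norm_num, by norm_num⟩
noncomputable def bφ : ContDiffBump (0 : ℂ) := ⟨1 / 2, 1, by norm_num, by norm_num⟩

/-- The cutoff in the flat coordinates. -/
noncomputable def chi (w1 w2 w3 : ℂ) : ℝ := bα w1.re * bβ w1.im * bφ w2 * bφ w3

lemma chi_nonneg (w1 w2 w3 : ℂ) : 0 ≤ chi w1 w2 w3 := by
  unfold chi
  have := bα.nonneg' w1.re
  have := bβ.nonneg' w1.im
  have := bφ.nonneg' w2
  have := bφ.nonneg' w3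
  positivity

lemma chi_le_one (w1 w2 w3 : ℂ) : chi w1 w2 w3 ≤ 1 := by
  unfold chi
  exact mul_le_one₀ (mul_le_one₀ (mul_le_one₀ (bα.le_one) (bβ.nonneg' _) (bβ.le_one))
    (bφ.nonneg' _) (bφ.le_one)) (bφ.nonneg' _) (bφ.le_one)

lemma chi_eq_zero {w1 w2 w3 : ℂ}
    (h : ¬ (|w1.re - 3 / 2| < 5 / 2 ∧ |w1.im| < 2 ∧ ‖w2‖ < 1 ∧ ‖w3‖ < 1)) :
    chi w1 w2 w3 = 0 := by
  unfold chi
  by_cases h1 : |w1.re - 3 / 2| < 5 / 2
  · by_cases h2 : |w1.im| < 2
    · by_cases h3 : ‖w2‖ < 1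
      · by_cases h4 : ‖w3‖ < 1
        · exact absurd ⟨h1, h2, h3, h4⟩ h
        · have : bφ w3 = 0 := by
            apply bφ.zero_of_le_dist
            rw [dist_zero_right]
            exact not_lt.1 h4
          rw [this, mul_zero]
      · have : bφ w2 = 0 := by
          apply bφ.zero_of_le_dist
          rw [dist_zero_right]
          exact not_lt.1 h3
        rw [this, mul_zero, zero_mul]
    · have : bβ w1.im = 0 := by
        apply bβ.zero_of_le_dist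
        rw [Real.dist_eq, sub_zero]
        exact not_lt.1 h2
      rw [this, mul_zero, zero_mul, zero_mul]
  · have : bα w1.re = 0 := by
      apply bα.zero_of_le_dist
      rw [Real.dist_eq]
      exact not_lt.1 h1
    rw [this, zero_mul, zero_mul, zero_mul]

lemma chi_eq_one {w1 w2 w3 : ℂ} (h1 : |w1.re - 3 / 2| ≤ 3 / 2) (h2 : |w1.im| ≤ 1)
    (h3 : ‖w2‖ ≤ 1 / 2) (h4 : ‖w3‖ ≤ 1 / 2) : chi w1 w2 w3 = 1 := by
  unfold chi
  have e1 : bα w1.re = 1 := by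
    apply bα.one_of_mem_closedBall
    rw [Metric.mem_closedBall, Real.dist_eq]
    exact h1
  have e2 : bβ w1.im = 1 := by
    apply bβ.one_of_mem_closedBall
    rw [Metric.mem_closedBall, Real.dist_eq, sub_zero]
    exact h2
  have e3 : bφ w2 = 1 := by
    apply bφ.one_of_mem_closedBall
    rw [mem_closedBall_zero_iff]
    exact h3
  have e4 : bφ w3 = 1 := by
    apply bφ.one_of_mem_closedBall
    rw [mem_closedBall_zero_iff]
    exact h4
  rw [e1, e2, e3, e4]; norm_num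

end Pool.Agent.Helper59.Dbar
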