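import Pool.Agent.Helper59.Dbar.Ibp
import Pool.Agent.Helper59.Dbar.Smooth

/-!
Mollification of bounded weak solutions.
-/

open Finset Complex Matrix Set MeasureTheory
open scoped ComplexOrder ContDiff Topology Convolution

namespace Pool.Agent.Helper59.Dbar

variable {n : ℕ}

instance instNegInvCMat (n : ℕ) : (volume : Measure (CMat n)).IsNegInvariant :=
  MeasureTheory.Measure.pi.isNegInvariant _

lemma dbar_reflect {ρ : CMat n → ℂ} (hρ : ContDiff ℝ ∞ ρ) (Z t : CMat n) (j k : Fin n) :
    dbar j k (fun t => ρ (Z - t)) t = -dbar j k ρ (Z - t) := by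
  have h1 : HasFDerivAt ρ (fderiv ℝ ρ (Z - t)) (Z - t) :=
    ((hρ.differentiable (by simp)).differentiableAt).hasFDerivAt
  have h2 : HasFDerivAt (fun t : CMat n => Z - t) (-ContinuousLinearMap.id ℝ (CMat n)) t :=
    (hasFDerivAt_id t).const_sub Z
  have h3 := (h1.comp t h2).fderiv
  have h4 : fderiv ℝ (fun t => ρ (Z - t)) t =
      (fderiv ℝ ρ (Z - t)).comp (-ContinuousLinearMap.id ℝ (CMat n)) := h3
  rw [dbar_def, dbar_def, h4]
  simp only [ContinuousLinearMap.comp_apply, _root_.neg_apply, ContinuousLinearMap.id_apply,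
    map_neg]
  ring

lemma dbar_convolution {F ρ : CMat n → ℂ} (hF : Integrable F) (hρ : ContDiff ℝ ∞ ρ)
    (hc : HasCompactSupport ρ) (Z : CMat n) (j k : Fin n) :
    dbar j k (F ⋆[ContinuousLinearMap.mul ℝ ℂ, volume] ρ) Z =
      ∫ t, F t * dbar j k ρ (Z - t) := by
  have hD : ∀ v, fderiv ℝ (F ⋆[ContinuousLinearMap.mul ℝ ℂ, volume] ρ) Z v =
      ∫ t, F t * fderiv ℝ ρ (Z - t) v := by
    intro v
    have h1 := hc.hasFDerivAt_convolution_right (ContinuousLinearMap.mul ℝ ℂ)
      hF.locallyIntegrable (hρ.of_le (by simp)) Z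
    rw [h1.fderiv, convolution_precompR_apply (ContinuousLinearMap.mul ℝ ℂ) hF.locallyIntegrable
      (hc.fderiv ℝ) (hρ.continuous_fderiv (by simp)) Z v]
    rfl
  have hi : ∀ v, Integrable fun t => F t * fderiv ℝ ρ (Z - t) v := by
    intro v
    have h1 := (hc.fderiv_apply ℝ v).convolutionExists_right (ContinuousLinearMap.mul ℝ ℂ)
      hF.locallyIntegrable (continuous_fderiv_apply hρ v) Z
    exact h1
  have e1 : (fun t => F t * dbar j k ρ (Z - t)) = fun t =>
      (1 / 2 : ℂ) * (F t * fderiv ℝ ρ (Z - t) (eR j k)) +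
      (1 / 2 * I : ℂ) * (F t * fderiv ℝ ρ (Z - t) (eI j k)) := by
    funext t; rw [dbar_def]; ring
  rw [e1, integral_add ((hi _).const_mul _) ((hi _).const_mul _), integral_const_mul,
    integral_const_mul, dbar_def, hD, hD]
  ring

theorem mollify {f u : CMat n → ℂ} {C1 : ℝ} (hf : Measurable f)
    (hfb : ∀ Z ∈ matrixBall n, ‖f Z‖ ≤ C1) (hu : ContDiffOn ℝ ∞ u (matrixBall n))
    (hw : WeakDbar n f (fun j k => dbar j k u)) {K : Set (CMat n)} (hK : IsCompact K)
    (hKD : K ⊆ matrixBall n) :
    ∃ O : Set (CMat n), IsOpen O ∧ K ⊆ O ∧ O ⊆ matrixBall n ∧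
      ∃ h : CMat n → ℂ, ContDiff ℝ ∞ h ∧ DifferentiableOn ℂ h O ∧
        ∀ Z ∈ K, ‖h Z + u Z‖ ≤ C1 + 1 := by
  have hDo := isOpen_ball n
  obtain ⟨ε, hε, hεD⟩ := hK.exists_cthickening_subset_open hDo hKD
  set K1 := Metric.cthickening ε K with hK1def
  have hK1 : IsCompact K1 := hK.cthickening
  have huc : UniformContinuousOn u K1 :=
    hK1.uniformContinuousOn_of_continuous (hu.continuousOn.mono hεD)
  obtain ⟨δ, hδ, hδu⟩ := Metric.uniformContinuousOn_iff.1 huc 1 one_pos
  obtain ⟨r, hr, hrε, hrδ⟩ : ∃ r : ℝ, 0 < r ∧ r ≤ ε / 2 ∧ r < δ :=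
    ⟨min (ε / 2) (δ / 2), by positivity, min_le_left _ _,
      lt_of_le_of_lt (min_le_right _ _) (by linarith)⟩
  let ρ : ContDiffBump (0 : CMat n) := ⟨r / 2, r, by positivity, by linarith⟩
  set ρc : CMat n → ℂ := fun Z => ((ρ.normed volume Z : ℝ) : ℂ) with hρcdef
  have hρc : ContDiff ℝ ∞ ρc := Complex.ofRealCLM.contDiff.comp ρ.contDiff_normed
  have hρs : HasCompactSupport ρc := ρ.hasCompactSupport_normed.comp_left (g := fun x : ℝ => (x : ℂ))
    Complex.ofReal_zero
  have hρ0 : ∀ Y : CMat n, Y ∉ Metric.closedBall (0 : CMat n) r → ρ.normed volume Y = 0 := by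
    intro Y hY
    by_contra hcon
    have h1 : Y ∈ Function.support (ρ.normed volume) := hcon
    rw [ρ.support_normed_eq] at h1
    exact hY (Metric.ball_subset_closedBall h1)
  have hρt : tsupport ρc ⊆ Metric.closedBall 0 r := by
    apply closure_minimal _ Metric.isClosed_closedBall
    intro Y hY
    by_contra hcon
    apply hY
    rw [hρcdef]
    simp only
    rw [hρ0 Y hcon, Complex.ofReal_zero]
  set F : CMat n → ℂ := K1.indicator (fun Z => f Z - u Z) with hFdef
  have hFi : Integrable F := by
    rw [integrable_indicator_iff hK1.measurableSet]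
    apply Integrable.sub
    · apply Measure.integrableOn_of_bounded (M := C1) hK1.measure_lt_top.ne
        hf.aestronglyMeasurable
      rw [ae_restrict_iff' hK1.measurableSet]
      exact Filter.Eventually.of_forall fun Z hZ => hfb Z (hεD hZ)
    · exact (hu.continuousOn.mono hεD).integrableOn_compact hK1
  set L := ContinuousLinearMap.mul ℝ ℂ with hL
  set h : CMat n → ℂ := F ⋆[L, volume] ρc with hh
  have hhC : ContDiff ℝ ∞ h := hρs.contDiff_convolution_right L hFi.locallyIntegrable hρc
  refine ⟨Metric.thickening (ε / 2) K, Metric.isOpen_thickening,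
    Metric.self_subset_thickening (by positivity) K, ?_, h, hhC, ?_, ?_⟩
  · refine Subset.trans ?_ hεD
    exact (Metric.thickening_subset_cthickening_of_le (by linarith) K)
  · intro Z hZ
    obtain ⟨X, hXK, hXZ⟩ := Metric.mem_thickening_iff.1 hZ
    have hball : Metric.closedBall Z r ⊆ K1 := by
      intro t ht
      rw [Metric.mem_closedBall] at ht
      apply Metric.mem_cthickening_of_dist_le t X ε K hXK
      have := dist_triangle t Z X
      linarith
    apply DifferentiableAt.differentiableWithinAt
    apply differentiableAt_of_dbar ((hhC.differentiable (by simp)).differentiableAt)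
    intro j k
    rw [hh, dbar_convolution hFi hρc hρs Z j k]
    set φ : CMat n → ℂ := fun t => ρc (Z - t) with hφ
    have hφC : ContDiff ℝ ∞ φ := hρc.comp (contDiff_const.sub contDiff_id)
    have hφt : tsupport φ ⊆ Metric.closedBall Z r := by
      apply closure_minimal _ Metric.isClosed_closedBall
      intro Y hY
      have h1 : Z - Y ∈ tsupport ρc := subset_tsupport ρc hY
      have h2 := hρt h1
      rw [mem_closedBall_zero_iff] at h2
      rw [Metric.mem_closedBall, dist_comm, dist_eq_norm]
      exact h2
    have hφc : HasCompactSupport φ :=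
      (isCompact_closedBall Z r).of_isClosed_subset (isClosed_tsupport _) hφt
    have hφD : tsupport φ ⊆ matrixBall n := hφt.trans (hball.trans hεD)
    have e1 : ∀ t, F t * dbar j k ρc (Z - t) = -((f t - u t) * dbar j k φ t) := by
      intro t
      rw [hφ, dbar_reflect hρc]
      by_cases ht : t ∈ K1
      · rw [hFdef, Set.indicator_of_mem ht]; ring
      · have h1 : t ∉ tsupport φ := fun h2 => ht (hball (hφt h2))
        have h2 := dbar_eq_zero_of_notMem h1 j k
        rw [hφ, dbar_reflect hρc, neg_eq_zero] at h2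
        rw [h2]; ring
    have hD0 : ∀ Y, Y ∉ matrixBall n → dbar j k φ Y = 0 := fun Y hY =>
      dbar_eq_zero_of_notMem (fun h => hY (hφD h)) j k
    have hwφ := hw φ hφC hφc hφD j k
    have hiu := ibp hDo hu hφC hφc hφD j k
    have hint1 : IntegrableOn (fun t => f t * dbar j k φ t) (matrixBall n) := by
      apply Integrable.bdd_mul (c := C1)
      · exact ((continuous_dbar hφC j k).integrable_of_hasCompactSupport
          (hasCompactSupport_dbar hφc j k)).integrableOn
      · exact hf.aestronglyMeasurable
      · rw [ae_restrict_iff' hDo.measurableSet]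
        exact Filter.Eventually.of_forall fun Z hZ => hfb Z hZ
    have hint2 : IntegrableOn (fun t => u t * dbar j k φ t) (matrixBall n) :=
      (integrable_mul_of_tsupport hDo hu.continuousOn (continuous_dbar hφC j k)
        ((tsupport_dbar_subset φ j k).trans hφD) (hasCompactSupport_dbar hφc j k)).integrableOn
    calc ∫ t, F t * dbar j k ρc (Z - t) = ∫ t, -((f t - u t) * dbar j k φ t) := by
          congr 1; funext t; exact e1 t
      _ = -∫ t, (f t - u t) * dbar j k φ t := integral_neg _
      _ = -∫ t in matrixBall n, (f t - u t) * dbar j k φ t := by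
          rw [setIntegral_eq_integral_of_forall_compl_eq_zero
            (fun Y hY => by rw [hD0 Y hY, mul_zero])]
      _ = -((∫ t in matrixBall n, f t * dbar j k φ t) -
            ∫ t in matrixBall n, u t * dbar j k φ t) := by
          rw [← integral_sub hint1 hint2]
          congr 2
          funext t; ring
      _ = 0 := by rw [hwφ, hiu]; ring
  · intro Z hZ
    have hρi : Integrable (ρ.normed volume) (volume : Measure (CMat n)) := ρ.integrable_normed
    have hρi' : Integrable (fun t => ρ.normed volume (Z - t)) (volume : Measure (CMat n)) :=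
      hρi.comp_sub_left Z
    have hone : ∫ t, ρ.normed volume (Z - t) = 1 := by
      rw [integral_sub_left_eq_self (fun t => ρ.normed volume t) volume Z]
      exact ρ.integral_normed
    have e0 : h Z = ∫ t, F t * ρc (Z - t) := rfl
    have hi1 : Integrable (fun t => F t * ρc (Z - t)) := by
      have h1 := hρs.convolutionExists_right L hFi.locallyIntegrable hρc.continuous Z
      exact h1
    have hi2 : Integrable (fun t => u Z * ρc (Z - t)) := by
      apply Integrable.const_mul
      exact hρi'.ofReal
    have e1 : u Z = ∫ t, u Z * ρc (Z - t) := by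
      rw [integral_const_mul]
      have e2 : ∫ t, ρc (Z - t) = ((∫ t, ρ.normed volume (Z - t) : ℝ) : ℂ) := integral_ofReal
      rw [e2, hone, Complex.ofReal_one, mul_one]
    have e3 : h Z + u Z = ∫ t, (F t + u Z) * ρc (Z - t) := by
      rw [e0]
      conv_lhs => rw [e1]
      rw [← integral_add hi1 hi2]
      congr 1
      funext t; ring
    rw [e3]
    have hbd : ∀ t, ‖(F t + u Z) * ρc (Z - t)‖ ≤ (C1 + 1) * ρ.normed volume (Z - t) := by
      intro t
      have hnn : 0 ≤ ρ.normed volume (Z - t) := ρ.nonneg_normed _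
      by_cases ht : Z - t ∈ Metric.closedBall (0 : CMat n) r
      · rw [mem_closedBall_zero_iff, ← dist_eq_norm] at ht
        have htK : t ∈ K1 := by
          apply Metric.mem_cthickening_of_dist_le t Z ε K hZ
          rw [dist_comm]; linarith
        have hZK : Z ∈ K1 := Metric.self_subset_cthickening K hZ
        rw [norm_mul]
        have h1 : ‖ρc (Z - t)‖ = ρ.normed volume (Z - t) := by
          rw [hρcdef]
          simp only
          rw [Complex.norm_real, Real.norm_eq_abs, abs_of_nonneg hnn]
        rw [h1]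
        apply mul_le_mul_of_nonneg_right _ hnn
        rw [hFdef, Set.indicator_of_mem htK]
        have h2 := hδu Z hZK t htK (by linarith)
        rw [dist_eq_norm] at h2
        have h3 := hfb t (hεD htK)
        have e4 : f t - u t + u Z = f t + (u Z - u t) := by ring
        rw [e4]
        exact (norm_add_le _ _).trans (by linarith)
      · have h1 : ρc (Z - t) = 0 := by
          rw [hρcdef]
          simp only
          rw [hρ0 _ ht, Complex.ofReal_zero]
        rw [h1, hρ0 _ ht]; simp
    refine (norm_integral_le_of_norm_le (hρi'.const_mul (C1 + 1))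
      (Filter.Eventually.of_forall hbd)).trans (le_of_eq ?_)
    rw [integral_const_mul, hone, mul_one]

end Pool.Agent.Helper59.Dbar
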