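import Pool.Agent.Helper59.Dbar.Digits

/-!
The tubes: positions, slopes, separation in the slabs.
-/

open Finset

namespace Pool.Agent.Helper59.Dbar

/-- Nodes (focusing times). -/
noncomputable def node (b i : ℕ) : ℝ := if i < b then -6 + (i : ℝ) / b else 2 - ((i : ℝ) - b) / b

/-- Index set of the tubes. -/
abbrev Tub (b : ℕ) := Fin (2 * b) → Fin b

noncomputable def slope {b : ℕ} (v : Tub b) : ℝ :=
  ∑ i : Fin (2 * b), ((v i : ℕ) : ℝ) / ((b : ℝ) + 3) ^ ((i : ℕ) + 1)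

noncomputable def icept {b : ℕ} (v : Tub b) : ℝ :=
  -∑ i : Fin (2 * b), ((v i : ℕ) : ℝ) * node b i / ((b : ℝ) + 3) ^ ((i : ℕ) + 1)

/-- Normalised position at time `t`. -/
noncomputable def pos {b : ℕ} (v : Tub b) (t : ℝ) : ℝ := icept v + slope v * t

lemma pos_eq {b : ℕ} (v : Tub b) (t : ℝ) :
    pos v t = ∑ i : Fin (2 * b), ((v i : ℕ) : ℝ) * (t - node b i) / ((b : ℝ) + 3) ^ ((i : ℕ) + 1) := by
  unfold pos icept slope
  rw [Finset.sum_mul, neg_add_eq_sub, ← Finset.sum_sub_distrib]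
  apply Finset.sum_congr rfl
  intro i _
  ring

/-- Difference of digits as a sequence. -/
noncomputable def dd {b : ℕ} (v v' : Tub b) (i : ℕ) : ℝ :=
  if h : i < 2 * b then (((v ⟨i, h⟩ : ℕ) : ℝ) - ((v' ⟨i, h⟩ : ℕ) : ℝ)) else 0

lemma abs_dd_le {b : ℕ} (hb : 1 ≤ b) (v v' : Tub b) (i : ℕ) : |dd v v' i| ≤ (b : ℝ) - 1 := by
  have hb' : (1 : ℝ) ≤ b := by exact_mod_cast hb
  unfold dd
  split_ifs with h
  · have h1 : ((v ⟨i, h⟩ : ℕ) : ℝ) + 1 ≤ b := by exact_mod_cast (v ⟨i, h⟩).2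
    have h2 : ((v' ⟨i, h⟩ : ℕ) : ℝ) + 1 ≤ b := by exact_mod_cast (v' ⟨i, h⟩).2
    have h3 : (0 : ℝ) ≤ ((v ⟨i, h⟩ : ℕ) : ℝ) := Nat.cast_nonneg _
    have h4 : (0 : ℝ) ≤ ((v' ⟨i, h⟩ : ℕ) : ℝ) := Nat.cast_nonneg _
    rw [abs_le]
    constructor <;> linarith
  · rw [abs_zero]; linarith

lemma dd_of_not_lt {b : ℕ} (v v' : Tub b) {i : ℕ} (h : ¬ i < 2 * b) : dd v v' i = 0 := by
  unfold dd; rw [dif_neg h]

lemma exists_first {b : ℕ} {v v' : Tub b} (h : v ≠ v') :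
    ∃ j, j < 2 * b ∧ (∀ i, i < j → dd v v' i = 0) ∧ 1 ≤ |dd v v' j| := by
  classical
  have hex : ∃ j, dd v v' j ≠ 0 := by
    by_contra hcon
    push Not at hcon
    apply h
    funext i
    have h1 := hcon i
    unfold dd at h1
    rw [dif_pos i.2] at h1
    have h2 : ((v i : ℕ) : ℝ) = ((v' i : ℕ) : ℝ) := by linarith
    exact Fin.ext (by exact_mod_cast h2)
  refine ⟨Nat.find hex, ?_, ?_, ?_⟩
  · by_contra hcon
    exact Nat.find_spec hex (dd_of_not_lt v v' hcon)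
  · intro i hi
    by_contra hcon
    exact Nat.find_min hex hi hcon
  · have h1 := Nat.find_spec hex
    set j := Nat.find hex
    unfold dd at h1 ⊢
    split_ifs at h1 ⊢ with hj
    · have e : (((v ⟨j, hj⟩ : ℕ) : ℝ) - ((v' ⟨j, hj⟩ : ℕ) : ℝ)) =
        ((((v ⟨j, hj⟩ : ℕ) : ℤ) - ((v' ⟨j, hj⟩ : ℕ) : ℤ) : ℤ) : ℝ) := by push_cast; ring
      rw [e] at h1 ⊢
      have h2 : (((v ⟨j, hj⟩ : ℕ) : ℤ) - ((v' ⟨j, hj⟩ : ℕ) : ℤ)) ≠ 0 := by exact_mod_cast h1
      exact_mod_cast Int.one_le_abs h2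
    · exact absurd rfl h1

lemma sum_dd {b : ℕ} (v v' : Tub b) (τ : ℕ → ℝ) :
    ∑ i ∈ range (2 * b), dd v v' i * τ i / ((b : ℝ) + 3) ^ (i + 1) =
      ∑ i : Fin (2 * b), ((v i : ℕ) : ℝ) * τ i / ((b : ℝ) + 3) ^ ((i : ℕ) + 1) -
      ∑ i : Fin (2 * b), ((v' i : ℕ) : ℝ) * τ i / ((b : ℝ) + 3) ^ ((i : ℕ) + 1) := by
  rw [Finset.sum_range, ← Finset.sum_sub_distrib]
  apply Finset.sum_congr rfl
  intro i _
  unfold dd
  rw [dif_pos i.2]
  ring

/-- The slopes are separated. -/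
lemma slope_sep {b : ℕ} (hb : 1 ≤ b) {v v' : Tub b} (h : v ≠ v') :
    1 / ((b : ℝ) + 3) ^ (2 * b) ≤ |slope v - slope v'| := by
  have hb' : (1 : ℝ) ≤ b := by exact_mod_cast hb
  obtain ⟨j, hj, h0, h1⟩ := exists_first h
  have key := sep_general hb' (2 * b) j hj (dd v v') (fun _ => 1) (abs_dd_le hb v v') h0 h1
    (by
      intro i hi _
      have : (j : ℝ) ≤ i := by exact_mod_cast hi
      simp only [abs_one]
      have h2 : 0 ≤ ((i : ℝ) - j) / b := div_nonneg (by linarith) (by linarith)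
      linarith) (by simp)
  rw [sum_dd] at key
  simpa [slope] using key

/-- Condition on a time that guarantees the separation. -/
def SlabTime (t : ℝ) : Prop := (-1 ≤ t ∧ t ≤ 0) ∨ (3 ≤ t ∧ t ≤ 4)

lemma node_cond {b : ℕ} (hb : 1 ≤ b) {t : ℝ} (ht : SlabTime t) (i j : ℕ) (hij : j ≤ i)
    (hi : i < 2 * b) : |t - node b i| ≤ |t - node b j| + ((i : ℝ) - j) / b := by
  have hb' : (1 : ℝ) ≤ b := by exact_mod_cast hb
  have hb0 : (0 : ℝ) < b := by linarith
  have hij' : (j : ℝ) ≤ i := by exact_mod_cast hij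
  have hi' : (i : ℝ) < 2 * b := by exact_mod_cast hi
  have h1 : (i : ℝ) / b < 2 := by rw [div_lt_iff₀ hb0]; linarith
  have h2 : (j : ℝ) / b ≤ i / b := div_le_div_of_nonneg_right hij' hb0.le
  have h3 : 0 ≤ (j : ℝ) / b := by positivity
  have h4 : ((i : ℝ) - j) / b = i / b - j / b := by ring
  have h5 : ∀ k : ℕ, ((k : ℝ) - b) / b = k / b - 1 := by intro k; field_simp
  rw [h4]
  unfold node
  split_ifs with hib hjb hjb
  · -- both in the left block
    have h6 : (i : ℝ) / b < 1 := by rw [div_lt_iff₀ hb0]; rw [one_mul]; exact_mod_cast hib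
    rcases ht with ⟨ht1, ht2⟩ | ⟨ht1, ht2⟩
    · rw [abs_of_nonneg (by linarith), abs_of_nonneg (by linarith)]; linarith
    · rw [abs_of_nonneg (by linarith), abs_of_nonneg (by linarith)]; linarith
  · omega
  · have h6 : (j : ℝ) / b < 1 := by rw [div_lt_iff₀ hb0]; rw [one_mul]; exact_mod_cast hjb
    have h7 : 1 ≤ (i : ℝ) / b := by
      rw [le_div_iff₀ hb0, one_mul]
      have : b ≤ i := by omega
      exact_mod_cast this
    rw [h5]
    rcases ht with ⟨ht1, ht2⟩ | ⟨ht1, ht2⟩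
    · rw [abs_of_nonpos (by linarith), abs_of_nonneg (by linarith)]; linarith
    · rw [abs_of_nonneg (by linarith), abs_of_nonneg (by linarith)]; linarith
  · have h7 : 1 ≤ (j : ℝ) / b := by
      rw [le_div_iff₀ hb0, one_mul]
      have : b ≤ j := by omega
      exact_mod_cast this
    rw [h5, h5]
    rcases ht with ⟨ht1, ht2⟩ | ⟨ht1, ht2⟩
    · rw [abs_of_nonpos (by linarith), abs_of_nonpos (by linarith)]; linarith
    · rw [abs_of_nonneg (by linarith), abs_of_nonneg (by linarith)]; linarith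

lemma one_le_abs_node {b : ℕ} (hb : 1 ≤ b) {t : ℝ} (ht : SlabTime t) (j : ℕ)
    (hj : j < 2 * b) : 1 ≤ |t - node b j| := by
  have hb' : (1 : ℝ) ≤ b := by exact_mod_cast hb
  have hb0 : (0 : ℝ) < b := by linarith
  have hj' : (j : ℝ) < 2 * b := by exact_mod_cast hj
  have h1 : (j : ℝ) / b < 2 := by rw [div_lt_iff₀ hb0]; linarith
  have h3 : 0 ≤ (j : ℝ) / b := by positivity
  have h5 : ∀ k : ℕ, ((k : ℝ) - b) / b = k / b - 1 := by intro k; field_simp
  unfold node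
  split_ifs with hjb
  · have h6 : (j : ℝ) / b < 1 := by rw [div_lt_iff₀ hb0]; rw [one_mul]; exact_mod_cast hjb
    rcases ht with ⟨ht1, ht2⟩ | ⟨ht1, ht2⟩
    · rw [abs_of_nonneg (by linarith)]; linarith
    · rw [abs_of_nonneg (by linarith)]; linarith
  · have h7 : 1 ≤ (j : ℝ) / b := by
      rw [le_div_iff₀ hb0, one_mul]
      have : b ≤ j := by omega
      exact_mod_cast this
    rw [h5]
    rcases ht with ⟨ht1, ht2⟩ | ⟨ht1, ht2⟩
    · rw [abs_of_nonpos (by linarith)]; linarith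
    · rw [abs_of_nonneg (by linarith)]; linarith

/-- In the slabs the tubes are separated. -/
lemma pos_sep {b : ℕ} (hb : 1 ≤ b) {v v' : Tub b} (h : v ≠ v') {t : ℝ} (ht : SlabTime t) :
    1 / ((b : ℝ) + 3) ^ (2 * b) ≤ |pos v t - pos v' t| := by
  have hb' : (1 : ℝ) ≤ b := by exact_mod_cast hb
  obtain ⟨j, hj, h0, h1⟩ := exists_first h
  have key := sep_general hb' (2 * b) j hj (dd v v') (fun i => t - node b i) (abs_dd_le hb v v') h0 h1
    (fun i hi hi2 => node_cond hb ht i j hi hi2) (one_le_abs_node hb ht j hj)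
  rw [sum_dd] at key
  rw [pos_eq, pos_eq]
  exact key

lemma geom_tail {b : ℝ} (hb : 1 ≤ b) (J : ℕ) : ∀ i, i ≤ J →
    ∑ k ∈ Ico i J, (b - 1) / (b + 3) ^ (k + 1) ≤ 1 / (b + 3) ^ i := by
  intro i hiJ
  induction hiJ using Nat.decreasingInduction with
  | self => simp only [Finset.Ico_self, Finset.sum_empty]; positivity
  | of_succ k hk ih =>
    rw [Finset.sum_eq_sum_Ico_succ_bot (by omega)]
    have h1 : 1 / (b + 3) ^ k = (b + 3) / (b + 3) ^ (k + 1) := by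
      rw [pow_succ]; field_simp
    rw [h1]
    have h2 : (b - 1) / (b + 3) ^ (k + 1) + 1 / (b + 3) ^ (k + 1) ≤ (b + 3) / (b + 3) ^ (k + 1) := by
      rw [← add_div]
      apply div_le_div_of_nonneg_right _ (by positivity)
      linarith
    linarith

lemma slope_nonneg {b : ℕ} (v : Tub b) : 0 ≤ slope v :=
  Finset.sum_nonneg fun i _ => by positivity

lemma slope_le {b : ℕ} (hb : 1 ≤ b) (v : Tub b) : slope v ≤ 1 := by
  have hb' : (1 : ℝ) ≤ b := by exact_mod_cast hb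
  have h1 := geom_tail hb' (2 * b) 0 (Nat.zero_le _)
  have h2 : slope v ≤ ∑ k ∈ Ico 0 (2 * b), ((b : ℝ) - 1) / ((b : ℝ) + 3) ^ (k + 1) := by
    rw [← Finset.range_eq_Ico, Finset.sum_range]
    unfold slope
    apply Finset.sum_le_sum
    intro i _
    apply div_le_div_of_nonneg_right _ (by positivity)
    have : ((v i : ℕ) : ℝ) + 1 ≤ b := by exact_mod_cast (v i).2
    linarith
  simpa using h2.trans h1

lemma abs_node_le {b : ℕ} (hb : 1 ≤ b) (j : ℕ) (hj : j < 2 * b) : |node b j| ≤ 6 := by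
  have hb' : (1 : ℝ) ≤ b := by exact_mod_cast hb
  have hb0 : (0 : ℝ) < b := by linarith
  have hj' : (j : ℝ) < 2 * b := by exact_mod_cast hj
  have h1 : (j : ℝ) / b < 2 := by rw [div_lt_iff₀ hb0]; linarith
  have h3 : 0 ≤ (j : ℝ) / b := by positivity
  have h5 : ∀ k : ℕ, ((k : ℝ) - b) / b = k / b - 1 := by intro k; field_simp
  unfold node
  split_ifs with hjb
  · rw [abs_le]; constructor <;> linarith
  · rw [h5, abs_le]
    have h7 : 1 ≤ (j : ℝ) / b := by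
      rw [le_div_iff₀ hb0, one_mul]
      have : b ≤ j := by omega
      exact_mod_cast this
    constructor <;> linarith

lemma abs_icept_le {b : ℕ} (hb : 1 ≤ b) (v : Tub b) : |icept v| ≤ 6 := by
  unfold icept
  rw [abs_neg]
  calc |∑ i : Fin (2 * b), ((v i : ℕ) : ℝ) * node b i / ((b : ℝ) + 3) ^ ((i : ℕ) + 1)|
      ≤ ∑ i : Fin (2 * b), |((v i : ℕ) : ℝ) * node b i / ((b : ℝ) + 3) ^ ((i : ℕ) + 1)| :=
        Finset.abs_sum_le_sum_abs _ _
    _ ≤ ∑ i : Fin (2 * b), 6 * (((v i : ℕ) : ℝ) / ((b : ℝ) + 3) ^ ((i : ℕ) + 1)) := by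
        apply Finset.sum_le_sum
        intro i _
        rw [abs_div, abs_mul, abs_of_pos (by positivity : (0 : ℝ) < ((b : ℝ) + 3) ^ ((i : ℕ) + 1)),
          Nat.abs_cast, ← mul_div_assoc]
        apply div_le_div_of_nonneg_right _ (by positivity)
        have := abs_node_le hb i i.2
        have h0 : (0 : ℝ) ≤ ((v i : ℕ) : ℝ) := Nat.cast_nonneg _
        nlinarith
    _ = 6 * slope v := by rw [← Finset.mul_sum]; rfl
    _ ≤ 6 := by linarith [slope_le hb v]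

end Pool.Agent.Helper59.Dbar
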